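import Pool.Agent.Lib.PiMu.Defs

/-!
# Module F : the analytic upper bound

`lam x y s P = (x / 4i) ∫_γ P(v)/v^s ds - (y - π x) / (16 π i) ∮ P(v)/v^s ds`, `v = 25 - s²`.
-/

namespace Pool.Agent.Lib.PiMu

open Polynomial Complex

noncomputable section

/-! ### The recursion of the moments -/

theorem ana_Lam_rec (x y : ℚ) (k : ℤ) :
    (2 * k + 1) * Lam x y k - 50 * k * Lam x y (k - 1) = x * bz k := by
  rcases k with k | M
  · rcases k with _ | k
    · simp [Lam, mA, bz, bp]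
    · have h1 : (Int.ofNat (k + 1) : ℤ) - 1 = Int.ofNat k := by simp
      rw [h1]
      simp only [Lam, bz, mA]
      have h2 : (2 * (k : ℚ) + 3) ≠ 0 := by positivity
      have h3 : ((Int.ofNat (k + 1) : ℤ) : ℚ) = (k : ℚ) + 1 := by simp
      rw [h3]
      field_simp
      ring
  · have h1 : (Int.negSucc M : ℤ) - 1 = Int.negSucc (M + 1) := by
      simp [Int.negSucc_eq]; ring
    rw [h1]
    simp only [Lam, bz, mN]
    have h2 : (50 * ((M : ℚ) + 1)) ≠ 0 := by positivity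
    have h3 : ((Int.negSucc M : ℤ) : ℚ) = -((M : ℚ) + 1) := by
      rw [Int.negSucc_eq]; push_cast; ring
    rw [h3]
    field_simp
    ring

theorem ana_mN_lin (x y : ℚ) (M : ℕ) : mN x y M = x * mN 1 0 M + y * mN 0 1 M := by
  induction M with
  | zero => simp [mN]; ring
  | succ M ih =>
    simp only [mN]
    rw [ih]
    have h2 : (50 * ((M : ℚ) + 1)) ≠ 0 := by positivity
    field_simp
    ring

theorem ana_Lam_lin (x y : ℚ) (k : ℤ) : Lam x y k = x * Lam 1 0 k + y * Lam 0 1 k := by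
  rcases k with k | M
  · simp [Lam]
  · simp only [Lam]; exact ana_mN_lin x y M

theorem ana_uniq {X Y : ℤ → ℂ}
    (h : ∀ k : ℤ, (2 * (k : ℂ) + 1) * X k - 50 * (k : ℂ) * X (k - 1) =
      (2 * (k : ℂ) + 1) * Y k - 50 * (k : ℂ) * Y (k - 1)) (h1 : X (-1) = Y (-1)) :
    ∀ k, X k = Y k := by
  have hup : ∀ n : ℕ, X n = Y n := by
    intro n
    induction n with
    | zero =>
      have := h 0
      simpa using this
    | succ n ih =>
      have h2 := h (n + 1)
      rw [show ((n : ℤ) + 1 - 1) = n by ring, ih] at h2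
      have h3 : (2 * (((n : ℤ) + 1 : ℤ) : ℂ) + 1) ≠ 0 := by
        have : (2 * (((n : ℤ) + 1 : ℤ) : ℂ) + 1) = ((2 * (n + 1) + 1 : ℕ) : ℂ) := by
          push_cast; ring
        rw [this]
        exact Nat.cast_ne_zero.2 (by omega)
      have h4 : (2 * (((n : ℤ) + 1 : ℤ) : ℂ) + 1) * X ((n : ℤ) + 1) =
          (2 * (((n : ℤ) + 1 : ℤ) : ℂ) + 1) * Y ((n : ℤ) + 1) := by
        linear_combination h2
      have h5 := mul_left_cancel₀ h3 h4
      push_cast
      exact h5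
  have hdn : ∀ n : ℕ, X (-(n : ℤ) - 1) = Y (-(n : ℤ) - 1) := by
    intro n
    induction n with
    | zero => simpa using h1
    | succ n ih =>
      have h2 := h (-(n : ℤ) - 1)
      rw [ih] at h2
      have h3 : (50 * ((-(n : ℤ) - 1 : ℤ) : ℂ)) ≠ 0 := by
        have : (50 * ((-(n : ℤ) - 1 : ℤ) : ℂ)) = -((50 * (n + 1) : ℕ) : ℂ) := by
          push_cast; ring
        rw [this]
        exact neg_ne_zero.2 (Nat.cast_ne_zero.2 (by omega))
      have h4 : (50 * ((-(n : ℤ) - 1 : ℤ) : ℂ)) * X (-(n : ℤ) - 1 - 1) =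
          (50 * ((-(n : ℤ) - 1 : ℤ) : ℂ)) * Y (-(n : ℤ) - 1 - 1) := by
        linear_combination -h2
      have h5 := mul_left_cancel₀ h3 h4
      rw [show (-((n + 1 : ℕ) : ℤ) - 1) = -(n : ℤ) - 1 - 1 by push_cast; ring]
      exact h5
  intro k
  rcases k with n | n
  · exact hup n
  · have := hdn n
    rw [show (Int.negSucc n) = -(n : ℤ) - 1 by rw [Int.negSucc_eq]; ring]
    exact this

/-! ### The boundary terms -/

theorem ana_bp (k : ℕ) :
    ((-1 + 2 * I) * (28 + 4 * I) ^ k - (-1 - 2 * I) * (28 - 4 * I) ^ k : ℂ) = 4 * I * bp k := by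
  induction k using Nat.strong_induction_on with
  | _ k ih =>
    rcases k with _ | _ | k
    · simp [bp]; ring
    · simp only [bp, zero_add, pow_one]
      push_cast
      linear_combination (-8 + 8 : ℂ) * I_sq
    · have h1 := ih (k + 1) (by omega)
      have h2 := ih k (by omega)
      simp only [bp]
      push_cast
      have e1 : (28 + 4 * I) ^ (k + 1 + 1) = 56 * (28 + 4 * I) ^ (k + 1)
          - 800 * (28 + 4 * I) ^ k := by
        rw [pow_succ, pow_succ]
        linear_combination (16 * (28 + 4 * I) ^ k) * I_sq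
      have e2 : (28 - 4 * I) ^ (k + 1 + 1) = 56 * (28 - 4 * I) ^ (k + 1)
          - 800 * (28 - 4 * I) ^ k := by
        rw [pow_succ, pow_succ]
        linear_combination (16 * (28 - 4 * I) ^ k) * I_sq
      rw [e1, e2]
      linear_combination 56 * h1 - 800 * h2

theorem ana_bn (k : ℕ) :
    ((-1 + 2 * I) * (28 - 4 * I) ^ k - (-1 - 2 * I) * (28 + 4 * I) ^ k : ℂ) = 4 * I * bn k := by
  induction k using Nat.strong_induction_on with
  | _ k ih =>
    rcases k with _ | _ | k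
    · simp [bn]; ring
    · simp only [bn, zero_add, pow_one]
      push_cast
      linear_combination (0 : ℂ) * I_sq
    · have h1 := ih (k + 1) (by omega)
      have h2 := ih k (by omega)
      simp only [bn]
      push_cast
      have e1 : (28 + 4 * I) ^ (k + 1 + 1) = 56 * (28 + 4 * I) ^ (k + 1)
          - 800 * (28 + 4 * I) ^ k := by
        rw [pow_succ, pow_succ]
        linear_combination (16 * (28 + 4 * I) ^ k) * I_sq
      have e2 : (28 - 4 * I) ^ (k + 1 + 1) = 56 * (28 - 4 * I) ^ (k + 1)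
          - 800 * (28 - 4 * I) ^ k := by
        rw [pow_succ, pow_succ]
        linear_combination (16 * (28 - 4 * I) ^ k) * I_sq
      rw [e1, e2]
      linear_combination 56 * h1 - 800 * h2

theorem ana_v1 : (28 + 4 * I : ℂ) * (28 - 4 * I) = 800 := by
  linear_combination (-16 : ℂ) * I_sq

theorem ana_v1_ne : (28 + 4 * I : ℂ) ≠ 0 := by
  intro h
  have := ana_v1
  rw [h] at this
  norm_num at this

theorem ana_v2_ne : (28 - 4 * I : ℂ) ≠ 0 := by
  intro h
  have := ana_v1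
  rw [h] at this
  norm_num at this

theorem ana_bz (k : ℤ) :
    ((-1 + 2 * I) * (28 + 4 * I) ^ k - (-1 - 2 * I) * (28 - 4 * I) ^ k : ℂ) = 4 * I * (bz k : ℚ) := by
  rcases k with k | j
  · have := ana_bp k
    simp only [bz, Int.ofNat_eq_natCast, zpow_natCast]
    rw [this]
    push_cast
    rfl
  · have h := ana_bn (j + 1)
    have e1 : (28 + 4 * I : ℂ) ^ (Int.negSucc j) = (28 - 4 * I) ^ (j + 1) / 800 ^ (j + 1) := by
      rw [zpow_negSucc, ← ana_v1, mul_pow]
      have := pow_ne_zero (j + 1) ana_v1_ne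
      have := pow_ne_zero (j + 1) ana_v2_ne
      field_simp
    have e2 : (28 - 4 * I : ℂ) ^ (Int.negSucc j) = (28 + 4 * I) ^ (j + 1) / 800 ^ (j + 1) := by
      rw [zpow_negSucc, ← ana_v1, mul_pow]
      have := pow_ne_zero (j + 1) ana_v1_ne
      have := pow_ne_zero (j + 1) ana_v2_ne
      field_simp
    rw [e1, e2]
    simp only [bz]
    push_cast
    rw [mul_div_assoc', mul_div_assoc', ← sub_div, h, mul_div_assoc]

/-! ### Integrals along segments -/

/-- a convex set containing the path, on which `25 - z²` has no zero -/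
def anaS : Set ℂ := {z | -5 < z.re ∧ z.re < 5}

/-- integral along the segment from `a` to `b` -/
def anaSeg (a b : ℂ) (f : ℂ → ℂ) : ℂ := ∫ t in (0:ℝ)..1, f (a + t * (b - a)) * (b - a)

theorem ana_mem {a b : ℂ} (ha : a ∈ anaS) (hb : b ∈ anaS) {t : ℝ} (ht : t ∈ Set.uIcc (0:ℝ) 1) :
    a + t * (b - a) ∈ anaS := by
  rw [Set.uIcc_of_le zero_le_one] at ht
  obtain ⟨h0, h1⟩ := ht
  obtain ⟨a1, a2⟩ := ha
  obtain ⟨b1, b2⟩ := hb
  have e : (a + t * (b - a)).re = a.re + t * (b.re - a.re) := by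
    simp
  rcases eq_or_lt_of_le h0 with h | h
  · subst h
    rw [zero_mul, add_zero] at e
    exact ⟨by rw [e]; exact a1, by rw [e]; exact a2⟩
  · constructor
    · rw [e]
      nlinarith [mul_pos h (show 0 < b.re + 5 by linarith),
        mul_nonneg (show 0 ≤ 1 - t by linarith) (show 0 ≤ a.re + 5 by linarith)]
    · rw [e]
      nlinarith [mul_pos h (show 0 < 5 - b.re by linarith),
        mul_nonneg (show 0 ≤ 1 - t by linarith) (show 0 ≤ 5 - a.re by linarith)]

theorem ana_cont {a b : ℂ} (ha : a ∈ anaS) (hb : b ∈ anaS) {f : ℂ → ℂ}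
    (hf : ContinuousOn f anaS) :
    ContinuousOn (fun t : ℝ => f (a + t * (b - a)) * (b - a)) (Set.uIcc (0:ℝ) 1) := by
  refine ContinuousOn.mul ?_ continuousOn_const
  refine hf.comp (by fun_prop) ?_
  intro t ht
  exact ana_mem ha hb ht

theorem ana_sum {a b : ℂ} (ha : a ∈ anaS) (hb : b ∈ anaS) {κ : Type} (T : Finset κ) (c : κ → ℂ)
    {f : κ → ℂ → ℂ} (hf : ∀ i, ContinuousOn (f i) anaS) :
    anaSeg a b (fun z => ∑ i ∈ T, c i * f i z) = ∑ i ∈ T, c i * anaSeg a b (f i) := by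
  unfold anaSeg
  have h1 : ∀ t : ℝ, (∑ i ∈ T, c i * f i (a + t * (b - a))) * (b - a) =
      ∑ i ∈ T, c i * (f i (a + t * (b - a)) * (b - a)) := by
    intro t
    rw [Finset.sum_mul]
    refine Finset.sum_congr rfl fun i _ => ?_
    ring
  simp only [h1]
  rw [intervalIntegral.integral_finsetSum]
  · refine Finset.sum_congr rfl fun i _ => ?_
    rw [intervalIntegral.integral_const_mul]
  · intro i _
    exact ((ana_cont ha hb (hf i)).intervalIntegrable).const_mul _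

theorem ana_ftc {a b : ℂ} (ha : a ∈ anaS) (hb : b ∈ anaS) {f F : ℂ → ℂ}
    (hf : ContinuousOn f anaS) (hF : ∀ z ∈ anaS, HasDerivAt F (f z) z) :
    anaSeg a b f = F b - F a := by
  unfold anaSeg
  rw [intervalIntegral.integral_eq_sub_of_hasDerivAt (f := fun t : ℝ => F (a + t * (b - a)))]
  · simp
  · intro t ht
    have h1 : HasDerivAt (fun t : ℝ => a + (t : ℂ) * (b - a)) (b - a) t := by
      have := ((Complex.ofRealCLM.hasDerivAt (x := t)).mul_const (b - a)).const_add a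
      simpa using this
    exact (hF _ (ana_mem ha hb ht)).comp t h1
  · exact (ana_cont ha hb hf).intervalIntegrable

theorem ana_norm {a b : ℂ} {f : ℂ → ℂ} {B : ℝ}
    (h : ∀ t : ℝ, 0 ≤ t → t ≤ 1 → ‖f (a + t * (b - a))‖ ≤ B) :
    ‖anaSeg a b f‖ ≤ B * ‖b - a‖ := by
  unfold anaSeg
  have := intervalIntegral.norm_integral_le_of_norm_le_const (a := (0:ℝ)) (b := 1)
    (f := fun t : ℝ => f (a + t * (b - a)) * (b - a)) (C := B * ‖b - a‖) ?_
  · simpa using this
  · intro t ht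
    rw [Set.uIoc_of_le zero_le_one] at ht
    rw [norm_mul]
    exact mul_le_mul_of_nonneg_right (h t ht.1.le ht.2) (norm_nonneg _)

/-- the corner points -/
def anaP0 : ℂ := -1 - 2 * I
def anaP1 : ℂ := -(6 / 5 * I)
def anaP2 : ℂ := 0
def anaP3 : ℂ := 6 / 5 * I
def anaP4 : ℂ := -1 + 2 * I

theorem ana_P0 : anaP0 ∈ anaS := by simp [anaS, anaP0]; norm_num
theorem ana_P1 : anaP1 ∈ anaS := by simp [anaS, anaP1]
theorem ana_P2 : anaP2 ∈ anaS := by simp [anaS, anaP2]
theorem ana_P3 : anaP3 ∈ anaS := by simp [anaS, anaP3]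
theorem ana_P4 : anaP4 ∈ anaS := by simp [anaS, anaP4]; norm_num

/-- the path integral -/
def anaI (f : ℂ → ℂ) : ℂ :=
  anaSeg anaP0 anaP1 f + anaSeg anaP1 anaP2 f + anaSeg anaP2 anaP3 f + anaSeg anaP3 anaP4 f

theorem ana_I_ftc {f F : ℂ → ℂ} (hf : ContinuousOn f anaS)
    (hF : ∀ z ∈ anaS, HasDerivAt F (f z) z) : anaI f = F anaP4 - F anaP0 := by
  unfold anaI
  rw [ana_ftc ana_P0 ana_P1 hf hF, ana_ftc ana_P1 ana_P2 hf hF, ana_ftc ana_P2 ana_P3 hf hF,
    ana_ftc ana_P3 ana_P4 hf hF]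
  ring

theorem ana_I_sum {κ : Type} (T : Finset κ) (c : κ → ℂ)
    {f : κ → ℂ → ℂ} (hf : ∀ i, ContinuousOn (f i) anaS) :
    anaI (fun z => ∑ i ∈ T, c i * f i z) = ∑ i ∈ T, c i * anaI (f i) := by
  unfold anaI
  rw [ana_sum ana_P0 ana_P1 T c hf, ana_sum ana_P1 ana_P2 T c hf, ana_sum ana_P2 ana_P3 T c hf,
    ana_sum ana_P3 ana_P4 T c hf, ← Finset.sum_add_distrib, ← Finset.sum_add_distrib,
    ← Finset.sum_add_distrib]
  refine Finset.sum_congr rfl fun i _ => ?_
  ring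

theorem ana_I_lin {f g : ℂ → ℂ} (c d : ℂ) (hf : ContinuousOn f anaS) (hg : ContinuousOn g anaS) :
    anaI (fun z => c * f z + d * g z) = c * anaI f + d * anaI g := by
  have := ana_I_sum (Finset.univ : Finset (Fin 2)) ![c, d] (f := ![f, g]) (by
    intro i; fin_cases i
    · exact hf
    · exact hg)
  simpa [Fin.sum_univ_two] using this

/-- `v = 25 - z²` -/
def anaV (z : ℂ) : ℂ := 25 - z ^ 2

theorem ana_V_ne {z : ℂ} (h1 : z ≠ 5) (h2 : z ≠ -5) : anaV z ≠ 0 := by
  intro h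
  have : (z - 5) * (z + 5) = 0 := by
    unfold anaV at h
    linear_combination -h
  rcases mul_eq_zero.1 this with h3 | h3
  · exact h1 (sub_eq_zero.1 h3)
  · exact h2 (eq_neg_of_add_eq_zero_left h3)

theorem ana_V_ne_S {z : ℂ} (h : z ∈ anaS) : anaV z ≠ 0 := by
  refine ana_V_ne ?_ ?_
  · rintro rfl
    have := h.2
    norm_num at this
  · rintro rfl
    have := h.1
    norm_num at this

theorem ana_V_cont (k : ℤ) : ContinuousOn (fun z => anaV z ^ k) anaS := by
  refine ContinuousOn.zpow₀ ?_ k ?_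
  · unfold anaV; fun_prop
  · intro z hz; exact Or.inl (ana_V_ne_S hz)

theorem ana_deriv {z : ℂ} (hz : anaV z ≠ 0) (k : ℤ) :
    HasDerivAt (fun z => z * anaV z ^ k)
      ((2 * (k : ℂ) + 1) * anaV z ^ k + (-(50 * (k : ℂ))) * anaV z ^ (k - 1)) z := by
  have h1 : HasDerivAt anaV (-(2 * z)) z := by
    unfold anaV
    have := (hasDerivAt_pow 2 z).const_sub 25
    simpa using this
  have h2 : HasDerivAt (fun z => anaV z ^ k) ((k : ℂ) * anaV z ^ (k - 1) * (-(2 * z))) z :=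
    (hasDerivAt_zpow k (anaV z) (Or.inl hz)).comp z h1
  have h3 := (hasDerivAt_id z).mul h2
  have e : anaV z ^ k = anaV z ^ (k - 1) * anaV z := by
    rw [zpow_sub_one₀ hz]
    field_simp
  have e2 : z ^ 2 = 25 - anaV z := by unfold anaV; ring
  refine h3.congr_deriv ?_
  simp only [id]
  rw [e]
  linear_combination (-(2 * (k : ℂ) * anaV z ^ (k - 1))) * e2

theorem ana_I_rec (k : ℤ) :
    (2 * (k : ℂ) + 1) * anaI (fun z => anaV z ^ k) - 50 * (k : ℂ) * anaI (fun z => anaV z ^ (k - 1))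
      = 4 * I * (bz k : ℚ) := by
  have h1 := ana_I_lin (2 * (k : ℂ) + 1) (-(50 * (k : ℂ))) (ana_V_cont k) (ana_V_cont (k - 1))
  have h2 := ana_I_ftc (f := fun z => (2 * (k : ℂ) + 1) * anaV z ^ k
      + (-(50 * (k : ℂ))) * anaV z ^ (k - 1)) (F := fun z => z * anaV z ^ k)
    ((continuousOn_const.mul (ana_V_cont k)).add (continuousOn_const.mul (ana_V_cont (k - 1))))
    (fun z hz => ana_deriv (ana_V_ne_S hz) k)
  rw [h1] at h2
  have e4 : anaV anaP4 = 28 + 4 * I := by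
    unfold anaV anaP4
    linear_combination (-4 : ℂ) * I_sq
  have e0 : anaV anaP0 = 28 - 4 * I := by
    unfold anaV anaP0
    linear_combination (-4 : ℂ) * I_sq
  have h3 := ana_bz k
  simp only [e4, e0] at h2
  unfold anaP4 anaP0 at h2
  linear_combination h2 + h3

theorem ana_slit {z : ℂ} (hz : z ∈ anaS) : 5 + z ∈ slitPlane ∧ 5 - z ∈ slitPlane := by
  obtain ⟨h1, h2⟩ := hz
  constructor
  · left; simp; linarith
  · left; simp; linarith

theorem ana_arg_small {z : ℂ} (hz : 0 < z.re) : |z.arg| < Real.pi / 2 :=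
  abs_arg_lt_pi_div_two_iff.2 (Or.inl hz)

theorem ana_arg_mul {z w : ℂ} (hz : 0 < z.re) (hw : 0 < w.re) : (z * w).arg = z.arg + w.arg := by
  have hz0 : z ≠ 0 := by rintro rfl; simp at hz
  have hw0 : w ≠ 0 := by rintro rfl; simp at hw
  obtain ⟨a1, a2⟩ := abs_lt.1 (ana_arg_small hz)
  obtain ⟨b1, b2⟩ := abs_lt.1 (ana_arg_small hw)
  exact arg_mul hz0 hw0 ⟨by linarith, by linarith⟩

theorem ana_arg20 : (20 + 20 * I : ℂ).arg = Real.pi / 4 := by
  have h := ana_arg_mul (z := 20 + 20 * I) (w := 20 + 20 * I) (by simp) (by simp)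
  have e : (20 + 20 * I : ℂ) * (20 + 20 * I) = ((800 : ℝ) : ℂ) * I := by
    push_cast
    linear_combination (400 : ℂ) * I_sq
  rw [e, arg_real_mul _ (by norm_num), arg_I] at h
  linarith

theorem ana_log_sub_conj (z : ℂ) :
    Complex.log z - (starRingEnd ℂ) (Complex.log z) = 2 * z.arg * I := by
  apply Complex.ext
  · simp
  · simp [Complex.log_im]; ring

theorem ana_log : Complex.log (5 + anaP4) - Complex.log (5 - anaP4)
    - (Complex.log (5 + anaP0) - Complex.log (5 - anaP0)) = Real.pi / 2 * I := by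
  have c1 : Complex.log (5 + anaP0) = (starRingEnd ℂ) (Complex.log (5 + anaP4)) := by
    rw [← Complex.log_conj]
    · congr 1
      apply Complex.ext <;> simp [anaP0, anaP4]
    · exact (mem_slitPlane_iff_arg.1 (ana_slit ana_P4).1).1
  have c2 : Complex.log (5 - anaP0) = (starRingEnd ℂ) (Complex.log (5 - anaP4)) := by
    rw [← Complex.log_conj]
    · congr 1
      apply Complex.ext <;> simp [anaP0, anaP4]
    · exact (mem_slitPlane_iff_arg.1 (ana_slit ana_P4).2).1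
  have h1 := ana_log_sub_conj (5 + anaP4)
  have h2 := ana_log_sub_conj (5 - anaP4)
  have h3 : (5 - anaP4).arg = -((6 + 2 * I : ℂ).arg) := by
    have e : (5 - anaP4) = (starRingEnd ℂ) (6 + 2 * I) := by
      apply Complex.ext
      · simp [anaP4]; norm_num
      · simp [anaP4]
    rw [e, Complex.arg_conj, if_neg]
    have := ana_arg_small (z := 6 + 2 * I) (by simp)
    intro h
    rw [h, abs_of_pos Real.pi_pos] at this
    linarith [Real.pi_pos]
  have h4 : (5 + anaP4).arg + (6 + 2 * I : ℂ).arg = Real.pi / 4 := by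
    rw [← ana_arg_mul (by norm_num [anaP4]) (by simp), ← ana_arg20]
    congr 1
    unfold anaP4
    linear_combination (4 : ℂ) * I_sq
  have h5 : (((5 + anaP4).arg : ℝ) : ℂ) + (((6 + 2 * I : ℂ).arg : ℝ) : ℂ) = Real.pi / 4 := by
    rw [← Complex.ofReal_add, h4]
    push_cast
    rfl
  rw [c1, c2]
  rw [h3] at h2
  push_cast at h2
  linear_combination h1 - h2 + (2 * I) * h5

theorem ana_I_neg_one : anaI (fun z => anaV z ^ (-1 : ℤ)) = 4 * I * (Real.pi / 80) := by
  have h := ana_I_ftc (f := fun z => anaV z ^ (-1 : ℤ))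
    (F := fun z => (Complex.log (5 + z) - Complex.log (5 - z)) / 10) (ana_V_cont (-1)) ?_
  · rw [h]
    have h2 := ana_log
    linear_combination (1 / 10 : ℂ) * h2
  · intro z hz
    obtain ⟨s1, s2⟩ := ana_slit hz
    have d1 : HasDerivAt (fun z : ℂ => Complex.log (5 + z)) (1 / (5 + z)) z :=
      ((hasDerivAt_id z).const_add 5).clog s1
    have d2 : HasDerivAt (fun z : ℂ => Complex.log (5 - z)) (-1 / (5 - z)) z :=
      ((hasDerivAt_id z).const_sub 5).clog s2
    refine ((d1.sub d2).div_const 10).congr_deriv ?_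
    have n1 : (5 + z) ≠ 0 := slitPlane_ne_zero s1
    have n2 : (5 - z) ≠ 0 := slitPlane_ne_zero s2
    have e : anaV z = (5 + z) * (5 - z) := by unfold anaV; ring
    rw [e, zpow_neg_one]
    field_simp
    ring

theorem ana_I_eq (k : ℤ) :
    anaI (fun z => anaV z ^ k) = 4 * I * ((Lam 1 0 k : ℚ) + Real.pi * (Lam 0 1 k : ℚ)) := by
  refine ana_uniq (X := fun k => anaI (fun z => anaV z ^ k))
    (Y := fun k => 4 * I * ((Lam 1 0 k : ℚ) + Real.pi * (Lam 0 1 k : ℚ))) ?_ ?_ k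
  · intro k
    have h1 := ana_I_rec k
    have h2 : ((2 * (k : ℂ) + 1) * (Lam 1 0 k : ℚ) - 50 * k * (Lam 1 0 (k - 1) : ℚ)) =
        (bz k : ℚ) := by
      have := ana_Lam_rec 1 0 k
      rw [one_mul] at this
      exact_mod_cast congrArg (fun q : ℚ => (q : ℂ)) this
    have h3 : ((2 * (k : ℂ) + 1) * (Lam 0 1 k : ℚ) - 50 * k * (Lam 0 1 (k - 1) : ℚ)) = 0 := by
      have := ana_Lam_rec 0 1 k
      rw [zero_mul] at this
      exact_mod_cast congrArg (fun q : ℚ => (q : ℂ)) this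
    linear_combination h1 - 4 * I * h2 - 4 * I * Real.pi * h3
  · rw [ana_I_neg_one]
    have e1 : Lam 1 0 (-1) = 0 := by
      rw [show (-1 : ℤ) = Int.negSucc 0 from rfl]
      simp [Lam, mN]
    have e2 : Lam 0 1 (-1) = 1 / 80 := by
      rw [show (-1 : ℤ) = Int.negSucc 0 from rfl]
      simp [Lam, mN]
    rw [e1, e2]
    push_cast
    ring

/-! ### The circle -/

theorem ana_circ_ne {z : ℂ} (hz : ‖z - 5‖ = 7 / 2) : anaV z ≠ 0 := by
  refine ana_V_ne ?_ ?_
  · rintro rfl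
    norm_num at hz
  · rintro rfl
    have e : (-5 - 5 : ℂ) = ((-10 : ℝ) : ℂ) := by push_cast; ring
    rw [e, Complex.norm_real] at hz
    norm_num at hz

theorem ana_circ_mem {z : ℂ} (hz : z ∈ Metric.sphere (5 : ℂ) (7 / 2)) : ‖z - 5‖ = 7 / 2 := by
  rwa [mem_sphere_iff_norm] at hz

theorem ana_circ_cont (k : ℤ) :
    ContinuousOn (fun z => anaV z ^ k) (Metric.sphere (5 : ℂ) (7 / 2)) := by
  refine ContinuousOn.zpow₀ ?_ k ?_
  · unfold anaV; fun_prop
  · intro z hz; exact Or.inl (ana_circ_ne (ana_circ_mem hz))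

theorem ana_circ_int (k : ℤ) : CircleIntegrable (fun z => anaV z ^ k) 5 (7 / 2) :=
  (ana_circ_cont k).circleIntegrable (by norm_num)

theorem ana_circ_int' (c : ℂ) (k : ℤ) : CircleIntegrable (fun z => c * anaV z ^ k) 5 (7 / 2) :=
  (continuousOn_const.mul (ana_circ_cont k)).circleIntegrable (by norm_num)

theorem ana_J_rec (k : ℤ) :
    (2 * (k : ℂ) + 1) * (∮ z in C(5, 7 / 2), anaV z ^ k)
      - 50 * (k : ℂ) * (∮ z in C(5, 7 / 2), anaV z ^ (k - 1)) = 0 := by
  have h1 := circleIntegral.integral_eq_zero_of_hasDerivWithinAt (c := (5 : ℂ)) (R := 7 / 2)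
    (f := fun z => z * anaV z ^ k)
    (f' := fun z => (2 * (k : ℂ) + 1) * anaV z ^ k + (-(50 * (k : ℂ))) * anaV z ^ (k - 1))
    (by norm_num) (fun z hz => (ana_deriv (ana_circ_ne (ana_circ_mem hz)) k).hasDerivWithinAt)
  rw [circleIntegral.integral_add (ana_circ_int' _ k) (ana_circ_int' _ (k - 1)),
    circleIntegral.integral_const_mul, circleIntegral.integral_const_mul] at h1
  linear_combination h1

theorem ana_J_neg_one : (∮ z in C(5, 7 / 2), anaV z ^ (-1 : ℤ)) = -(Real.pi * I / 5) := by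
  have h1 : Set.EqOn (fun z => anaV z ^ (-1 : ℤ))
      (fun z => (-1 / 10 : ℂ) * (z - 5)⁻¹ + (1 / 10 : ℂ) * (1 / (5 + z)))
      (Metric.sphere (5 : ℂ) (7 / 2)) := by
    intro z hz
    have hV := ana_circ_ne (ana_circ_mem hz)
    have e : anaV z = (5 + z) * (5 - z) := by unfold anaV; ring
    rw [e] at hV
    obtain ⟨n1, n2⟩ := mul_ne_zero_iff.1 hV
    have n3 : z - 5 ≠ 0 := by
      intro h; apply n2; linear_combination -h
    simp only
    rw [e, zpow_neg_one]
    have e3 : (5 - z) = -(z - 5) := by ring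
    rw [e3]
    field_simp
    ring
  have hre : ∀ z ∈ Metric.sphere (5 : ℂ) (7 / 2), 5 + z ∈ slitPlane := by
    intro z hz
    left
    have h2 := ana_circ_mem hz
    have h3 := (abs_le.1 ((Complex.abs_re_le_norm (z - 5)).trans h2.le)).1
    simp at h3
    simp
    linarith
  have h2 : (∮ z in C(5, 7 / 2), (1 / (5 + z) : ℂ)) = 0 := by
    refine circleIntegral.integral_eq_zero_of_hasDerivWithinAt (f := fun z => Complex.log (5 + z))
      (by norm_num) ?_
    intro z hz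
    exact (((hasDerivAt_id z).const_add 5).clog (hre z hz)).hasDerivWithinAt
  have c1 : ContinuousOn (fun z : ℂ => (z - 5)⁻¹) (Metric.sphere (5 : ℂ) (7 / 2)) := by
    refine ContinuousOn.inv₀ (by fun_prop) ?_
    intro z hz h
    have := ana_circ_mem hz
    rw [h] at this
    norm_num at this
  have c2 : ContinuousOn (fun z : ℂ => (1 / (5 + z) : ℂ)) (Metric.sphere (5 : ℂ) (7 / 2)) := by
    refine ContinuousOn.div continuousOn_const (by fun_prop) ?_
    intro z hz
    exact slitPlane_ne_zero (hre z hz)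
  have i1 : CircleIntegrable (fun z => (-1 / 10 : ℂ) * (z - 5)⁻¹) 5 (7 / 2) :=
    (continuousOn_const.mul c1).circleIntegrable (by norm_num)
  have i2 : CircleIntegrable (fun z => (1 / 10 : ℂ) * (1 / (5 + z))) 5 (7 / 2) :=
    (continuousOn_const.mul c2).circleIntegrable (by norm_num)
  rw [circleIntegral.integral_congr (by norm_num) h1, circleIntegral.integral_add i1 i2,
    circleIntegral.integral_const_mul, circleIntegral.integral_const_mul, h2,
    circleIntegral.integral_sub_center_inv _ (by norm_num)]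
  ring

theorem ana_J_eq (k : ℤ) :
    (∮ z in C(5, 7 / 2), anaV z ^ k) = -(16 * Real.pi * I * (Lam 0 1 k : ℚ)) := by
  refine ana_uniq (X := fun k => ∮ z in C(5, 7 / 2), anaV z ^ k)
    (Y := fun k => -(16 * Real.pi * I * (Lam 0 1 k : ℚ))) ?_ ?_ k
  · intro k
    have h1 := ana_J_rec k
    have h3 : ((2 * (k : ℂ) + 1) * (Lam 0 1 k : ℚ) - 50 * k * (Lam 0 1 (k - 1) : ℚ)) = 0 := by
      have := ana_Lam_rec 0 1 k
      rw [zero_mul] at this
      exact_mod_cast congrArg (fun q : ℚ => (q : ℂ)) this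
    linear_combination h1 + 16 * Real.pi * I * h3
  · rw [ana_J_neg_one]
    have e2 : Lam 0 1 (-1) = 1 / 80 := by
      rw [show (-1 : ℤ) = Int.negSucc 0 from rfl]
      simp [Lam, mN]
    rw [e2]
    push_cast
    ring

/-! ### Assembly -/

/-- the integrand -/
def anaF (s : ℕ) (P : ℚ[X]) (z : ℂ) : ℂ :=
  ∑ i ∈ P.support, ((P.coeff i : ℚ) : ℂ) * anaV z ^ ((i : ℤ) - (s : ℤ))

theorem ana_F_eq (s : ℕ) (P : ℚ[X]) {z : ℂ} (hz : anaV z ≠ 0) :
    anaF s P z = (P.map (algebraMap ℚ ℂ)).eval (25 - z ^ 2) / (25 - z ^ 2) ^ s := by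
  have hz' : (25 - z ^ 2 : ℂ) ≠ 0 := hz
  rw [Polynomial.eval_map, Polynomial.eval₂_eq_sum, Polynomial.sum, Finset.sum_div]
  unfold anaF
  refine Finset.sum_congr rfl fun i _ => ?_
  have e : anaV z = 25 - z ^ 2 := rfl
  rw [e, zpow_sub₀ hz', zpow_natCast, zpow_natCast, eq_ratCast]
  ring

theorem ana_F_norm {s : ℕ} {P : ℚ[X]} {z : ℂ} {B : ℝ} (hz : anaV z ≠ 0)
    (h : ‖(P.map (algebraMap ℚ ℂ)).eval (25 - z ^ 2)‖ ≤ B * ‖25 - z ^ 2‖ ^ s) :
    ‖anaF s P z‖ ≤ B := by
  have hz' : (25 - z ^ 2 : ℂ) ≠ 0 := hz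
  rw [ana_F_eq s P hz, norm_div, norm_pow, div_le_iff₀ (pow_pos (norm_pos_iff.2 hz') s)]
  exact h

theorem ana_V_conj (z : ℂ) : anaV ((starRingEnd ℂ) z) = (starRingEnd ℂ) (anaV z) := by
  unfold anaV
  rw [map_sub, map_pow, map_ofNat]

theorem ana_F_conj (s : ℕ) (P : ℚ[X]) (z : ℂ) :
    anaF s P ((starRingEnd ℂ) z) = (starRingEnd ℂ) (anaF s P z) := by
  unfold anaF
  rw [map_sum]
  refine Finset.sum_congr rfl fun i _ => ?_
  rw [ana_V_conj, map_mul, map_zpow₀]
  congr 1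
  simp

theorem ana_lam (x y : ℚ) (s : ℕ) (P : ℚ[X]) :
    ((lam x y s P : ℚ) : ℂ) = (x / (4 * I)) * anaI (anaF s P)
      - ((y - Real.pi * x) / (16 * Real.pi * I)) * ∮ z in C(5, 7 / 2), anaF s P z := by
  have h1 : anaI (anaF s P) = ∑ i ∈ P.support, ((P.coeff i : ℚ) : ℂ) *
      anaI (fun z => anaV z ^ ((i : ℤ) - (s : ℤ))) :=
    ana_I_sum P.support (fun i => ((P.coeff i : ℚ) : ℂ)) (fun i => ana_V_cont ((i : ℤ) - (s : ℤ)))
  have h2 : (∮ z in C(5, 7 / 2), anaF s P z) = ∑ i ∈ P.support, ((P.coeff i : ℚ) : ℂ) *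
      ∮ z in C(5, 7 / 2), anaV z ^ ((i : ℤ) - (s : ℤ)) := by
    unfold anaF
    rw [circleIntegral.integral_fun_sum (fun i _ => ana_circ_int' _ _)]
    refine Finset.sum_congr rfl fun i _ => ?_
    rw [circleIntegral.integral_const_mul]
  have h3 : lam x y s P = ∑ i ∈ P.support, P.coeff i * Lam x y ((i : ℤ) - (s : ℤ)) := by
    unfold lam
    rw [Polynomial.lsum_apply, Polynomial.sum]
    rfl
  rw [h1, h2, h3, Finset.mul_sum, Finset.mul_sum, ← Finset.sum_sub_distrib]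
  push_cast
  refine Finset.sum_congr rfl fun i _ => ?_
  rw [ana_I_eq, ana_J_eq, ana_Lam_lin x y]
  have hpi : (Real.pi : ℂ) ≠ 0 := by exact_mod_cast Real.pi_ne_zero
  have hI := I_ne_zero
  push_cast
  field_simp
  ring

theorem ana_onPath_S {z : ℂ} (hz : OnPath z) : z ∈ anaS := by
  rcases hz with ⟨u, h0, h1, rfl⟩ | ⟨u, h0, h1, rfl⟩
  · constructor <;> simp
  · constructor
    · simp; linarith
    · simp; linarith

theorem ana_conj_S {z : ℂ} (hz : z ∈ anaS) : (starRingEnd ℂ) z ∈ anaS := by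
  obtain ⟨h1, h2⟩ := hz
  exact ⟨by simpa using h1, by simpa using h2⟩

theorem ana_bound_I (s : ℕ) (P : ℚ[X]) (B : ℝ) (hB : 0 ≤ B)
    (h1 : ∀ z : ℂ, OnPath z →
      ‖(P.map (algebraMap ℚ ℂ)).eval (25 - z ^ 2)‖ ≤ B * ‖25 - z ^ 2‖ ^ s) :
    ‖anaI (anaF s P)‖ ≤ 8 * B := by
  have up : ∀ z, OnPath z → ‖anaF s P z‖ ≤ B := fun z hz =>
    ana_F_norm (ana_V_ne_S (ana_onPath_S hz)) (h1 z hz)
  have dn : ∀ z, OnPath ((starRingEnd ℂ) z) → ‖anaF s P z‖ ≤ B := by
    intro z hz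
    have := up _ hz
    rw [ana_F_conj] at this
    simpa using this
  have n1 : ‖anaSeg anaP0 anaP1 (anaF s P)‖ ≤ B * ‖anaP1 - anaP0‖ := by
    apply ana_norm
    intro t h0 ht
    apply dn
    right
    refine ⟨1 - t, by linarith, by linarith, ?_⟩
    apply Complex.ext
    · rw [Complex.conj_re]; simp [anaP0, anaP1]; ring
    · rw [Complex.conj_im]; simp [anaP0, anaP1]; ring
  have n2 : ‖anaSeg anaP1 anaP2 (anaF s P)‖ ≤ B * ‖anaP2 - anaP1‖ := by
    apply ana_norm
    intro t h0 ht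
    apply dn
    left
    refine ⟨1 - t, by linarith, by linarith, ?_⟩
    apply Complex.ext
    · rw [Complex.conj_re]; simp [anaP1, anaP2]
    · rw [Complex.conj_im]; simp [anaP1, anaP2]; ring
  have n3 : ‖anaSeg anaP2 anaP3 (anaF s P)‖ ≤ B * ‖anaP3 - anaP2‖ := by
    apply ana_norm
    intro t h0 ht
    apply up
    left
    refine ⟨t, h0, ht, ?_⟩
    apply Complex.ext
    · simp [anaP3, anaP2]
    · simp [anaP3, anaP2]; ring
  have n4 : ‖anaSeg anaP3 anaP4 (anaF s P)‖ ≤ B * ‖anaP4 - anaP3‖ := by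
    apply ana_norm
    intro t h0 ht
    apply up
    right
    refine ⟨t, h0, ht, ?_⟩
    apply Complex.ext
    · simp [anaP3, anaP4]
    · simp [anaP3, anaP4]; ring
  have l2 : ‖anaP2 - anaP1‖ = 6 / 5 := by
    have : anaP2 - anaP1 = ((6 / 5 : ℝ) : ℂ) * I := by
      unfold anaP2 anaP1; push_cast; ring
    rw [this, norm_mul, Complex.norm_real, norm_I]
    norm_num
  have l3 : ‖anaP3 - anaP2‖ = 6 / 5 := by
    have : anaP3 - anaP2 = ((6 / 5 : ℝ) : ℂ) * I := by
      unfold anaP2 anaP3; push_cast; ring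
    rw [this, norm_mul, Complex.norm_real, norm_I]
    norm_num
  have l1 : ‖anaP1 - anaP0‖ ≤ 9 / 5 := by
    have : anaP1 - anaP0 = ((1 : ℝ) : ℂ) + ((4 / 5 : ℝ) : ℂ) * I := by
      unfold anaP0 anaP1; push_cast; ring
    rw [this]
    refine (norm_add_le _ _).trans ?_
    rw [norm_mul, Complex.norm_real, Complex.norm_real, norm_I]
    norm_num
  have l4 : ‖anaP4 - anaP3‖ ≤ 9 / 5 := by
    have : anaP4 - anaP3 = ((-1 : ℝ) : ℂ) + ((4 / 5 : ℝ) : ℂ) * I := by
      unfold anaP3 anaP4; push_cast; ring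
    rw [this]
    refine (norm_add_le _ _).trans ?_
    rw [norm_mul, Complex.norm_real, Complex.norm_real, norm_I]
    norm_num
  rw [l2] at n2
  rw [l3] at n3
  have n1' := n1.trans (mul_le_mul_of_nonneg_left l1 hB)
  have n4' := n4.trans (mul_le_mul_of_nonneg_left l4 hB)
  unfold anaI
  refine (norm_add_le _ _).trans ?_
  have := norm_add₃_le (a := anaSeg anaP0 anaP1 (anaF s P)) (b := anaSeg anaP1 anaP2 (anaF s P))
    (c := anaSeg anaP2 anaP3 (anaF s P))
  linarith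

/-- Module F : the analytic upper bound. -/
theorem lam_bound (x y : ℤ) (s : ℕ) (P : ℚ[X]) (B1 B2 : ℝ) (hB1 : 0 ≤ B1) (hB2 : 0 ≤ B2)
    (h1 : ∀ z : ℂ, OnPath z → ‖(P.map (algebraMap ℚ ℂ)).eval (25 - z ^ 2)‖ ≤ B1 * ‖25 - z ^ 2‖ ^ s)
    (h2 : ∀ z : ℂ, ‖z - 5‖ = 7 / 2 →
      ‖(P.map (algebraMap ℚ ℂ)).eval (25 - z ^ 2)‖ ≤ B2 * ‖25 - z ^ 2‖ ^ s) :
    |(lam x y s P : ℝ)| ≤ 2 * |(x : ℝ)| * B1 + |(y : ℝ) - Real.pi * x| * B2 := by
  have e : ((lam x y s P : ℝ) : ℂ) = ((x : ℝ) / (4 * I)) * anaI (anaF s P)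
      - ((((y : ℝ) - Real.pi * x : ℝ) : ℂ) / (16 * Real.pi * I)) *
        ∮ z in C(5, 7 / 2), anaF s P z := by
    have := ana_lam x y s P
    push_cast at this ⊢
    exact this
  have hI := ana_bound_I s P B1 hB1 h1
  have hJ : ‖∮ z in C(5, 7 / 2), anaF s P z‖ ≤ 2 * Real.pi * (7 / 2) * B2 :=
    circleIntegral.norm_integral_le_of_norm_le_const (by norm_num) (fun z hz =>
      ana_F_norm (ana_circ_ne (ana_circ_mem hz)) (h2 z (ana_circ_mem hz)))
  have hpi := Real.pi_pos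
  have n0 : |(lam x y s P : ℝ)| = ‖((lam x y s P : ℝ) : ℂ)‖ := by
    rw [Complex.norm_real, Real.norm_eq_abs]
  rw [n0, e]
  refine (norm_sub_le _ _).trans (add_le_add ?_ ?_)
  · rw [norm_mul, norm_div, norm_mul, norm_I, Complex.norm_real, Real.norm_eq_abs]
    have h4 : ‖(4 : ℂ)‖ = 4 := by norm_num
    rw [h4, mul_one]
    calc |(x : ℝ)| / 4 * ‖anaI (anaF s P)‖ ≤ |(x : ℝ)| / 4 * (8 * B1) :=
          mul_le_mul_of_nonneg_left hI (by positivity)
      _ = 2 * |(x : ℝ)| * B1 := by ring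
  · rw [norm_mul, norm_div, norm_mul, norm_mul, norm_I, Complex.norm_real, Complex.norm_real,
      Real.norm_eq_abs, Real.norm_eq_abs, abs_of_pos hpi]
    have h16 : ‖(16 : ℂ)‖ = 16 := by norm_num
    rw [h16, mul_one]
    calc |(y : ℝ) - Real.pi * x| / (16 * Real.pi) * ‖∮ z in C(5, 7 / 2), anaF s P z‖
        ≤ |(y : ℝ) - Real.pi * x| / (16 * Real.pi) * (2 * Real.pi * (7 / 2) * B2) :=
          mul_le_mul_of_nonneg_left hJ (by positivity)
      _ = |(y : ℝ) - Real.pi * x| * B2 * (7 / 16) := by field_simp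
      _ ≤ |(y : ℝ) - Real.pi * x| * B2 := by
          have : 0 ≤ |(y : ℝ) - Real.pi * x| * B2 := by positivity
          linarith

end

end Pool.Agent.Lib.PiMu
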