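import Pool.Agent.Lib.PiMu.Defs

/-!
# Certificates on the circle `|z - 5| = 7/2` (module G2, helper37)
-/

namespace Pool.Agent.Lib.PiMu

noncomputable section

/-- on the circle: `|z|² = 10 x - 51/4` -/
lemma circ_normSq {z : ℂ} (hz : ‖z - 5‖ = 7 / 2) :
    z.im ^ 2 = 10 * z.re - 51 / 4 - z.re ^ 2 := by
  have h : ‖z - 5‖ ^ 2 = (7 / 2) ^ 2 := by rw [hz]
  rw [Complex.sq_norm, Complex.normSq_apply] at h
  simp only [Complex.sub_re, Complex.sub_im, Complex.re_ofNat, Complex.im_ofNat] at h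
  linarith

lemma circ_re {z : ℂ} (hz : ‖z - 5‖ = 7 / 2) : 3 / 2 ≤ z.re ∧ z.re ≤ 17 / 2 := by
  have h := Complex.abs_re_le_norm (z - 5)
  rw [hz] at h
  simp only [Complex.sub_re, Complex.re_ofNat] at h
  rw [abs_le] at h
  constructor <;> linarith [h.1, h.2]

lemma circ_norm {z : ℂ} (hz : ‖z - 5‖ = 7 / 2) : ‖z‖ ≤ 17 / 2 := by
  have h : ‖z‖ ≤ ‖z - 5‖ + ‖(5 : ℂ)‖ := by
    simpa using norm_add_le (z - 5) 5
  rw [hz] at h
  have h5 : ‖(5 : ℂ)‖ = 5 := by simp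
  rw [h5] at h
  linarith

lemma circ_den {z : ℂ} (hz : ‖z - 5‖ = 7 / 2) :
    ‖25 - z ^ 2‖ ^ 2 = 49 / 4 * (20 * z.re + 49 / 4) := by
  have hn := circ_normSq hz
  rw [Complex.sq_norm, Complex.normSq_apply]
  simp only [pow_two, Complex.sub_re, Complex.sub_im, Complex.re_ofNat, Complex.im_ofNat,
    Complex.mul_re, Complex.mul_im]
  have e : (25 - (z.re * z.re - z.im * z.im)) * (25 - (z.re * z.re - z.im * z.im)) +
      (0 - (z.re * z.im + z.im * z.re)) * (0 - (z.re * z.im + z.im * z.re)) =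
      (25 - z.re ^ 2 + z.im ^ 2) ^ 2 + 4 * z.re ^ 2 * z.im ^ 2 := by ring
  rw [e, hn]
  ring

lemma circ_q {z : ℂ} (hz : ‖z - 5‖ = 7 / 2) :
    ‖(z ^ 2) ^ 2 + 6 * z ^ 2 + 25‖ ^ 2 = 12800 * z.re ^ 4 - 73120 * z.re ^ 3 +
      161639 * z.re ^ 2 - 1330875 / 8 * z.re + 17850625 / 256 := by
  have hn := circ_normSq hz
  rw [Complex.sq_norm, Complex.normSq_apply]
  simp only [pow_two, Complex.add_re, Complex.add_im, Complex.re_ofNat, Complex.im_ofNat,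
    Complex.mul_re, Complex.mul_im]
  have e : ∀ x y : ℝ, ((x * x - y * y) * (x * x - y * y) - (x * y + y * x) * (x * y + y * x) +
        (6 * (x * x - y * y) - 0 * (x * y + y * x)) + 25) *
      ((x * x - y * y) * (x * x - y * y) - (x * y + y * x) * (x * y + y * x) +
        (6 * (x * x - y * y) - 0 * (x * y + y * x)) + 25) +
      ((x * x - y * y) * (x * y + y * x) + (x * y + y * x) * (x * x - y * y) +
        (6 * (x * y + y * x) + 0 * (x * x - y * y)) + 0) *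
      ((x * x - y * y) * (x * y + y * x) + (x * y + y * x) * (x * x - y * y) +
        (6 * (x * y + y * x) + 0 * (x * x - y * y)) + 0) =
      ((x ^ 2 - y ^ 2) ^ 2 - 4 * x ^ 2 * y ^ 2 + 6 * (x ^ 2 - y ^ 2) + 25) ^ 2 +
        16 * x ^ 2 * y ^ 2 * (x ^ 2 - y ^ 2 + 3) ^ 2 := fun x y => by ring
  rw [e, hn]
  ring

/-- the polynomial inequality (Bernstein form on `[3/2, 17/2]`) -/
lemma circ_poly {x : ℝ} (h1 : 3 / 2 ≤ x) (h2 : x ≤ 17 / 2) :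
    (10 * x - 51 / 4) * (12800 * x ^ 4 - 73120 * x ^ 3 + 161639 * x ^ 2 - 1330875 / 8 * x +
      17850625 / 256) ≤ (433 / 20) ^ 2 * (49 / 4 * (20 * x + 49 / 4)) ^ 2 := by
  obtain ⟨t, rfl⟩ : ∃ t, x = 3 / 2 + 7 * t := ⟨(x - 3 / 2) / 7, by ring⟩
  have ht0 : 0 ≤ t := by linarith
  have hs0 : 0 ≤ 1 - t := by linarith
  have key : (433 / 20) ^ 2 * (49 / 4 * (20 * (3 / 2 + 7 * t) + 49 / 4)) ^ 2 -
      (10 * (3 / 2 + 7 * t) - 51 / 4) * (12800 * (3 / 2 + 7 * t) ^ 4 - 73120 * (3 / 2 + 7 * t) ^ 3 +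
        161639 * (3 / 2 + 7 * t) ^ 2 - 1330875 / 8 * (3 / 2 + 7 * t) + 17850625 / 256) =
      12856613634829/102400 * (1 - t) ^ 5 + 29895901687693/20480 * t * (1 - t) ^ 4 +
      61057196873357/10240 * t ^ 2 * (1 - t) ^ 3 + 106121787025421/10240 * t ^ 3 * (1 - t) ^ 2 +
      32329049057897/4096 * t ^ 4 * (1 - t) + 664719723149/102400 * t ^ 5 := by
    ring
  have : 0 ≤ 12856613634829/102400 * (1 - t) ^ 5 + 29895901687693/20480 * t * (1 - t) ^ 4 +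
      61057196873357/10240 * t ^ 2 * (1 - t) ^ 3 + 106121787025421/10240 * t ^ 3 * (1 - t) ^ 2 +
      32329049057897/4096 * t ^ 4 * (1 - t) + 664719723149/102400 * t ^ 5 := by
    positivity
  linarith

lemma circ_Zf {z : ℂ} (hz : ‖z - 5‖ = 7 / 2) : ‖Zf z‖ ≤ 433 / 20 := by
  obtain ⟨h1, h2⟩ := circ_re hz
  have hden := circ_den hz
  have hD : 0 < 49 / 4 * (20 * z.re + 49 / 4) := by linarith
  have hD0 : 0 < ‖25 - z ^ 2‖ ^ 2 := by rw [hden]; exact hD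
  have hz2 : ‖z‖ ^ 2 = 10 * z.re - 51 / 4 := by
    rw [Complex.sq_norm, Complex.normSq_apply]
    linarith [circ_normSq hz]
  have key : ‖Zf z‖ ^ 2 ≤ (433 / 20) ^ 2 := by
    unfold Zf
    rw [norm_div, norm_mul, norm_pow (25 - z ^ 2) 2, div_pow, mul_pow, circ_q hz, hz2, hden,
      div_le_iff₀ (by positivity)]
    exact circ_poly h1 h2
  exact le_of_sq_le_sq key (by norm_num)

theorem circ_cert0 (z : ℂ) (hz : ‖z - 5‖ = 7 / 2) : ‖Zf z‖ ≤ 2187 / 100 :=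
  (circ_Zf hz).trans (by norm_num)

lemma circ_Rf {z : ℂ} (hz : ‖z - 5‖ = 7 / 2) : ‖Rf z‖ ≤ 5515 := by
  have hn := circ_norm hz
  have h0 := norm_nonneg z
  unfold Rf
  calc ‖(z ^ 2) ^ 2 + 4 * z ^ 2 + 11 / 2‖ ≤ ‖(z ^ 2) ^ 2‖ + ‖4 * z ^ 2‖ + ‖(11 / 2 : ℂ)‖ :=
        norm_add₃_le
    _ = (‖z‖ ^ 2) ^ 2 + 4 * ‖z‖ ^ 2 + 11 / 2 := by
        rw [norm_mul, norm_pow, norm_pow, norm_div]
        simp
    _ ≤ ((17 / 2) ^ 2) ^ 2 + 4 * (17 / 2) ^ 2 + 11 / 2 := by gcongr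
    _ ≤ 5515 := by norm_num

theorem circ_cert1 (z : ℂ) (hz : ‖z - 5‖ = 7 / 2) : ‖Zf z‖ ^ 3 * ‖Rf z‖ ≤ 56250000 := by
  calc ‖Zf z‖ ^ 3 * ‖Rf z‖ ≤ (433 / 20) ^ 3 * 5515 := by
        gcongr
        · exact circ_Zf hz
        · exact circ_Rf hz
    _ ≤ 56250000 := by norm_num

end

end Pool.Agent.Lib.PiMu
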