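import Mathlib

/-!
# Irrationality measure of `π` by Hankel determinants: definitions

`Λ[f] = (1/4i) ∫_{ē}^{e} f(s²) ds`, `e = -1 + 2i`, on Laurent polynomials in `v = 25 - s²`
takes the values `Λ[v^k] = a_k + b_k π`. `Lam x y k = x a_k + y b_k`.
-/

namespace Pool.Agent.Lib.PiMu

open Polynomial

noncomputable section

/-- `bp k = Im (e v^k) / 2` with `e = -1 + 2i`, `v = 28 + 4i`. -/
def bp : ℕ → ℤ
  | 0 => 1
  | 1 => 26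
  | (k + 2) => 56 * bp (k + 1) - 800 * bp k

/-- `bn k = Im (e (conj v)^k) / 2`. -/
def bn : ℕ → ℤ
  | 0 => 1
  | 1 => 30
  | (k + 2) => 56 * bn (k + 1) - 800 * bn k

/-- `bz k = Im (e v^k) / 2` for all integers `k`. -/
def bz : ℤ → ℚ
  | Int.ofNat k => bp k
  | Int.negSucc j => bn (j + 1) / 800 ^ (j + 1)

/-- `mA k = Λ[v^k]`, `k ≥ 0`. -/
def mA : ℕ → ℚ
  | 0 => 1
  | (k + 1) => (bp (k + 1) + 50 * (k + 1) * mA k) / (2 * k + 3)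

/-- `mN x y M = x a_{-M-1} + y b_{-M-1}`. -/
def mN (x y : ℚ) : ℕ → ℚ
  | 0 => y / 80
  | (M + 1) => ((2 * M + 1) * mN x y M + x * (bn (M + 1) / 800 ^ (M + 1))) / (50 * (M + 1))

/-- `Lam x y k = x a_k + y b_k`, where `Λ[v^k] = a_k + b_k π`. -/
def Lam (x y : ℚ) : ℤ → ℚ
  | Int.ofNat k => x * mA k
  | Int.negSucc M => mN x y M

/-- `w = 25 - v` -/
def wp : ℚ[X] := C 25 - X

/-- `q = w² + 6 w + 25 = v² - 56 v + 800` -/
def qp : ℚ[X] := X ^ 2 - C 56 * X + C 800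

/-- The functional `P ↦ Λ[P(v) / v^s]`. -/
def lam (x y : ℚ) (s : ℕ) : ℚ[X] →ₗ[ℚ] ℚ :=
  Polynomial.lsum fun i => LinearMap.mulRight ℚ (Lam x y ((i : ℤ) - (s : ℤ)))

/-- The numerator of the weight `(s q / v²)^(90 n)`. -/
def Wp (n : ℕ) : ℚ[X] := wp ^ (45 * n) * qp ^ (90 * n)

/-- The Hankel matrix. -/
def Mat (x y : ℚ) (n K : ℕ) : Matrix (Fin K) (Fin K) ℚ :=
  Matrix.of fun i j => lam x y (180 * n) (Wp n * X ^ ((i : ℕ) + (j : ℕ)))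

/-- polynomials with `p`-integral coefficients -/
def PInt (p : ℕ) (P : ℚ[X]) : Prop := ∀ i, padicNorm p (P.coeff i) ≤ 1

/-- `x⁺` for the ramps -/
def ramp (B p : ℝ) : ℝ := max 0 (B - p)

/-- main part of the exponent of the prime `p` in the denominator of the determinant -/
def tau (n : ℕ) (p : ℝ) : ℝ :=
  1 / 2 * ramp (210 * n) p + ramp (180 * n) p - 3 / 2 * ramp (170 * n) p
    - 5 / 2 * ramp (102 * n) p + 9 / 2 * ramp (90 * n) p - 2 * ramp (75 * n) p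

/-- `Z(z) = z q(z²) / (25 - z²)²` -/
def Zf (z : ℂ) : ℂ := z * ((z ^ 2) ^ 2 + 6 * z ^ 2 + 25) / (25 - z ^ 2) ^ 2

/-- `R(z²) = z⁴ + 4 z² + 11/2` -/
def Rf (z : ℂ) : ℂ := (z ^ 2) ^ 2 + 4 * z ^ 2 + 11 / 2

/-- the upper half of the path: `[0, 6i/5] ∪ [6i/5, -1 + 2i]` -/
def OnPath (z : ℂ) : Prop :=
  (∃ u : ℝ, 0 ≤ u ∧ u ≤ 1 ∧ z = (6 / 5 * u) * Complex.I) ∨
  (∃ u : ℝ, 0 ≤ u ∧ u ≤ 1 ∧ z = -u + (6 / 5 + 4 / 5 * u) * Complex.I)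

end

end Pool.Agent.Lib.PiMu
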