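import Pool.Agent.Lib.PiMu.Resonance

namespace Pool.Agent.Lib.PiMu
open Polynomial

set_option linter.unusedSectionVars false

section general
variable {p : ℕ} [hp : Fact p.Prime]

lemma padicNorm_real_sum_le {ι : Type*} {s : Finset ι} {f : ι → ℚ} {B : ℝ} (hB : 0 ≤ B)
    (h : ∀ i ∈ s, (padicNorm p (f i) : ℝ) ≤ B) : (padicNorm p (∑ i ∈ s, f i) : ℝ) ≤ B := by
  classical
  induction s using Finset.induction_on with
  | empty => simpa using hB
  | insert a s ha ih =>
    rw [Finset.sum_insert ha]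
    have h1 : padicNorm p (f a + ∑ i ∈ s, f i) ≤ max (padicNorm p (f a)) (padicNorm p (∑ i ∈ s, f i)) :=
      padicNorm.nonarchimedean
    have h2 : (padicNorm p (f a + ∑ i ∈ s, f i) : ℝ) ≤
        max (padicNorm p (f a) : ℝ) (padicNorm p (∑ i ∈ s, f i) : ℝ) := by
      exact_mod_cast h1
    exact h2.trans (max_le (h a (Finset.mem_insert_self _ _))
      (ih fun i hi => h i (Finset.mem_insert_of_mem hi)))

lemma padicNorm_real_nonneg (r : ℚ) : (0 : ℝ) ≤ (padicNorm p r : ℝ) := by
  exact_mod_cast padicNorm.nonneg r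

lemma padicNorm_real_mul (r t : ℚ) :
    (padicNorm p (r * t) : ℝ) = (padicNorm p r : ℝ) * (padicNorm p t : ℝ) := by
  rw [padicNorm.mul]; push_cast; ring

lemma padicNorm_prod {ι : Type*} (s : Finset ι) (f : ι → ℚ) :
    (padicNorm p (∏ i ∈ s, f i) : ℝ) = ∏ i ∈ s, (padicNorm p (f i) : ℝ) := by
  classical
  induction s using Finset.induction_on with
  | empty => simp
  | insert a s ha ih => rw [Finset.prod_insert ha, Finset.prod_insert ha, padicNorm_real_mul, ih]

/-- ultrametric Leibniz bound -/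
lemma det_norm_le {K : ℕ} (M : Matrix (Fin K) (Fin K) ℚ) (a b : Fin K → ℝ) (ha : ∀ i, 0 ≤ a i)
    (hb : ∀ i, 0 ≤ b i) (h : ∀ i j, (padicNorm p (M i j) : ℝ) ≤ a i * b j) :
    (padicNorm p M.det : ℝ) ≤ (∏ i, a i) * ∏ j, b j := by
  rw [Matrix.det_apply]
  refine padicNorm_real_sum_le (mul_nonneg (Finset.prod_nonneg fun i _ => ha i)
    (Finset.prod_nonneg fun i _ => hb i)) fun σ _ => ?_
  have h1 : (padicNorm p (Equiv.Perm.sign σ • ∏ i, M (σ i) i) : ℝ) =
      ∏ i, (padicNorm p (M (σ i) i) : ℝ) := by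
    rw [← padicNorm_prod]
    rcases Int.units_eq_one_or (Equiv.Perm.sign σ) with h | h
    · rw [h, one_smul]
    · rw [h, Units.smul_def, Units.val_neg, Units.val_one, neg_smul, one_smul, padicNorm.neg]
  rw [h1, ← Equiv.prod_comp σ a, ← Finset.prod_mul_distrib]
  exact Finset.prod_le_prod (fun i _ => padicNorm_real_nonneg _) fun i _ => h _ _

/-- all entries of norm at most `p`, entries in the good rows of norm at most one -/
lemma det_norm_rows {K : ℕ} (M : Matrix (Fin K) (Fin K) ℚ) (bad : Finset (Fin K))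
    (h : ∀ i j, (padicNorm p (M i j) : ℝ) ≤ p)
    (hg : ∀ i, i ∉ bad → ∀ j, (padicNorm p (M i j) : ℝ) ≤ 1) :
    (padicNorm p M.det : ℝ) ≤ (p : ℝ) ^ bad.card := by
  classical
  have h1 := det_norm_le M (fun i => if i ∈ bad then (p : ℝ) else 1) (fun _ => 1)
    (fun i => by split_ifs <;> positivity) (fun _ => zero_le_one) (fun i j => by
      split_ifs with hi
      · rw [mul_one]; exact h i j
      · rw [mul_one]; exact hg i hi j)
  refine h1.trans (le_of_eq ?_)
  rw [Finset.prod_const_one, mul_one, Finset.prod_ite, Finset.prod_const, Finset.prod_const_one,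
    mul_one]
  congr 2
  ext i
  simp

end general

/-! ### change of basis -/

lemma det_basis {K : ℕ} (ℓ : ℚ[X] →ₗ[ℚ] ℚ) (g : ℕ → ℚ[X]) (hm : ∀ i, (g i).Monic)
    (hd : ∀ i, (g i).natDegree = i) :
    (Matrix.of fun i j : Fin K => ℓ (g i * X ^ (j : ℕ))).det =
      (Matrix.of fun i j : Fin K => ℓ (X ^ (i : ℕ) * X ^ (j : ℕ))).det := by
  have h : (Matrix.of fun i j : Fin K => ℓ (g i * X ^ (j : ℕ))) =
      (Matrix.of fun i k : Fin K => (g i).coeff k) *
        (Matrix.of fun i j : Fin K => ℓ (X ^ (i : ℕ) * X ^ (j : ℕ))) := by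
    ext i j
    rw [Matrix.mul_apply]
    simp only [Matrix.of_apply]
    have h1 : g i = ∑ k : Fin K, C ((g i).coeff k) * X ^ (k : ℕ) := by
      conv_lhs => rw [(g i).as_sum_range' K (by rw [hd]; exact i.2)]
      rw [Finset.sum_range]
      refine Finset.sum_congr rfl fun k _ => ?_
      rw [C_mul_X_pow_eq_monomial]
    conv_lhs => rw [h1, Finset.sum_mul, map_sum]
    refine Finset.sum_congr rfl fun k _ => ?_
    rw [mul_assoc, ← smul_eq_C_mul, map_smul, smul_eq_mul]
  rw [h, Matrix.det_mul]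
  have h2 : (Matrix.of fun i k : Fin K => (g i).coeff k).det = 1 := by
    rw [Matrix.det_of_lowerTriangular]
    · refine Finset.prod_eq_one fun i _ => ?_
      rw [Matrix.of_apply]
      have := hm i
      rw [Monic, leadingCoeff, hd] at this
      exact this
    · intro i j hij
      rw [Matrix.of_apply]
      refine coeff_eq_zero_of_natDegree_lt ?_
      rw [hd]
      exact hij
  rw [h2, one_mul]

/-! ### the entries -/

lemma lam_W_X_pow (x y : ℚ) (n k : ℕ) (hk : k ≤ 180 * n) :
    lam x y (180 * n) (Wp n * X ^ k) = lam x y (180 * n - k) (Wp n) := by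
  have h := lam_X_pow_mul x y (180 * n - k) k (Wp n)
  rw [Nat.sub_add_cancel hk] at h
  rw [mul_comm (Wp n) (X ^ k), h]

lemma natDegree_wp : wp.natDegree = 1 := by
  unfold wp
  compute_degree!

lemma natDegree_qp : qp.natDegree = 2 := by
  unfold qp
  compute_degree!

lemma natDegree_Wp_le (n : ℕ) : (Wp n).natDegree ≤ 225 * n := by
  unfold Wp
  refine natDegree_mul_le.trans ?_
  have h1 : (wp ^ (45 * n)).natDegree ≤ 45 * n * 1 :=
    natDegree_pow_le.trans (Nat.mul_le_mul_left _ natDegree_wp.le)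
  have h2 : (qp ^ (90 * n)).natDegree ≤ 90 * n * 2 :=
    natDegree_pow_le.trans (Nat.mul_le_mul_left _ natDegree_qp.le)
  omega

section
variable {p : ℕ} [hp : Fact p.Prime]

lemma PInt.Wp (n : ℕ) : PInt p (Wp n) := (PInt.wp.pow _).mul (PInt.qp.pow _)

/-- entries are integral when `180 n - k ≤ p` and `2 (45 n + k) + 1 < p` -/
lemma entry_int (h2 : p ≠ 2) (h5 : p ≠ 5) (x y : ℤ) (n k : ℕ) (hk : k ≤ 180 * n)
    (h : 180 * n - k ≤ p) (h' : 2 * (45 * n + k) + 1 < p) :
    padicNorm p (lam x y (180 * n) (Wp n * X ^ k)) ≤ 1 := by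
  rw [lam_W_X_pow x y n k hk]
  refine lam_norm_le (PInt.Wp n) x y _ (225 * n) 1 zero_le_one (natDegree_Wp_le n) fun i hi => ?_
  refine Lam_norm_int h2 h5 x y _ ?_ ?_
  · have : (2 * (45 * (n : ℤ) + k) + 1) < p := by exact_mod_cast h'
    have h3 : (i : ℤ) ≤ 225 * n := by exact_mod_cast hi
    push_cast [Nat.cast_sub hk]
    linarith
  · have h4 : ((180 * n - k : ℕ) : ℤ) ≤ p := by exact_mod_cast h
    have h3 : (0 : ℤ) ≤ i := by positivity
    linarith

/-- all entries have norm at most `p` -/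
lemma entry_p (h2 : p ≠ 2) (h5 : p ≠ 5) (x y : ℤ) (n k : ℕ) (hk : k ≤ 60 * n + 2) (hn : 1 ≤ n)
    (h : 420 * n + 100 < p ^ 2) :
    padicNorm p (lam x y (180 * n) (Wp n * X ^ k)) ≤ p := by
  have hk' : k ≤ 180 * n := by omega
  rw [lam_W_X_pow x y n k hk']
  refine lam_norm_le (PInt.Wp n) x y _ (225 * n) p (by positivity) (natDegree_Wp_le n) fun i hi => ?_
  have h' : (420 * (n : ℤ) + 100) < (p : ℤ) ^ 2 := by exact_mod_cast h
  refine Lam_norm_p h2 h5 x y _ ?_ ?_
  · have h3 : (i : ℤ) ≤ 225 * n := by exact_mod_cast hi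
    have h4 : (k : ℤ) ≤ 60 * n + 2 := by exact_mod_cast hk
    push_cast [Nat.cast_sub hk']
    linarith
  · have h3 : (0 : ℤ) ≤ i := by positivity
    push_cast [Nat.cast_sub hk']
    have h4 : (0 : ℤ) ≤ k := by positivity
    linarith

end

/-- casting helper -/
lemma real_le_of_rat {p : ℕ} {r : ℚ} {B : ℚ} (h : padicNorm p r ≤ B) : (padicNorm p r : ℝ) ≤ (B : ℝ) := by
  exact_mod_cast h

lemma card_filter_lt {K a : ℕ} : (Finset.univ.filter fun i : Fin K => (i : ℕ) < a).card ≤ a := by
  calc (Finset.univ.filter fun i : Fin K => (i : ℕ) < a).card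
      ≤ (Finset.range a).card := by
        refine Finset.card_le_card_of_injOn (fun i => (i : ℕ)) ?_ ?_
        · intro i hi
          simp only [Finset.coe_filter, Finset.mem_univ, true_and, Set.mem_setOf_eq] at hi
          simpa using hi
        · intro i _ j _ hij
          exact Fin.ext hij
    _ = a := Finset.card_range a

lemma card_filter_ge {K b : ℕ} : (Finset.univ.filter fun i : Fin K => b ≤ (i : ℕ)).card ≤ K - b := by
  calc (Finset.univ.filter fun i : Fin K => b ≤ (i : ℕ)).card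
      ≤ (Finset.Ico b K).card := by
        refine Finset.card_le_card_of_injOn (fun i => (i : ℕ)) ?_ ?_
        · intro i hi
          simp only [Finset.coe_filter, Finset.mem_univ, true_and, Set.mem_setOf_eq] at hi
          simp only [Finset.coe_Ico, Set.mem_Ico]
          exact ⟨hi, i.2⟩
        · intro i _ j _ hij
          exact Fin.ext hij
    _ = K - b := Nat.card_Ico b K

theorem det_norm_large {p : ℕ} [hp : Fact p.Prime] (x y : ℤ) (n κ : ℕ) (hn : 100 ≤ n) (hκ : κ ≤ 2)
    (h : 210 * n + 10 < p) : padicNorm p (Mat x y n (30 * n + κ)).det ≤ 1 := by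
  have h2 : p ≠ 2 := by omega
  have h5 : p ≠ 5 := by omega
  have h1 := det_norm_rows (p := p) (Mat x y n (30 * n + κ)) ∅ (fun i j => ?_) (fun i _ j => ?_)
  · rw [Finset.card_empty, pow_zero] at h1
    exact_mod_cast h1
  · have := entry_int (p := p) h2 h5 x y n (i + j) (by omega) (by omega) (by omega)
    have h3 : (padicNorm p (Mat x y n (30 * n + κ) i j) : ℝ) ≤ 1 := by
      have := real_le_of_rat this
      simpa [Mat] using this
    refine h3.trans ?_
    exact_mod_cast hp.out.one_le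
  · have := entry_int (p := p) h2 h5 x y n (i + j) (by omega) (by omega) (by omega)
    have := real_le_of_rat this
    simpa [Mat] using this

/-- the resonance below `90 n` -/
lemma entry_resA {p : ℕ} [hp : Fact p.Prime] (h2 : p ≠ 2) (h5 : p ≠ 5) (x y : ℤ) (n k r : ℕ)
    (hr : p + r = 90 * n) (hr1 : r ≤ 15 * n) (hk : k ≤ 60 * n + 2) (hk' : 2 * r ≤ k) (hn : 1 ≤ n) :
    padicNorm p (lam x y (180 * n) (Wp n * X ^ k)) ≤ 1 := by
  have hodd : p % 2 = 1 := by
    rcases hp.out.eq_two_or_odd with h | h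
    · exact absurd h h2
    · exact h
  obtain ⟨J, rfl⟩ : ∃ J, k = 2 * r + J := ⟨k - 2 * r, by omega⟩
  have h1 : lam x y (180 * n) (Wp n * X ^ (2 * r + J)) = lam x y (2 * p) (Wp n * X ^ J) := by
    have h3 := lam_X_pow_mul x y (2 * p) (2 * r) (Wp n * X ^ J)
    have h4 : 2 * p + 2 * r = 180 * n := by omega
    rw [h4] at h3
    rw [← h3]
    congr 1
    ring
  have h3 : Wp n * X ^ J = wp ^ ((p - 1) / 2) * qp ^ p * (wp ^ ((r + 1) / 2) * qp ^ r * X ^ J) := by
    unfold Wp
    have e1 : 45 * n = (p - 1) / 2 + (r + 1) / 2 := by omega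
    have e2 : 90 * n = p + r := by omega
    rw [e1, e2, pow_add, pow_add]
    ring
  rw [h1, h3]
  refine resonance h2 h5 x y _ (((PInt.wp.pow _).mul (PInt.qp.pow _)).mul (PInt.X.pow _)) ?_ ?_
  · rw [eval_mul, eval_mul, eval_pow]
    have : eval 25 wp = 0 := by simp [wp]
    rw [this, zero_pow (by omega)]
    ring
  · have e1 : (wp ^ ((r + 1) / 2)).natDegree ≤ (r + 1) / 2 * 1 :=
      natDegree_pow_le.trans (Nat.mul_le_mul_left _ natDegree_wp.le)
    have e2 : (qp ^ r).natDegree ≤ r * 2 :=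
      natDegree_pow_le.trans (Nat.mul_le_mul_left _ natDegree_qp.le)
    have e3 : ((X : ℚ[X]) ^ J).natDegree ≤ J := natDegree_X_pow_le J
    refine (natDegree_mul_le_of_le (natDegree_mul_le_of_le e1 e2) e3).trans ?_
    omega

/-- the monic version of `w` -/
noncomputable def wm : ℚ[X] := X - C 25

lemma wm_monic : wm.Monic := monic_X_sub_C 25

lemma natDegree_wm : wm.natDegree = 1 := natDegree_X_sub_C 25

lemma qp_monic : qp.Monic := by
  unfold qp
  monicity!

/-- the divisor polynomial -/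
noncomputable def Dp (r : ℕ) : ℚ[X] := wm ^ ((r + 1) / 2) * qp ^ r

lemma Dp_monic (r : ℕ) : (Dp r).Monic := (wm_monic.pow _).mul (qp_monic.pow _)

lemma natDegree_Dp (r : ℕ) : (Dp r).natDegree = (r + 1) / 2 + 2 * r := by
  unfold Dp
  rw [(wm_monic.pow _).natDegree_mul (qp_monic.pow _), wm_monic.natDegree_pow,
    qp_monic.natDegree_pow, natDegree_wm, natDegree_qp]
  ring

/-- the resonance above `90 n` -/
lemma entry_resB {p : ℕ} [hp : Fact p.Prime] (h2 : p ≠ 2) (h5 : p ≠ 5) (x y : ℤ) (n J r : ℕ)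
    (hr : p = 90 * n + r) (hJ : J + ((r + 1) / 2 + 2 * r) ≤ 60 * n + 2) (hn : 1 ≤ n) :
    padicNorm p (lam x y (180 * n) (Wp n * (Dp r * X ^ J))) ≤ 1 := by
  have hodd : p % 2 = 1 := by
    rcases hp.out.eq_two_or_odd with h | h
    · exact absurd h h2
    · exact h
  have h1 : lam x y (180 * n) (Wp n * (Dp r * X ^ J)) =
      lam x y (2 * p) (X ^ (2 * r) * (Wp n * (Dp r * X ^ J))) := by
    have h3 := lam_X_pow_mul x y (180 * n) (2 * r) (Wp n * (Dp r * X ^ J))
    have h4 : 180 * n + 2 * r = 2 * p := by omega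
    rw [h4] at h3
    exact h3.symm
  have hwm : wm = -wp := by unfold wm wp; ring
  have h3 : X ^ (2 * r) * (Wp n * (Dp r * X ^ J)) =
      wp ^ ((p - 1) / 2) * qp ^ p * ((-1) ^ ((r + 1) / 2) * wp * X ^ (J + 2 * r)) := by
    unfold Wp Dp
    have e1 : 45 * n + (r + 1) / 2 = (p - 1) / 2 + 1 := by omega
    have e2 : 90 * n + r = p := by omega
    rw [hwm, neg_pow wp]
    calc X ^ (2 * r) * (wp ^ (45 * n) * qp ^ (90 * n) *
          ((-1) ^ ((r + 1) / 2) * wp ^ ((r + 1) / 2) * qp ^ r * X ^ J))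
        = wp ^ (45 * n + (r + 1) / 2) * qp ^ (90 * n + r) *
            ((-1) ^ ((r + 1) / 2) * X ^ (J + 2 * r)) := by ring
      _ = _ := by rw [e1, e2]; ring
  rw [h1, h3]
  have hsign : PInt p ((-1 : ℚ[X]) ^ ((r + 1) / 2)) := by
    refine PInt.pow ?_ _
    simpa using (PInt.one (p := p)).neg
  refine resonance h2 h5 x y _ ((hsign.mul PInt.wp).mul (PInt.X.pow _)) ?_ ?_
  · rw [eval_mul, eval_mul]
    have : eval 25 wp = 0 := by simp [wp]
    rw [this]
    ring
  · have e0 : ((-1 : ℚ[X]) ^ ((r + 1) / 2)).natDegree ≤ 0 := by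
      refine natDegree_pow_le.trans ?_
      simp
    have e1 : wp.natDegree ≤ 1 := natDegree_wp.le
    have e3 : ((X : ℚ[X]) ^ (J + 2 * r)).natDegree ≤ J + 2 * r := natDegree_X_pow_le _
    refine (natDegree_mul_le_of_le (natDegree_mul_le_of_le e0 e1) e3).trans ?_
    omega

lemma ramp_of_le {B p : ℝ} (h : p ≤ B) : ramp B p = B - p := by
  unfold ramp; rw [max_eq_right]; linarith

lemma ramp_of_ge {B p : ℝ} (h : B ≤ p) : ramp B p = 0 := by
  unfold ramp; rw [max_eq_left]; linarith

lemma Mat_norm_le_p {p : ℕ} [hp : Fact p.Prime] (h2 : p ≠ 2) (h5 : p ≠ 5) (x y : ℤ) (n κ : ℕ)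
    (hn : 100 ≤ n) (hκ : κ ≤ 2) (h : 420 * n + 100 < p ^ 2) (i j : Fin (30 * n + κ)) :
    (padicNorm p (Mat x y n (30 * n + κ) i j) : ℝ) ≤ p := by
  have := entry_p (p := p) h2 h5 x y n (i + j) (by omega) (by omega) h
  have h3 := real_le_of_rat this
  simpa [Mat] using h3

lemma rpow_card_le {p c : ℕ} {T : ℝ} (hp : 1 ≤ p) (h : (c : ℝ) ≤ T) :
    (p : ℝ) ^ c ≤ (p : ℝ) ^ T := by
  rw [← Real.rpow_natCast]
  exact Real.rpow_le_rpow_of_exponent_le (by exact_mod_cast hp) h

theorem det_norm_mid {p : ℕ} [hp : Fact p.Prime] (x y : ℤ) (n κ : ℕ) (hn : 100 ≤ n) (hκ : κ ≤ 2)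
    (h : 420 * n + 100 < p ^ 2) (h' : p ≤ 210 * n + 10) :
    (padicNorm p (Mat x y n (30 * n + κ)).det : ℝ) ≤ (p : ℝ) ^ (tau n p + 10) := by
  have h2 : p ≠ 2 := by rintro rfl; omega
  have h5 : p ≠ 5 := by rintro rfl; omega
  have hp1 : 1 ≤ p := hp.out.one_le
  have hodd : p % 2 = 1 := by
    rcases hp.out.eq_two_or_odd with h | h
    · exact absurd h h2
    · exact h
  have hnR : (100 : ℝ) ≤ n := by exact_mod_cast hn
  have hκR : (κ : ℝ) ≤ 2 := by exact_mod_cast hκ
  have hall := Mat_norm_le_p (p := p) h2 h5 x y n κ hn hκ h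
  -- trivial bound
  have htriv : (padicNorm p (Mat x y n (30 * n + κ)).det : ℝ) ≤ (p : ℝ) ^ (30 * n + κ) := by
    have := det_norm_rows (p := p) (Mat x y n (30 * n + κ)) Finset.univ hall
      (fun i hi => absurd (Finset.mem_univ i) hi)
    rwa [Finset.card_univ, Fintype.card_fin] at this
  rcases le_or_gt p (75 * n) with c1 | c1
  · -- p ≤ 75 n
    refine htriv.trans (rpow_card_le hp1 ?_)
    have hpR : (p : ℝ) ≤ 75 * n := by exact_mod_cast c1
    rw [tau, ramp_of_le (by linarith), ramp_of_le (by linarith), ramp_of_le (by linarith),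
      ramp_of_le (by linarith), ramp_of_le (by linarith), ramp_of_le (by linarith)]
    push_cast
    linarith
  rcases le_or_gt p (90 * n) with c2 | c2
  · -- 75 n < p ≤ 90 n
    obtain ⟨r, hr⟩ : ∃ r, p + r = 90 * n := ⟨90 * n - p, by omega⟩
    have h3 := det_norm_rows (p := p) (Mat x y n (30 * n + κ))
      (Finset.univ.filter fun i => (i : ℕ) < 2 * r) hall (fun i hi j => by
        simp only [Finset.mem_filter, Finset.mem_univ, true_and, not_lt] at hi
        have := entry_resA (p := p) h2 h5 x y n (i + j) r hr (by omega) (by omega) (by omega)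
          (by omega)
        have h3 := real_le_of_rat this
        simpa [Mat] using h3)
    refine h3.trans (rpow_card_le hp1 ?_)
    have hc : (Finset.univ.filter fun i : Fin (30 * n + κ) => (i : ℕ) < 2 * r).card ≤ 2 * r :=
      card_filter_lt
    have hcR : ((Finset.univ.filter fun i : Fin (30 * n + κ) => (i : ℕ) < 2 * r).card : ℝ) ≤ 2 * r := by
      exact_mod_cast hc
    have hpR : (75 * n : ℝ) ≤ p := by exact_mod_cast c1.le
    have hpR' : (p : ℝ) ≤ 90 * n := by exact_mod_cast c2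
    have hrR : (p : ℝ) + r = 90 * n := by exact_mod_cast hr
    rw [tau, ramp_of_le (by linarith), ramp_of_le (by linarith), ramp_of_le (by linarith),
      ramp_of_le (by linarith), ramp_of_le (by linarith), ramp_of_ge (by linarith)]
    linarith
  rcases le_or_gt p (102 * n) with c3 | c3
  · -- 90 n < p ≤ 102 n
    obtain ⟨r, hr⟩ : ∃ r, p = 90 * n + r := ⟨p - 90 * n, by omega⟩
    set d := (r + 1) / 2 + 2 * r with hd
    have hdK : d ≤ 30 * n := by omega
    set g : ℕ → ℚ[X] := fun i => if i < d then X ^ i else Dp r * X ^ (i - d) with hg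
    have hgm : ∀ i, (g i).Monic := by
      intro i
      simp only [hg]
      split_ifs
      · exact monic_X_pow i
      · exact (Dp_monic r).mul (monic_X_pow _)
    have hgd : ∀ i, (g i).natDegree = i := by
      intro i
      simp only [hg]
      split_ifs with hi
      · exact natDegree_X_pow i
      · rw [(Dp_monic r).natDegree_mul (monic_X_pow _), natDegree_X_pow, natDegree_Dp]
        omega
    have hbasis := det_basis (K := 30 * n + κ)
      ((lam x y (180 * n)).comp (LinearMap.mulLeft ℚ (Wp n))) g hgm hgd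
    have hM : Mat x y n (30 * n + κ) = Matrix.of fun i j : Fin (30 * n + κ) =>
        ((lam x y (180 * n)).comp (LinearMap.mulLeft ℚ (Wp n))) (X ^ (i : ℕ) * X ^ (j : ℕ)) := by
      ext i j
      simp [Mat, pow_add]
    rw [hM, ← hbasis]
    have h3 := det_norm_rows (p := p) (Matrix.of fun i j : Fin (30 * n + κ) =>
        ((lam x y (180 * n)).comp (LinearMap.mulLeft ℚ (Wp n))) (g i * X ^ (j : ℕ)))
      (Finset.univ.filter fun i => (i : ℕ) < d) (fun i j => ?_) (fun i hi j => ?_)
    · refine h3.trans (rpow_card_le hp1 ?_)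
      have hc : (Finset.univ.filter fun i : Fin (30 * n + κ) => (i : ℕ) < d).card ≤ d :=
        card_filter_lt
      have hcR : ((Finset.univ.filter fun i : Fin (30 * n + κ) => (i : ℕ) < d).card : ℝ) ≤ d := by
        exact_mod_cast hc
      have hdR : 2 * (d : ℝ) ≤ 5 * r + 1 := by
        have : 2 * d ≤ 5 * r + 1 := by omega
        exact_mod_cast this
      have hpR : (90 * n : ℝ) ≤ p := by exact_mod_cast c2.le
      have hpR' : (p : ℝ) ≤ 102 * n := by exact_mod_cast c3
      have hrR : (p : ℝ) = 90 * n + r := by exact_mod_cast hr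
      rw [tau, ramp_of_le (by linarith), ramp_of_le (by linarith), ramp_of_le (by linarith),
        ramp_of_le (by linarith), ramp_of_ge (by linarith), ramp_of_ge (by linarith)]
      linarith
    · rw [Matrix.of_apply, LinearMap.comp_apply, LinearMap.mulLeft_apply]
      by_cases hi : (i : ℕ) < d
      · have : g i = X ^ (i : ℕ) := by simp [hg, hi]
        rw [this, ← pow_add]
        have := entry_p (p := p) h2 h5 x y n (i + j) (by omega) (by omega) h
        exact real_le_of_rat this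
      · have : g i = Dp r * X ^ ((i : ℕ) - d) := by simp [hg, hi]
        rw [this, mul_assoc, ← pow_add]
        have h4 := entry_resB (p := p) h2 h5 x y n ((i : ℕ) - d + j) r hr (by omega) (by omega)
        have h6 := real_le_of_rat h4
        refine h6.trans ?_
        push_cast
        exact_mod_cast hp1
    · rw [Matrix.of_apply, LinearMap.comp_apply, LinearMap.mulLeft_apply]
      simp only [Finset.mem_filter, Finset.mem_univ, true_and] at hi
      have : g i = Dp r * X ^ ((i : ℕ) - d) := by simp [hg, hi]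
      rw [this, mul_assoc, ← pow_add]
      have h4 := entry_resB (p := p) h2 h5 x y n ((i : ℕ) - d + j) r hr (by omega) (by omega)
      have h6 := real_le_of_rat h4
      simpa using h6
  rcases le_or_gt p (170 * n) with c4 | c4
  · -- 102 n < p ≤ 170 n
    refine htriv.trans (rpow_card_le hp1 ?_)
    have hpR : (p : ℝ) ≤ 170 * n := by exact_mod_cast c4
    have hpR' : (102 * n : ℝ) ≤ p := by exact_mod_cast c3.le
    rw [tau, ramp_of_le (by linarith), ramp_of_le (by linarith), ramp_of_le (by linarith),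
      ramp_of_ge (by linarith), ramp_of_ge (by linarith), ramp_of_ge (by linarith)]
    push_cast
    linarith
  -- p > 170 n
  have h3 := det_norm_rows (p := p) (Mat x y n (30 * n + κ))
    ((Finset.univ.filter fun i => (i : ℕ) < 180 * n - p) ∪
      (Finset.univ.filter fun i => (p - 1) / 2 - (75 * n + κ) + 1 ≤ (i : ℕ))) hall
    (fun i hi j => by
      simp only [Finset.mem_union, Finset.mem_filter, Finset.mem_univ, true_and, not_or,
        not_lt, not_le] at hi
      have := entry_int (p := p) h2 h5 x y n (i + j) (by omega) (by omega) (by omega)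
      have h3 := real_le_of_rat this
      simpa [Mat] using h3)
  refine h3.trans (rpow_card_le hp1 ?_)
  have hc : ((Finset.univ.filter fun i : Fin (30 * n + κ) => (i : ℕ) < 180 * n - p) ∪
      (Finset.univ.filter fun i : Fin (30 * n + κ) =>
        (p - 1) / 2 - (75 * n + κ) + 1 ≤ (i : ℕ))).card ≤
      (180 * n - p) + (30 * n + κ - ((p - 1) / 2 - (75 * n + κ) + 1)) :=
    (Finset.card_union_le _ _).trans (add_le_add card_filter_lt card_filter_ge)
  have hcR : (((Finset.univ.filter fun i : Fin (30 * n + κ) => (i : ℕ) < 180 * n - p) ∪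
      (Finset.univ.filter fun i : Fin (30 * n + κ) =>
        (p - 1) / 2 - (75 * n + κ) + 1 ≤ (i : ℕ))).card : ℝ) ≤
      ((180 * n - p : ℕ) : ℝ) + ((30 * n + κ - ((p - 1) / 2 - (75 * n + κ) + 1) : ℕ) : ℝ) := by
    exact_mod_cast hc
  have hpR : (170 * n : ℝ) ≤ p := by exact_mod_cast c4.le
  have hsecond : 2 * ((30 * n + κ - ((p - 1) / 2 - (75 * n + κ) + 1) : ℕ) : ℝ) ≤
      2 * (1 / 2 * ramp (210 * n) p) + 10 := by
    rcases le_or_gt p (210 * n) with c5 | c5
    · have hpR5 : (p : ℝ) ≤ 210 * n := by exact_mod_cast c5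
      rw [ramp_of_le hpR5]
      have : 2 * (30 * n + κ - ((p - 1) / 2 - (75 * n + κ) + 1)) + p ≤ 210 * n + 10 := by omega
      have h7 : 2 * ((30 * n + κ - ((p - 1) / 2 - (75 * n + κ) + 1) : ℕ) : ℝ) + p ≤
          210 * n + 10 := by exact_mod_cast this
      linarith
    · have hpR5 : (210 * n : ℝ) ≤ p := by exact_mod_cast c5.le
      rw [ramp_of_ge hpR5]
      have : 2 * (30 * n + κ - ((p - 1) / 2 - (75 * n + κ) + 1)) ≤ 10 := by omega
      have h7 : 2 * ((30 * n + κ - ((p - 1) / 2 - (75 * n + κ) + 1) : ℕ) : ℝ) ≤ 10 := by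
        exact_mod_cast this
      linarith
  have hfirst : ((180 * n - p : ℕ) : ℝ) ≤ ramp (180 * n) p := by
    rcases le_or_gt p (180 * n) with c5 | c5
    · have hpR5 : (p : ℝ) ≤ 180 * n := by exact_mod_cast c5
      rw [ramp_of_le hpR5, Nat.cast_sub c5]
      push_cast
      linarith
    · have hpR5 : (180 * n : ℝ) ≤ p := by exact_mod_cast c5.le
      rw [ramp_of_ge hpR5]
      have : 180 * n - p = 0 := by omega
      rw [this]
      simp
  rw [tau, ramp_of_ge (by linarith : (170 * n : ℝ) ≤ p), ramp_of_ge (by linarith : (102 * n : ℝ) ≤ p),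
    ramp_of_ge (by linarith : (90 * n : ℝ) ≤ p), ramp_of_ge (by linarith : (75 * n : ℝ) ≤ p)]
  linarith

end Pool.Agent.Lib.PiMu
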