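import Pool.Agent.Lib.PiMu.DetNorm

/-!
# Module D, prime 5
-/

namespace Pool.Agent.Lib.PiMu
open Polynomial

instance fact_five : Fact (Nat.Prime 5) := ⟨Nat.prime_five⟩

/-- coefficients of norm at most `A * 25 ^ l` -/
def NB5 (A : ℚ) (P : ℚ[X]) : Prop := ∀ l, padicNorm 5 (P.coeff l) ≤ A * 25 ^ l

lemma NB5.mul {A B : ℚ} {P Q : ℚ[X]} (hA : 0 ≤ A) (hB : 0 ≤ B) (hP : NB5 A P) (hQ : NB5 B Q) :
    NB5 (A * B) (P * Q) := by
  intro l
  rw [coeff_mul]
  refine padicNorm.sum_le' (fun x hx => ?_) (by positivity)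
  rw [padicNorm.mul]
  have hx' := Finset.HasAntidiagonal.mem_antidiagonal.mp hx
  calc padicNorm 5 (P.coeff x.1) * padicNorm 5 (Q.coeff x.2)
      ≤ (A * 25 ^ x.1) * (B * 25 ^ x.2) :=
        mul_le_mul (hP _) (hQ _) (padicNorm.nonneg _) (by positivity)
    _ = A * B * 25 ^ l := by rw [← hx', pow_add]; ring

lemma NB5.one : NB5 1 1 := by
  intro l
  rw [coeff_one]
  split_ifs with h
  · rw [padicNorm.one, one_mul]
    exact one_le_pow₀ (by norm_num)
  · rw [padicNorm.zero]
    positivity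

lemma NB5.pow {A : ℚ} {P : ℚ[X]} (hA : 0 ≤ A) (hP : NB5 A P) (k : ℕ) : NB5 (A ^ k) (P ^ k) := by
  induction k with
  | zero => rw [pow_zero, pow_zero]; exact NB5.one
  | succ k ih => rw [pow_succ, pow_succ]; exact ih.mul (by positivity) hA hP

lemma norm5_25 : padicNorm 5 (25 : ℚ) = 1 / 25 := by
  have h1 : padicNorm 5 (5 : ℚ) = 1 / 5 := by
    have := padicNorm.padicNorm_p_of_prime (p := 5)
    rw [one_div]
    exact_mod_cast this
  have h : (25 : ℚ) = 5 * 5 := by norm_num
  rw [h, padicNorm.mul, h1]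
  norm_num

lemma norm5_int (z : ℤ) : padicNorm 5 (z : ℚ) ≤ 1 := padicNorm.of_int z

lemma NB5.wp : NB5 (1 / 25) wp := by
  intro l
  unfold PiMu.wp
  rw [coeff_sub, coeff_C, coeff_X]
  rcases l with _ | _ | l
  · have e : ((if (0 : ℕ) = 0 then (25 : ℚ) else 0) - (if (1 : ℕ) = 0 then (1 : ℚ) else 0)) = 25 := by
      norm_num
    rw [e, norm5_25]
    norm_num
  · norm_num
  · have e : ((if l + 1 + 1 = 0 then (25 : ℚ) else 0) - (if 1 = l + 1 + 1 then (1 : ℚ) else 0))
        = 0 := by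
      rw [if_neg (by omega), if_neg (by omega)]
      norm_num
    rw [e, padicNorm.zero]
    positivity

lemma NB5.qp : NB5 (1 / 25) qp := by
  intro l
  unfold PiMu.qp
  rw [coeff_add, coeff_sub, coeff_X_pow, coeff_C_mul, coeff_X, coeff_C]
  rcases l with _ | _ | _ | l
  · have h : (800 : ℚ) = 25 * ((32 : ℤ) : ℚ) := by norm_num
    have h1 : padicNorm 5 (800 : ℚ) ≤ 1 / 25 := by
      rw [h, padicNorm.mul, norm5_25]
      calc 1 / 25 * padicNorm 5 ((32 : ℤ) : ℚ) ≤ 1 / 25 * 1 :=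
            mul_le_mul_of_nonneg_left (norm5_int 32) (by norm_num)
        _ = 1 / 25 := by norm_num
    simpa using h1
  · have := norm5_int 56
    norm_num at this ⊢
    simpa using this
  · norm_num
  · rw [if_neg (by omega), if_neg (by omega), if_neg (by omega)]
    simp only [mul_zero, sub_zero, add_zero, padicNorm.zero]
    positivity

lemma NB5.Wp (n : ℕ) : NB5 ((1 / 25) ^ (135 * n)) (Wp n) := by
  have h := (NB5.wp.pow (by norm_num) (45 * n)).mul (by positivity) (by positivity)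
    (NB5.qp.pow (by norm_num) (90 * n))
  rw [← pow_add, show 45 * n + 90 * n = 135 * n by ring] at h
  exact h

lemma entry_five (x y : ℤ) (n k : ℕ) (hk : k ≤ 180 * n) (hn : 1 ≤ n) :
    padicNorm 5 (lam x y (180 * n) (Wp n * X ^ k)) ≤ 10000 * n * 25 ^ (45 * n - k) := by
  rw [lam_W_X_pow x y n k hk, lam_eq_sum]
  have hnQ : (1 : ℚ) ≤ n := by exact_mod_cast hn
  refine padicNorm.sum_le' (fun l hl => ?_) (by positivity)
  have hl' : l ≤ 225 * n := (le_natDegree_of_mem_supp l hl).trans (natDegree_Wp_le n)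
  rw [padicNorm.mul]
  have h5 := Lam_norm_five x y ((l : ℤ) - ((180 * n - k : ℕ) : ℤ))
  have e1 : (-((l : ℤ) - ((180 * n - k : ℕ) : ℤ))).toNat = 180 * n - k - l := by omega
  rw [e1] at h5
  have habs : 5 * (2 * |(((l : ℤ) - ((180 * n - k : ℕ) : ℤ) : ℤ) : ℚ)| + 1) ≤ 10000 * (n : ℚ) := by
    have h1 : |((l : ℤ) - ((180 * n - k : ℕ) : ℤ))| ≤ 225 * (n : ℤ) := by
      rw [abs_le]
      constructor <;> omega
    have h2 : |(((l : ℤ) - ((180 * n - k : ℕ) : ℤ) : ℤ) : ℚ)| ≤ 225 * (n : ℚ) := by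
      rw [← Int.cast_abs]
      exact_mod_cast h1
    linarith
  have hc : padicNorm 5 ((Wp n).coeff l) * 25 ^ (180 * n - k - l) ≤ (25 : ℚ) ^ (45 * n - k) := by
    rcases le_or_gt (180 * n - k) l with h | h
    · have : 180 * n - k - l = 0 := by omega
      rw [this, pow_zero, mul_one]
      exact (PInt.Wp (p := 5) n l).trans (one_le_pow₀ (by norm_num))
    · have h1 := NB5.Wp n l
      calc padicNorm 5 ((Wp n).coeff l) * 25 ^ (180 * n - k - l)
          ≤ ((1 / 25) ^ (135 * n) * 25 ^ l) * 25 ^ (180 * n - k - l) := by gcongr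
        _ = (1 / 25) ^ (135 * n) * 25 ^ (180 * n - k) := by
            rw [mul_assoc, ← pow_add]
            congr 2
            omega
        _ ≤ (1 / 25) ^ (135 * n) * 25 ^ (135 * n + (45 * n - k)) := by
            gcongr
            · norm_num
            · omega
        _ = 25 ^ (45 * n - k) := by
            rw [pow_add, ← mul_assoc, ← mul_pow]
            norm_num
  calc padicNorm 5 ((Wp n).coeff l) * padicNorm 5 (Lam x y ((l : ℤ) - ((180 * n - k : ℕ) : ℤ)))
      ≤ padicNorm 5 ((Wp n).coeff l) * (5 * (2 * |(((l : ℤ) - ((180 * n - k : ℕ) : ℤ) : ℤ) : ℚ)| + 1)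
          * 25 ^ (180 * n - k - l)) := mul_le_mul_of_nonneg_left h5 (padicNorm.nonneg _)
    _ = (5 * (2 * |(((l : ℤ) - ((180 * n - k : ℕ) : ℤ) : ℤ) : ℚ)| + 1)) *
          (padicNorm 5 ((Wp n).coeff l) * 25 ^ (180 * n - k - l)) := by ring
    _ ≤ (10000 * (n : ℚ)) * 25 ^ (45 * n - k) := by
        refine mul_le_mul habs hc (mul_nonneg (padicNorm.nonneg _) (by positivity)) (by positivity)

lemma sum_ramp_le (K : ℕ) : ∀ t : ℝ, 0 ≤ t →
    ∑ i ∈ Finset.range K, ramp t i ≤ t ^ 2 / 2 + t := by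
  induction K with
  | zero => intro t ht; simp; positivity
  | succ K ih =>
    intro t ht
    rw [Finset.sum_range_succ']
    have h0 : ramp t ((0 : ℕ) : ℝ) = t := by
      rw [ramp_of_le (by simpa using ht)]
      simp
    rw [h0]
    have h1 : ∀ i : ℕ, ramp t ((i + 1 : ℕ) : ℝ) = ramp (t - 1) i := by
      intro i
      unfold ramp
      push_cast
      congr 1
      ring
    rw [Finset.sum_congr rfl fun i _ => h1 i]
    rcases le_or_gt 1 t with h | h
    · have := ih (t - 1) (by linarith)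
      nlinarith
    · have : ∑ i ∈ Finset.range K, ramp (t - 1) i = 0 := by
        refine Finset.sum_eq_zero fun i _ => ramp_of_ge ?_
        have : (0 : ℝ) ≤ i := by positivity
        linarith
      rw [this]
      nlinarith

theorem det_norm_five (x y : ℤ) (n κ : ℕ) (hn : 100 ≤ n) (hκ : κ ≤ 2) :
    (padicNorm 5 (Mat x y n (30 * n + κ)).det : ℝ) ≤
      (10000 * n : ℝ) ^ (30 * n + κ) * (5 : ℝ) ^ ((2025 / 2 : ℝ) * n ^ 2 + 1000 * n) := by
  have hnR : (100 : ℝ) ≤ n := by exact_mod_cast hn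
  set t : ℝ := 45 / 2 * n with ht
  have ht0 : 0 ≤ t := by positivity
  have h := det_norm_le (p := 5) (Mat x y n (30 * n + κ))
    (fun i => 10000 * n * (25 : ℝ) ^ ramp t i) (fun j => (25 : ℝ) ^ ramp t j)
    (fun i => by positivity) (fun j => by positivity) (fun i j => ?_)
  · refine h.trans ?_
    rw [Finset.prod_mul_distrib, Finset.prod_const, Finset.card_univ, Fintype.card_fin, mul_assoc]
    refine mul_le_mul_of_nonneg_left ?_ (by positivity)
    have hs : ∏ i : Fin (30 * n + κ), (25 : ℝ) ^ ramp t i =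
        (25 : ℝ) ^ (∑ i ∈ Finset.range (30 * n + κ), ramp t i) := by
      rw [Real.rpow_sum_of_pos (by norm_num), Finset.prod_range]
    rw [hs, ← Real.rpow_add (by norm_num)]
    have h25 : (25 : ℝ) = (5 : ℝ) ^ (2 : ℝ) := by norm_num
    rw [h25, ← Real.rpow_mul (by norm_num)]
    refine Real.rpow_le_rpow_of_exponent_le (by norm_num) ?_
    have := sum_ramp_le (30 * n + κ) t ht0
    rw [ht] at this ⊢
    nlinarith
  · have h1 := entry_five x y n (i + j) (by omega) (by omega)
    have h2 := real_le_of_rat h1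
    push_cast at h2
    have h3 : (padicNorm 5 (Mat x y n (30 * n + κ) i j) : ℝ) ≤
        10000 * n * 25 ^ (45 * n - ((i : ℕ) + (j : ℕ))) := by
      simpa [Mat] using h2
    refine h3.trans ?_
    rw [mul_assoc (10000 * (n : ℝ)), ← Real.rpow_add (by norm_num)]
    refine mul_le_mul_of_nonneg_left ?_ (by positivity)
    rw [← Real.rpow_natCast]
    refine Real.rpow_le_rpow_of_exponent_le (by norm_num) ?_
    have e1 : t - (i : ℕ) ≤ ramp t i := le_max_right _ _
    have e2 : t - (j : ℕ) ≤ ramp t j := le_max_right _ _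
    have e3 : 0 ≤ ramp t i := le_max_left _ _
    have e4 : 0 ≤ ramp t j := le_max_left _ _
    rcases le_or_gt ((i : ℕ) + (j : ℕ)) (45 * n) with h | h
    · rw [Nat.cast_sub h]
      push_cast
      rw [ht] at e1 e2 ⊢
      linarith
    · have : 45 * n - ((i : ℕ) + (j : ℕ)) = 0 := by omega
      rw [this]
      push_cast
      linarith

end Pool.Agent.Lib.PiMu
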