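import Pool.Agent.Lib.PiMu.DetNorm

namespace Pool.Agent.Lib.PiMu
open Polynomial

theorem det_norm_small {p : ℕ} [Fact p.Prime] (h2 : p ≠ 2) (h5 : p ≠ 5) (x y : ℤ) (n κ : ℕ)
    (hn : 100 ≤ n) (hκ : κ ≤ 2) :
    (padicNorm p (Mat x y n (30 * n + κ)).det : ℝ) ≤ (1000 * n : ℝ) ^ (30 * n + κ) := by
  have h := det_norm_le (p := p) (Mat x y n (30 * n + κ)) (fun _ => (1000 * n : ℝ)) (fun _ => 1)
    (fun _ => by positivity) (fun _ => zero_le_one) (fun i j => ?_)
  · simpa using h
  · rw [mul_one]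
    have hi := i.2
    have hj := j.2
    have h1 : padicNorm p (lam x y (180 * n) (Wp n * X ^ ((i : ℕ) + (j : ℕ)))) ≤ (1000 * n : ℚ) := by
      refine lam_norm_le ((PInt.Wp n).mul (PInt.X.pow _)) x y _ (285 * n + 2) (1000 * n)
        (by positivity) ?_ fun l hl => ?_
      · refine (natDegree_mul_le_of_le (natDegree_Wp_le n) (natDegree_X_pow_le _)).trans ?_
        omega
      · refine (Lam_norm_crude h2 h5 x y _).trans ?_
        have h3 : (l : ℚ) ≤ 285 * n + 2 := by exact_mod_cast hl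
        have h4 : (0 : ℚ) ≤ l := by positivity
        have h5 : (100 : ℚ) ≤ n := by exact_mod_cast hn
        have h6 : |(((l : ℤ) - ((180 * n : ℕ) : ℤ) : ℤ) : ℚ)| ≤ 180 * n := by
          push_cast
          rw [abs_le]
          constructor <;> linarith
        linarith
    have := real_le_of_rat h1
    simpa [Mat] using this

end Pool.Agent.Lib.PiMu
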