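import Pool.Agent.Lib.PiMu.DetNorm

namespace Pool.Agent.Lib.PiMu
open Polynomial

/-- polynomials with coefficients of norm at most `A ρ ^ l` -/
def PBd (p : ℕ) (A ρ : ℝ) (P : ℚ[X]) : Prop := ∀ l, (padicNorm p (P.coeff l) : ℝ) ≤ A * ρ ^ l

lemma PBd.mul {p : ℕ} [Fact p.Prime] {A B ρ : ℝ} (hA : 0 ≤ A) (hB : 0 ≤ B) (hρ : 0 ≤ ρ) {P Q : ℚ[X]}
    (hP : PBd p A ρ P) (hQ : PBd p B ρ Q) : PBd p (A * B) ρ (P * Q) := by
  intro l
  rw [coeff_mul]
  refine padicNorm_real_sum_le (by positivity) fun ij hij => ?_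
  rw [Finset.HasAntidiagonal.mem_antidiagonal] at hij
  rw [padicNorm_real_mul, ← hij, pow_add]
  calc (padicNorm p (P.coeff ij.1) : ℝ) * (padicNorm p (Q.coeff ij.2) : ℝ)
      ≤ (A * ρ ^ ij.1) * (B * ρ ^ ij.2) :=
        mul_le_mul (hP _) (hQ _) (padicNorm_real_nonneg _) (by positivity)
    _ = A * B * (ρ ^ ij.1 * ρ ^ ij.2) := by ring

lemma PBd.pow {p : ℕ} [Fact p.Prime] {A ρ : ℝ} (hA : 0 ≤ A) (hρ : 0 ≤ ρ) {P : ℚ[X]}
    (hP : PBd p A ρ P) (k : ℕ) : PBd p (A ^ k) ρ (P ^ k) := by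
  induction k with
  | zero =>
    intro l
    rw [pow_zero, pow_zero, one_mul, coeff_one]
    split_ifs with h
    · subst h; simp
    · simp [pow_nonneg hρ]
  | succ k ih =>
    rw [pow_succ, pow_succ]
    exact PBd.mul (by positivity) hA hρ ih hP

lemma lam_norm_real_le {p : ℕ} [Fact p.Prime] {P : ℚ[X]} (x y : ℚ) (s : ℕ) {B : ℝ} (hB : 0 ≤ B)
    (h : ∀ l ≤ P.natDegree, (padicNorm p (P.coeff l) : ℝ) * (padicNorm p (Lam x y ((l : ℤ) - s)) : ℝ) ≤ B) :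
    (padicNorm p (lam x y s P) : ℝ) ≤ B := by
  rw [lam_eq_sum]
  refine padicNorm_real_sum_le hB fun i hi => ?_
  rw [padicNorm_real_mul]
  exact h i (le_natDegree_of_mem_supp i hi)

lemma padicNorm_two_natCast (m k : ℕ) (hm : m % 2 = 1) :
    (padicNorm 2 ((2 ^ k * m : ℕ) : ℚ) : ℝ) = (2 : ℝ) ^ (-(k : ℤ)) := by
  have : Fact (Nat.Prime 2) := ⟨Nat.prime_two⟩
  have h1 : padicNorm 2 ((m : ℕ) : ℚ) = 1 := by
    rw [padicNorm.nat_eq_one_iff]
    omega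
  have h2 : padicNorm 2 ((2 ^ k * m : ℕ) : ℚ) = (2 : ℚ) ^ (-(k : ℤ)) := by
    push_cast
    rw [padicNorm.mul, h1, mul_one]
    have h3 := padicNorm.padicNorm_p_of_prime (p := 2)
    have h4 : padicNorm 2 ((2 : ℚ) ^ k) = (padicNorm 2 (2 : ℚ)) ^ k := by
      induction k with
      | zero => simp
      | succ k ih => rw [pow_succ, padicNorm.mul, ih, pow_succ]
    rw [h4]
    have h5 : padicNorm 2 (2 : ℚ) = (2 : ℚ)⁻¹ := by exact_mod_cast h3
    rw [h5, inv_pow, zpow_neg, zpow_natCast]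
  rw [h2]
  push_cast
  rfl

lemma two_half_pow (k : ℕ) : ((2 : ℝ) ^ (5 / 2 : ℝ)) ^ k = (2 : ℝ) ^ ((5 / 2 : ℝ) * k) := by
  rw [Real.rpow_mul (by norm_num), Real.rpow_natCast]

lemma PBd_two_wp : PBd 2 1 ((2 : ℝ) ^ (5 / 2 : ℝ)) wp := by
  have : Fact (Nat.Prime 2) := ⟨Nat.prime_two⟩
  have hρ : (1 : ℝ) ≤ (2 : ℝ) ^ (5 / 2 : ℝ) := Real.one_le_rpow (by norm_num) (by norm_num)
  intro l
  have h1 : (padicNorm 2 (wp.coeff l) : ℝ) ≤ 1 := real_le_of_rat (B := 1) (PInt.wp l) |>.trans (by simp)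
  refine h1.trans ?_
  rw [one_mul]
  exact one_le_pow₀ hρ

lemma PBd_two_qp : PBd 2 (1 / 32) ((2 : ℝ) ^ (5 / 2 : ℝ)) qp := by
  have : Fact (Nat.Prime 2) := ⟨Nat.prime_two⟩
  intro l
  rcases l with _ | _ | _ | l
  · have : qp.coeff 0 = ((2 ^ 5 * 25 : ℕ) : ℚ) := by simp [qp]
    rw [this, padicNorm_two_natCast 25 5 (by norm_num)]
    norm_num
  · have : qp.coeff (0 + 1) = - ((2 ^ 3 * 7 : ℕ) : ℚ) := by
      simp [qp, coeff_C]
    rw [this, padicNorm.neg, padicNorm_two_natCast 7 3 (by norm_num)]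
    have h4 : (4 : ℝ) ≤ (2 : ℝ) ^ (5 / 2 : ℝ) := by
      calc (4 : ℝ) = (2 : ℝ) ^ (2 : ℝ) := by norm_num
        _ ≤ _ := Real.rpow_le_rpow_of_exponent_le (by norm_num) (by norm_num)
    rw [zero_add, pow_one]
    norm_num
    linarith
  · have h2 : qp.coeff (0 + 1 + 1) = 1 := by
      simp [qp]
    rw [h2, two_half_pow]
    have : (2 : ℝ) ^ ((5 / 2 : ℝ) * ((0 + 1 + 1 : ℕ) : ℝ)) = 32 := by
      have : ((5 / 2 : ℝ) * ((0 + 1 + 1 : ℕ) : ℝ)) = (5 : ℕ) := by norm_num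
      rw [this, Real.rpow_natCast]
      norm_num
    rw [this]
    simp
  · have h3 : qp.coeff (l + 1 + 1 + 1) = 0 := by
      refine coeff_eq_zero_of_natDegree_lt ?_
      rw [natDegree_qp]
      omega
    rw [h3]
    simp
    positivity

lemma PBd_two_Wp (n : ℕ) : PBd 2 ((1 / 32) ^ (90 * n)) ((2 : ℝ) ^ (5 / 2 : ℝ)) (Wp n) := by
  have : Fact (Nat.Prime 2) := ⟨Nat.prime_two⟩
  have h1 := PBd_two_wp.pow (p := 2) zero_le_one (by positivity) (45 * n)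
  have h2 := PBd_two_qp.pow (p := 2) (by norm_num) (by positivity) (90 * n)
  have h3 := PBd.mul (p := 2) (by positivity) (by positivity) (by positivity) h1 h2
  rwa [one_pow, one_mul] at h3

lemma entry_two (x y : ℤ) (n k : ℕ) (hn : 100 ≤ n) (hk : k ≤ 60 * n + 2) :
    (padicNorm 2 (lam x y (180 * n) (Wp n * X ^ k)) : ℝ) ≤
      10000 * n * (2 : ℝ) ^ (-(5 / 2 : ℝ) * k) := by
  have : Fact (Nat.Prime 2) := ⟨Nat.prime_two⟩
  have hk' : k ≤ 180 * n := by omega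
  rw [lam_W_X_pow x y n k hk']
  refine lam_norm_real_le _ _ _ (by positivity) fun l hl => ?_
  have hl' : l ≤ 225 * n := hl.trans (natDegree_Wp_le n)
  have h1 := PBd_two_Wp n l
  have h2 := Lam_norm_two x y ((l : ℤ) - ((180 * n - k : ℕ) : ℤ))
  have hn' : (100 : ℝ) ≤ n := by exact_mod_cast hn
  have e1 : (((l : ℤ) - ((180 * n - k : ℕ) : ℤ) : ℤ) : ℝ) = (l : ℝ) + k - 180 * n := by
    push_cast [Nat.cast_sub hk']
    ring
  rw [e1] at h2
  have h3 : |(l : ℝ) + k - 180 * n| ≤ 180 * n := by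
    have a1 : (l : ℝ) ≤ 225 * n := by exact_mod_cast hl'
    have a2 : (k : ℝ) ≤ 60 * n + 2 := by exact_mod_cast hk
    have a3 : (0 : ℝ) ≤ l := by positivity
    have a4 : (0 : ℝ) ≤ k := by positivity
    rw [abs_le]
    constructor <;> linarith
  have h4 : 16 * (2 * |(l : ℝ) + k - 180 * n| + 1) ≤ 10000 * n := by linarith
  rw [two_half_pow] at h1
  have e2 : ((1 / 32 : ℝ)) ^ (90 * n) = (2 : ℝ) ^ (-(450 * n : ℝ)) := by
    rw [show (1 / 32 : ℝ) = (2 : ℝ) ^ (-5 : ℝ) by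
      rw [Real.rpow_neg (by norm_num)]; norm_num, ← Real.rpow_natCast, ← Real.rpow_mul (by norm_num)]
    congr 1
    push_cast
    ring
  rw [e2, ← Real.rpow_add (by norm_num)] at h1
  calc (padicNorm 2 ((Wp n).coeff l) : ℝ) *
        (padicNorm 2 (Lam x y ((l : ℤ) - ((180 * n - k : ℕ) : ℤ))) : ℝ)
      ≤ (2 : ℝ) ^ (-(450 * n : ℝ) + 5 / 2 * l) *
        (16 * (2 * |(l : ℝ) + k - 180 * n| + 1) * 2 ^ (-(5 / 2 : ℝ) * ((l : ℝ) + k - 180 * n))) :=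
        mul_le_mul h1 h2 (padicNorm_real_nonneg _) (by positivity)
    _ = 16 * (2 * |(l : ℝ) + k - 180 * n| + 1) * ((2 : ℝ) ^ (-(450 * n : ℝ) + 5 / 2 * l) *
        2 ^ (-(5 / 2 : ℝ) * ((l : ℝ) + k - 180 * n))) := by ring
    _ = 16 * (2 * |(l : ℝ) + k - 180 * n| + 1) * (2 : ℝ) ^ (-(5 / 2 : ℝ) * k) := by
        rw [← Real.rpow_add (by norm_num)]
        congr 2
        ring
    _ ≤ _ := mul_le_mul_of_nonneg_right h4 (by positivity)

theorem det_norm_two (x y : ℤ) (n κ : ℕ) (hn : 100 ≤ n) (hκ : κ ≤ 2) :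
    (padicNorm 2 (Mat x y n (30 * n + κ)).det : ℝ) ≤
      (10000 * n : ℝ) ^ (30 * n + κ) * (2 : ℝ) ^ (-(2250 : ℝ) * n ^ 2 + 75 * n) := by
  have : Fact (Nat.Prime 2) := ⟨Nat.prime_two⟩
  set K := 30 * n + κ with hK
  have h := det_norm_le (p := 2) (Mat x y n K)
    (fun i => 10000 * n * (2 : ℝ) ^ (-(5 / 2 : ℝ) * (i : ℕ))) (fun j => (2 : ℝ) ^ (-(5 / 2 : ℝ) * (j : ℕ)))
    (fun _ => by positivity) (fun _ => by positivity) (fun i j => ?_)
  · refine h.trans ?_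
    rw [Finset.prod_mul_distrib, Finset.prod_const, Finset.card_univ, Fintype.card_fin, mul_assoc]
    refine mul_le_mul_of_nonneg_left ?_ (by positivity)
    have e1 : ∏ i : Fin K, (2 : ℝ) ^ (-(5 / 2 : ℝ) * ((i : ℕ) : ℝ)) =
        (2 : ℝ) ^ (-(5 / 4 : ℝ) * (K * (K - 1))) := by
      rw [← Real.rpow_sum_of_pos (by norm_num)]
      congr 1
      rw [← Finset.mul_sum, Fin.sum_univ_eq_sum_range (fun i => (i : ℝ)) K]
      have : ∀ m : ℕ, ∑ i ∈ Finset.range m, (i : ℝ) = m * (m - 1) / 2 := by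
        intro m
        induction m with
        | zero => simp
        | succ m ih => rw [Finset.sum_range_succ, ih]; push_cast; ring
      rw [this]
      ring
    rw [e1, ← Real.rpow_add (by norm_num)]
    refine Real.rpow_le_rpow_of_exponent_le (by norm_num) ?_
    have hK' : (K : ℝ) = 30 * n + κ := by rw [hK]; push_cast; ring
    have h0 : (0 : ℝ) ≤ κ := by positivity
    have hn' : (100 : ℝ) ≤ n := by exact_mod_cast hn
    rw [hK']
    nlinarith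
  · have hi := i.2
    have hj := j.2
    have h1 := entry_two x y n ((i : ℕ) + (j : ℕ)) hn (by omega)
    have h2 : (padicNorm 2 (Mat x y n K i j) : ℝ) ≤
      10000 * n * (2 : ℝ) ^ (-(5 / 2 : ℝ) * ((i : ℕ) + (j : ℕ) : ℕ)) := h1
    refine h2.trans (le_of_eq ?_)
    rw [mul_assoc (10000 * (n : ℝ)), ← Real.rpow_add (by norm_num)]
    congr 2
    push_cast
    ring

end Pool.Agent.Lib.PiMu
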