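import Mathlib

/-!
# From the irrationality exponent of `π` to its digits (module DIGITS)

(helper32, problem MP_7e9a3a_nt)

`a(i) = ⌊b^i π⌋ mod b` is the `i`-th digit of `π` in base `b` after the point (`i ≥ 1`).
-/

set_option autoImplicit false

namespace Pool.Agent.Lib.PiMu

theorem Dig_floor (x : ℝ) (b : ℕ) (hb : 2 ≤ b) (j : ℕ) :
    ⌊(b : ℝ) ^ (j + 1) * x⌋₊ = b * ⌊(b : ℝ) ^ j * x⌋₊ + ⌊(b : ℝ) ^ (j + 1) * x⌋₊ % b := by
  have hb0 : (b : ℝ) ≠ 0 := by positivity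
  have h : ⌊(b : ℝ) ^ j * x⌋₊ = ⌊(b : ℝ) ^ (j + 1) * x⌋₊ / b := by
    rw [← Nat.floor_div_natCast]
    congr 1
    field_simp
    ring
  rw [h]
  exact (Nat.div_add_mod _ _).symm

theorem Dig_block (x : ℝ) (b : ℕ) (hb : 2 ≤ b) (m r l : ℕ)
    (h : ∀ i, m < i → i ≤ m + l →
      ⌊(b : ℝ) ^ (i + r) * x⌋₊ % b = ⌊(b : ℝ) ^ i * x⌋₊ % b) :
    ⌊(b : ℝ) ^ (m + r + l) * x⌋₊ + b ^ l * ⌊(b : ℝ) ^ m * x⌋₊ =
      ⌊(b : ℝ) ^ (m + l) * x⌋₊ + b ^ l * ⌊(b : ℝ) ^ (m + r) * x⌋₊ := by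
  induction l with
  | zero => simp [add_comm]
  | succ l ih =>
    have h1 := ih fun i hi hi' => h i hi (by omega)
    have h2 := h (m + l + 1) (by omega) (by omega)
    have h3 := Dig_floor x b hb (m + r + l)
    have h4 := Dig_floor x b hb (m + l)
    rw [show m + l + 1 + r = m + r + l + 1 by omega] at h2
    rw [show m + r + (l + 1) = m + r + l + 1 by omega, show m + (l + 1) = m + l + 1 by omega,
      h3, h2, h4, pow_succ]
    rw [Nat.mul_add_mod, Nat.mod_mod]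
    linear_combination congrArg (fun z : ℕ => b * z) h1

/-- a long repetition in the digits gives a good rational approximation -/
theorem Dig_approx (x : ℝ) (hx : 0 ≤ x) (b : ℕ) (hb : 2 ≤ b) (m r l : ℕ) (hr : 1 ≤ r)
    (h : ∀ i, m < i → i ≤ m + l →
      ⌊(b : ℝ) ^ (i + r) * x⌋₊ % b = ⌊(b : ℝ) ^ i * x⌋₊ % b) :
    ∃ q : ℕ, 1 ≤ q ∧ q ≤ b ^ (m + r) ∧ ∃ p : ℤ, |(q : ℝ) * x - p| * (b : ℝ) ^ l < 1 := by
  have hbpos : 0 < b := by omega
  have hblock := Dig_block x b hb m r l h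
  have h1 : b ^ m < b ^ (m + r) := Nat.pow_lt_pow_right (by omega) (by omega)
  refine ⟨b ^ (m + r) - b ^ m, by omega, by omega,
    (⌊(b : ℝ) ^ (m + r) * x⌋₊ : ℤ) - ⌊(b : ℝ) ^ m * x⌋₊, ?_⟩
  have hcast : ((b ^ (m + r) - b ^ m : ℕ) : ℝ) = (b : ℝ) ^ (m + r) - (b : ℝ) ^ m := by
    rw [Nat.cast_sub h1.le]
    push_cast
    rfl
  have hf1 := Nat.floor_le (show 0 ≤ (b : ℝ) ^ (m + r + l) * x by positivity)
  have hf2 := Nat.lt_floor_add_one ((b : ℝ) ^ (m + r + l) * x)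
  have hf3 := Nat.floor_le (show 0 ≤ (b : ℝ) ^ (m + l) * x by positivity)
  have hf4 := Nat.lt_floor_add_one ((b : ℝ) ^ (m + l) * x)
  have hb' : (⌊(b : ℝ) ^ (m + r + l) * x⌋₊ : ℝ) + (b : ℝ) ^ l * ⌊(b : ℝ) ^ m * x⌋₊ =
      ⌊(b : ℝ) ^ (m + l) * x⌋₊ + (b : ℝ) ^ l * ⌊(b : ℝ) ^ (m + r) * x⌋₊ := by
    exact_mod_cast hblock
  have hpos : 0 < (b : ℝ) ^ l := by positivity
  rw [← abs_of_pos hpos, ← abs_mul, hcast]
  have e1 : (b : ℝ) ^ (m + r + l) * x = (b : ℝ) ^ l * ((b : ℝ) ^ (m + r) * x) := by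
    rw [pow_add _ (m + r) l]; ring
  have e2 : (b : ℝ) ^ (m + l) * x = (b : ℝ) ^ l * ((b : ℝ) ^ m * x) := by
    rw [pow_add _ m l]; ring
  push_cast
  rw [abs_lt]
  constructor
  · nlinarith
  · nlinarith

/-- **Repetitions in the digits of `π`.** If the block of digits at the places
`m + 1, …, m + l` is repeated `r` places later, then `l ≤ (11/2)(m + r) + C`, in every base. -/
theorem digits_repetition
    (hmu : ∃ Q : ℕ, ∀ q : ℕ, Q ≤ q → ∀ p : ℤ,
      1 / (q : ℝ) ^ (13 / 2 : ℝ) ≤ |Real.pi - p / q|) :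
    ∃ C : ℝ, ∀ b : ℕ, 2 ≤ b → ∀ m r l : ℕ, 1 ≤ r →
      (∀ i, m < i → i ≤ m + l →
        ⌊(b : ℝ) ^ (i + r) * Real.pi⌋₊ % b = ⌊(b : ℝ) ^ i * Real.pi⌋₊ % b) →
      (l : ℝ) ≤ 11 / 2 * (m + r) + C := by
  obtain ⟨Q, hQ⟩ := hmu
  -- the finitely many small denominators
  have hsmall : ∃ C : ℝ, 0 ≤ C ∧ ∀ q : ℕ, 1 ≤ q → q < Q → ∀ p : ℤ, ∀ l : ℕ,
      |(q : ℝ) * Real.pi - p| * 2 ^ l < 1 → (l : ℝ) ≤ C := by
    have hone : ∀ q : ℕ, 1 ≤ q → ∃ C : ℝ, 0 ≤ C ∧ ∀ p : ℤ, ∀ l : ℕ,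
        |(q : ℝ) * Real.pi - p| * 2 ^ l < 1 → (l : ℝ) ≤ C := by
      intro q hq
      have hirr : Irrational ((q : ℝ) * Real.pi) := by
        have := irrational_pi.natCast_mul (show q ≠ 0 by omega)
        exact this
      -- distance to the nearest integer
      have hne : (q : ℝ) * Real.pi - round ((q : ℝ) * Real.pi) ≠ 0 := by
        intro h0
        apply hirr
        exact ⟨(round ((q : ℝ) * Real.pi) : ℚ), by push_cast; linarith⟩
      have hd : 0 < |(q : ℝ) * Real.pi - round ((q : ℝ) * Real.pi)| := abs_pos.2 hne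
      obtain ⟨K, hK⟩ := pow_unbounded_of_one_lt
        (1 / |(q : ℝ) * Real.pi - round ((q : ℝ) * Real.pi)|) (show (1 : ℝ) < 2 by norm_num)
      refine ⟨K, by positivity, fun p l hl => ?_⟩
      have h1 : |(q : ℝ) * Real.pi - round ((q : ℝ) * Real.pi)| ≤ |(q : ℝ) * Real.pi - p| :=
        round_le _ p
      by_contra hcon
      push Not at hcon
      have h2 : K ≤ l := by
        have : (K : ℝ) < l := hcon
        exact_mod_cast this.le
      have h3 : (2 : ℝ) ^ K ≤ 2 ^ l := pow_le_pow_right₀ (by norm_num) h2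
      rw [div_lt_iff₀ hd] at hK
      have h4 : (2 : ℝ) ^ K * |(q : ℝ) * Real.pi - round ((q : ℝ) * Real.pi)| ≤
          |(q : ℝ) * Real.pi - p| * 2 ^ l := by
        rw [mul_comm]
        exact mul_le_mul h1 h3 (by positivity) (abs_nonneg _)
      linarith
    choose! C hC using hone
    refine ⟨∑ q ∈ (Finset.range Q).filter (fun q => 1 ≤ q), C q, ?_, ?_⟩
    · refine Finset.sum_nonneg fun q hq => ?_
      exact (hC q (Finset.mem_filter.1 hq).2).1
    · intro q hq hqQ p l hl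
      refine ((hC q hq).2 p l hl).trans ?_
      refine Finset.single_le_sum (f := C) (fun q' hq' => ?_)
        (Finset.mem_filter.2 ⟨Finset.mem_range.2 hqQ, hq⟩)
      exact (hC q' (Finset.mem_filter.1 hq').2).1
  obtain ⟨C, hC0, hC⟩ := hsmall
  refine ⟨C, fun b hb m r l hr h => ?_⟩
  obtain ⟨q, hq1, hqb, p, hp⟩ := Dig_approx Real.pi Real.pi_pos.le b hb m r l hr h
  have hb2 : (2 : ℝ) ≤ b := by exact_mod_cast hb
  have hqpos : (0 : ℝ) < q := by exact_mod_cast hq1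
  by_cases hqQ : q < Q
  · have h1 : |(q : ℝ) * Real.pi - p| * 2 ^ l < 1 := by
      refine lt_of_le_of_lt ?_ hp
      exact mul_le_mul_of_nonneg_left (pow_le_pow_left₀ (by norm_num) hb2 l) (abs_nonneg _)
    have h2 := hC q hq1 hqQ p l h1
    have h3 : (0 : ℝ) ≤ 11 / 2 * (m + r) := by positivity
    linarith
  · push Not at hqQ
    have h1 := hQ q hqQ p
    have h2 : |Real.pi - p / q| = |(q : ℝ) * Real.pi - p| / q := by
      rw [eq_div_iff hqpos.ne', ← abs_of_pos hqpos, ← abs_mul, abs_of_pos hqpos]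
      congr 1
      field_simp
    rw [h2] at h1
    -- `b ^ l ≤ q ^ (11/2)`
    have h3 : (b : ℝ) ^ l ≤ (q : ℝ) ^ (11 / 2 : ℝ) := by
      have hbl : 0 < (b : ℝ) ^ l := by positivity
      have hq13 : 0 < (q : ℝ) ^ (13 / 2 : ℝ) := Real.rpow_pos_of_pos hqpos _
      have h4 : (q : ℝ) ^ (13 / 2 : ℝ) = (q : ℝ) ^ (11 / 2 : ℝ) * q := by
        rw [← Real.rpow_add_one hqpos.ne']
        norm_num
      have h5 : (1 : ℝ) * q ≤ |(q : ℝ) * Real.pi - p| * (q : ℝ) ^ (13 / 2 : ℝ) := by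
        rwa [div_le_div_iff₀ hq13 hqpos] at h1
      rw [h4] at h5
      have h6 : (1 : ℝ) ≤ |(q : ℝ) * Real.pi - p| * (q : ℝ) ^ (11 / 2 : ℝ) := by
        have : (1 : ℝ) * q ≤ (|(q : ℝ) * Real.pi - p| * (q : ℝ) ^ (11 / 2 : ℝ)) * q := by
          calc (1 : ℝ) * q ≤ _ := h5
            _ = _ := by ring
        exact le_of_mul_le_mul_right this hqpos
      by_contra hcon
      push Not at hcon
      have h7 : |(q : ℝ) * Real.pi - p| * (q : ℝ) ^ (11 / 2 : ℝ) ≤
          |(q : ℝ) * Real.pi - p| * (b : ℝ) ^ l :=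
        mul_le_mul_of_nonneg_left hcon.le (abs_nonneg _)
      linarith
    have h4 : (q : ℝ) ^ (11 / 2 : ℝ) ≤ (b : ℝ) ^ (11 / 2 * ((m : ℝ) + r)) := by
      have h5 : (q : ℝ) ≤ (b : ℝ) ^ ((m : ℝ) + r) := by
        have h6 : (q : ℝ) ≤ (b : ℝ) ^ (m + r) := by exact_mod_cast hqb
        rwa [← Real.rpow_natCast, Nat.cast_add] at h6
      calc (q : ℝ) ^ (11 / 2 : ℝ) ≤ ((b : ℝ) ^ ((m : ℝ) + r)) ^ (11 / 2 : ℝ) :=
            Real.rpow_le_rpow hqpos.le h5 (by norm_num)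
        _ = (b : ℝ) ^ (11 / 2 * ((m : ℝ) + r)) := by
            rw [← Real.rpow_mul (by positivity), mul_comm]
    have h5 : (b : ℝ) ^ (l : ℝ) ≤ (b : ℝ) ^ (11 / 2 * ((m : ℝ) + r)) := by
      rw [Real.rpow_natCast]
      exact h3.trans h4
    have h6 : (l : ℝ) ≤ 11 / 2 * ((m : ℝ) + r) :=
      (Real.rpow_le_rpow_left_iff (show (1 : ℝ) < b by linarith)).1 h5
    linarith

/-- the same in the form `l ≤ (11/13) N + C` for repetitions inside the first `N` digits -/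
theorem digits_repetition'
    (hmu : ∃ Q : ℕ, ∀ q : ℕ, Q ≤ q → ∀ p : ℤ,
      1 / (q : ℝ) ^ (13 / 2 : ℝ) ≤ |Real.pi - p / q|) :
    ∀ r : ℕ, 1 ≤ r → ∃ C : ℝ, ∀ b : ℕ, 2 ≤ b → ∀ N m l : ℕ, m + l ≤ N →
      (∀ i, m < i → i ≤ m + l →
        ⌊(b : ℝ) ^ (i + r) * Real.pi⌋₊ % b = ⌊(b : ℝ) ^ i * Real.pi⌋₊ % b) →
      (l : ℝ) ≤ 11 / 13 * N + C := by
  obtain ⟨C, hC⟩ := digits_repetition hmu
  refine fun r hr => ⟨(11 / 2 * r + C) / (13 / 2), fun b hb N m l hN h => ?_⟩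
  have h1 := hC b hb m r l hr h
  have h2 : (m : ℝ) + l ≤ N := by exact_mod_cast hN
  linarith

/-- **Digit changes of `π`.** For every lag `r`, at least `log N / log (13/2) - C` of the digits
`a(1), …, a(N)` differ from the digit `r` places later. -/
theorem digits_changes
    (hmu : ∃ Q : ℕ, ∀ q : ℕ, Q ≤ q → ∀ p : ℤ,
      1 / (q : ℝ) ^ (13 / 2 : ℝ) ≤ |Real.pi - p / q|) :
    ∀ r : ℕ, 1 ≤ r → ∃ C : ℝ, ∀ b : ℕ, 2 ≤ b → ∀ N : ℕ, 1 ≤ N →
      Real.log N / Real.log (13 / 2) - C ≤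
        (((Finset.Icc 1 N).filter (fun i : ℕ =>
          ⌊(b : ℝ) ^ (i + r) * Real.pi⌋₊ % b ≠ ⌊(b : ℝ) ^ i * Real.pi⌋₊ % b)).card : ℝ) := by
  obtain ⟨C0, hC0⟩ := digits_repetition hmu
  intro r hr
  set C : ℝ := max C0 0 with hCdef
  have hCnn : 0 ≤ C := le_max_right _ _
  set E : ℝ := r + (C + 13 / 2) / (11 / 2) with hE
  have hE1 : (1 : ℝ) ≤ E := by
    have : (1 : ℝ) ≤ r := by exact_mod_cast hr
    have h2 : 0 ≤ (C + 13 / 2) / (11 / 2) := by positivity
    linarith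
  refine ⟨1 + Real.log E / Real.log (13 / 2), fun b hb N hN => ?_⟩
  set a : ℕ → ℕ := fun i => ⌊(b : ℝ) ^ i * Real.pi⌋₊ % b with ha
  have key : ∀ N : ℕ, (N : ℝ) + E ≤
      (13 / 2 : ℝ) ^ (((Finset.Icc 1 N).filter (fun i : ℕ => a (i + r) ≠ a i)).card + 1) * E := by
    intro N
    induction N using Nat.strong_induction_on with
    | _ N ih =>
      by_cases hemp : (Finset.Icc 1 N).filter (fun i : ℕ => a (i + r) ≠ a i) = ∅
      · rw [hemp, Finset.card_empty]
        have h1 : ∀ i, 0 < i → i ≤ 0 + N → a (i + r) = a i := by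
          intro i hi hiN
          by_contra hne
          have : i ∈ (Finset.Icc 1 N).filter (fun i : ℕ => a (i + r) ≠ a i) :=
            Finset.mem_filter.2 ⟨Finset.mem_Icc.2 ⟨hi, by omega⟩, hne⟩
          rw [hemp] at this
          simp at this
        have h2 := hC0 b hb 0 r N hr h1
        have h3 : C0 ≤ C := le_max_left _ _
        have h4 : (11 / 2 : ℝ) * E = 11 / 2 * r + (C + 13 / 2) := by rw [hE]; ring
        push_cast at h2
        norm_num
        linarith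
      · obtain ⟨m, hm, hmax⟩ := Finset.exists_max_image _ (fun i : ℕ => i)
          (Finset.nonempty_iff_ne_empty.2 hemp)
        have hm' := Finset.mem_filter.1 hm
        have hm1 := Finset.mem_Icc.1 hm'.1
        have h1 : ∀ i, m < i → i ≤ m + (N - m) → a (i + r) = a i := by
          intro i hi hiN
          by_contra hne
          have : i ∈ (Finset.Icc 1 N).filter (fun i : ℕ => a (i + r) ≠ a i) :=
            Finset.mem_filter.2 ⟨Finset.mem_Icc.2 ⟨by omega, by omega⟩, hne⟩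
          have := hmax i this
          omega
        have h2 := hC0 b hb m r (N - m) hr h1
        have h3 : C0 ≤ C := le_max_left _ _
        rw [Nat.cast_sub hm1.2] at h2
        have h4 := ih (m - 1) (by omega)
        have hcard : ((Finset.Icc 1 (m - 1)).filter (fun i : ℕ => a (i + r) ≠ a i)).card + 1 ≤
            ((Finset.Icc 1 N).filter (fun i : ℕ => a (i + r) ≠ a i)).card := by
          have hnot : m ∉ (Finset.Icc 1 (m - 1)).filter (fun i : ℕ => a (i + r) ≠ a i) := by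
            intro hmem
            have := (Finset.mem_Icc.1 (Finset.mem_filter.1 hmem).1).2
            omega
          rw [← Finset.card_insert_of_notMem hnot]
          refine Finset.card_le_card ?_
          intro i hi
          rcases Finset.mem_insert.1 hi with rfl | hi
          · exact hm
          · have := Finset.mem_filter.1 hi
            have h5 := Finset.mem_Icc.1 this.1
            exact Finset.mem_filter.2 ⟨Finset.mem_Icc.2 ⟨h5.1, by omega⟩, this.2⟩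
        have h5 : (13 / 2 : ℝ) ^
            (((Finset.Icc 1 (m - 1)).filter (fun i : ℕ => a (i + r) ≠ a i)).card + 1) ≤
            (13 / 2 : ℝ) ^ ((Finset.Icc 1 N).filter (fun i : ℕ => a (i + r) ≠ a i)).card :=
          pow_le_pow_right₀ (by norm_num) hcard
        have h6 : ((m - 1 : ℕ) : ℝ) = m - 1 := by
          rw [Nat.cast_sub hm1.1]
          simp
        rw [h6] at h4
        have h7 : (m : ℝ) - 1 + E ≤ (13 / 2 : ℝ) ^
            ((Finset.Icc 1 N).filter (fun i : ℕ => a (i + r) ≠ a i)).card * E :=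
          h4.trans (mul_le_mul_of_nonneg_right h5 (by linarith))
        have h8 : (11 / 2 : ℝ) * E = 11 / 2 * r + (C + 13 / 2) := by rw [hE]; ring
        rw [pow_succ]
        nlinarith
  have h1 := key N
  have hNpos : (0 : ℝ) < N := by exact_mod_cast hN
  have hlog : 0 < Real.log (13 / 2) := Real.log_pos (by norm_num)
  have h2 : Real.log N ≤
      ((((Finset.Icc 1 N).filter (fun i : ℕ => a (i + r) ≠ a i)).card : ℝ) + 1) *
        Real.log (13 / 2) + Real.log E := by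
    calc Real.log N ≤ Real.log ((13 / 2 : ℝ) ^
          (((Finset.Icc 1 N).filter (fun i : ℕ => a (i + r) ≠ a i)).card + 1) * E) :=
          Real.log_le_log hNpos (by linarith)
      _ = _ := by
          rw [Real.log_mul (by positivity) (by linarith), Real.log_pow]
          push_cast
          ring
  have h3 : Real.log N / Real.log (13 / 2) ≤
      (((Finset.Icc 1 N).filter (fun i : ℕ => a (i + r) ≠ a i)).card : ℝ) + 1 +
        Real.log E / Real.log (13 / 2) := by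
    rw [div_le_iff₀ hlog, add_mul, div_mul_cancel₀ _ hlog.ne']
    exact h2
  linarith

end Pool.Agent.Lib.PiMu
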