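import Pool.Agent.Lib.PiMu.Defs
import Pool.Agent.Lib.PNT.Theta

/-!
# The prime sum (module E, helper75)

`∑_{p < B} (B - p) log p = ∑_{m < B} θ(m) ~ B² / 2` from the prime number theorem.
-/

namespace Pool.Agent.Lib.PiMu

open Filter Asymptotics Finset

noncomputable section

/-- `∑_{p < B} (B - p) log p` -/
def psS (B : ℕ) : ℝ := ∑ p ∈ (range B).filter Nat.Prime, ((B : ℝ) - p) * Real.log p

theorem ps_theta (m : ℕ) :
    Chebyshev.theta m = ∑ p ∈ (range (m + 1)).filter Nat.Prime, Real.log p := by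
  rw [Chebyshev.theta_eq_sum_primesLE_log, Nat.primesLE_eq_filter_range]

theorem psS_eq (B : ℕ) : psS B = ∑ m ∈ range B, Chebyshev.theta m := by
  induction B with
  | zero => simp [psS]
  | succ B ih =>
    rw [sum_range_succ, ← ih, ps_theta]
    unfold psS
    have h1 : ∀ f : ℕ → ℝ, ∑ p ∈ (range (B + 1)).filter Nat.Prime, f p =
        ∑ p ∈ (range B).filter Nat.Prime, f p + if Nat.Prime B then f B else 0 := by
      intro f
      rw [sum_filter, sum_filter, sum_range_succ]
    rw [h1, h1, ← add_assoc, ← sum_add_distrib]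
    congr 1
    · refine sum_congr rfl fun p _ => ?_
      push_cast
      ring
    · split_ifs
      · push_cast
        ring
      · rfl

theorem ps_asymp : Tendsto (fun B : ℕ => psS B / (B : ℝ) ^ 2) atTop (nhds (1 / 2)) := by
  have h0 : Tendsto (fun m : ℕ => Chebyshev.theta (m : ℝ) / (m : ℝ)) atTop (nhds 1) :=
    PNT.theta_tendsto.comp tendsto_natCast_atTop_atTop
  have h1 : (fun m : ℕ => Chebyshev.theta (m : ℝ) - (m : ℝ)) =o[atTop] (fun m : ℕ => (m : ℝ)) := by
    rw [isLittleO_iff_tendsto']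
    · have h2 := h0.sub_const 1
      rw [sub_self] at h2
      refine h2.congr' ?_
      filter_upwards [eventually_gt_atTop 0] with m hm
      have hm' : (m : ℝ) ≠ 0 := by positivity
      field_simp
    · filter_upwards [eventually_gt_atTop 0] with m hm h
      have hm' : (m : ℝ) ≠ 0 := by positivity
      exact absurd h hm'
  have hsum : ∀ B : ℕ, ∑ m ∈ range B, (m : ℝ) = (B : ℝ) * ((B : ℝ) - 1) / 2 := by
    intro B
    induction B with
    | zero => simp
    | succ B ih =>
      rw [sum_range_succ, ih]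
      push_cast
      ring
  have htop : Tendsto (fun B : ℕ => ∑ m ∈ range B, (m : ℝ)) atTop atTop := by
    have h3 : Tendsto (fun B : ℕ => (B : ℝ) - 1) atTop atTop :=
      tendsto_atTop_add_const_right _ _ tendsto_natCast_atTop_atTop
    refine tendsto_atTop_mono' _ ?_ h3
    filter_upwards [eventually_ge_atTop 2] with B hB
    rw [hsum]
    have hB' : (2 : ℝ) ≤ B := by exact_mod_cast hB
    nlinarith
  have h2 := h1.sum_range (fun m => Nat.cast_nonneg m) htop
  have h3 : (fun B : ℕ => psS B - (B : ℝ) * ((B : ℝ) - 1) / 2) =o[atTop]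
      (fun B : ℕ => (B : ℝ) ^ 2) := by
    have e1 : (fun B : ℕ => psS B - (B : ℝ) * ((B : ℝ) - 1) / 2) =
        fun B : ℕ => ∑ m ∈ range B, (Chebyshev.theta (m : ℝ) - (m : ℝ)) := by
      funext B
      rw [sum_sub_distrib, hsum, psS_eq]
    rw [e1]
    refine h2.trans_le ?_
    intro B
    have hB : 0 ≤ (B : ℝ) * ((B : ℝ) - 1) / 2 := by
      rcases Nat.eq_zero_or_pos B with h | h
      · simp [h]
      · have h' : (1 : ℝ) ≤ B := by exact_mod_cast h
        have : 0 ≤ (B : ℝ) * ((B : ℝ) - 1) := mul_nonneg (by linarith) (by linarith)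
        linarith
    have hB0 : (0 : ℝ) ≤ B := Nat.cast_nonneg B
    rw [hsum, Real.norm_eq_abs, Real.norm_eq_abs, abs_of_nonneg hB, abs_of_nonneg (by positivity)]
    nlinarith
  have h4 := h3.tendsto_div_nhds_zero
  have h5 : Tendsto (fun B : ℕ => ((B : ℝ) * ((B : ℝ) - 1) / 2) / (B : ℝ) ^ 2) atTop
      (nhds (1 / 2)) := by
    have h6 : Tendsto (fun B : ℕ => (1 / 2 : ℝ) - 1 / 2 * (B : ℝ)⁻¹) atTop
        (nhds (1 / 2 - 1 / 2 * 0)) :=
      (tendsto_inv_atTop_nhds_zero_nat.const_mul _).const_sub _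
    rw [mul_zero, sub_zero] at h6
    refine h6.congr' ?_
    filter_upwards [eventually_gt_atTop 0] with B hB
    have hB' : (B : ℝ) ≠ 0 := by positivity
    field_simp
  have h6 := h4.add h5
  rw [zero_add] at h6
  refine h6.congr' ?_
  filter_upwards with B
  ring

theorem ps_ramp {c n : ℕ} (hc : c ≤ 210) :
    ∑ p ∈ (range (210 * n + 11)).filter Nat.Prime, ramp (c * n) p * Real.log p =
      psS (c * n) := by
  unfold psS
  have hsub : (range (c * n)).filter Nat.Prime ⊆ (range (210 * n + 11)).filter Nat.Prime := by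
    refine filter_subset_filter _ (range_subset_range.2 ?_)
    have := Nat.mul_le_mul_right n hc
    omega
  rw [← sum_subset hsub]
  · refine sum_congr rfl fun p hp => ?_
    rw [mem_filter, mem_range] at hp
    have h1 : (p : ℝ) ≤ c * n := by exact_mod_cast hp.1.le
    unfold ramp
    rw [max_eq_right (by linarith)]
    push_cast
    ring
  · intro p hp hp'
    rw [mem_filter, mem_range] at hp hp'
    have h1 : c * n ≤ p := by
      by_contra h
      exact hp' ⟨by omega, hp.2⟩
    have h2 : (c : ℝ) * n ≤ p := by exact_mod_cast h1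
    unfold ramp
    rw [max_eq_left (by linarith), zero_mul]

theorem ps_lim (c : ℕ) (hc : 1 ≤ c) : Tendsto (fun n : ℕ => psS (c * n) / (n : ℝ) ^ 2) atTop
    (nhds ((c : ℝ) ^ 2 / 2)) := by
  have h1 : Tendsto (fun n : ℕ => c * n) atTop atTop :=
    tendsto_id.const_mul_atTop' (by omega)
  have h2 := (ps_asymp.comp h1).const_mul ((c : ℝ) ^ 2)
  have e1 : (c : ℝ) ^ 2 * (1 / 2) = (c : ℝ) ^ 2 / 2 := by ring
  rw [e1] at h2
  refine h2.congr' ?_
  filter_upwards [eventually_gt_atTop 0] with n hn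
  have hn' : (n : ℝ) ≠ 0 := by positivity
  have hc' : (c : ℝ) ≠ 0 := by positivity
  simp only [Function.comp_apply]
  push_cast
  field_simp

theorem prime_sum (ε : ℝ) (hε : 0 < ε) : ∃ n0 : ℕ, ∀ n ≥ n0,
    ∑ p ∈ (Finset.range (210 * n + 11)).filter Nat.Prime, (tau n p + 10) * Real.log p ≤
      (5145 + ε) * n ^ 2 := by
  -- the main term
  have hmain : ∀ n : ℕ, ∑ p ∈ (range (210 * n + 11)).filter Nat.Prime,
      (tau n p + 10) * Real.log p =
      1 / 2 * psS (210 * n) + psS (180 * n) - 3 / 2 * psS (170 * n) - 5 / 2 * psS (102 * n)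
        + 9 / 2 * psS (90 * n) - 2 * psS (75 * n) + 10 * Chebyshev.theta ((210 * n + 10 : ℕ) : ℝ) := by
    intro n
    have r1 := ps_ramp (c := 210) (n := n) (by norm_num)
    have r2 := ps_ramp (c := 180) (n := n) (by norm_num)
    have r3 := ps_ramp (c := 170) (n := n) (by norm_num)
    have r4 := ps_ramp (c := 102) (n := n) (by norm_num)
    have r5 := ps_ramp (c := 90) (n := n) (by norm_num)
    have r6 := ps_ramp (c := 75) (n := n) (by norm_num)
    have r7 := ps_theta (210 * n + 10)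
    rw [← r1, ← r2, ← r3, ← r4, ← r5, ← r6, r7]
    rw [mul_sum, mul_sum, mul_sum, mul_sum, mul_sum, mul_sum]
    rw [← sum_add_distrib, ← sum_sub_distrib, ← sum_sub_distrib, ← sum_add_distrib,
      ← sum_sub_distrib, ← sum_add_distrib]
    refine sum_congr rfl fun p _ => ?_
    unfold tau
    push_cast
    ring
  have hlim : Tendsto (fun n : ℕ => (1 / 2 * psS (210 * n) + psS (180 * n) - 3 / 2 * psS (170 * n)
      - 5 / 2 * psS (102 * n) + 9 / 2 * psS (90 * n) - 2 * psS (75 * n)
      + 10 * Chebyshev.theta ((210 * n + 10 : ℕ) : ℝ)) / (n : ℝ) ^ 2) atTop (nhds 5145) := by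
    have t1 := ps_lim 210 (by norm_num)
    have t2 := ps_lim 180 (by norm_num)
    have t3 := ps_lim 170 (by norm_num)
    have t4 := ps_lim 102 (by norm_num)
    have t5 := ps_lim 90 (by norm_num)
    have t6 := ps_lim 75 (by norm_num)
    have t7 : Tendsto (fun n : ℕ => Chebyshev.theta ((210 * n + 10 : ℕ) : ℝ) / (n : ℝ) ^ 2) atTop
        (nhds 0) := by
      have b1 : Tendsto (fun n : ℕ => (Real.log 4 * 220) * (n : ℝ)⁻¹) atTop
          (nhds ((Real.log 4 * 220) * 0)) := tendsto_inv_atTop_nhds_zero_nat.const_mul _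
      rw [mul_zero] at b1
      refine squeeze_zero' ?_ ?_ b1
      · filter_upwards with n
        exact div_nonneg (Chebyshev.theta_nonneg _) (by positivity)
      · filter_upwards [eventually_gt_atTop 0] with n hn
        have hn' : (0 : ℝ) < n := by exact_mod_cast hn
        have hn1 : (1 : ℝ) ≤ n := by exact_mod_cast hn
        have b2 := Chebyshev.theta_le_log4_mul_x (x := ((210 * n + 10 : ℕ) : ℝ)) (by positivity)
        have hlog : 0 ≤ Real.log 4 := Real.log_nonneg (by norm_num)
        have b3 : Real.log 4 * ((210 * n + 10 : ℕ) : ℝ) ≤ Real.log 4 * (220 * n) := by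
          refine mul_le_mul_of_nonneg_left ?_ hlog
          push_cast
          linarith
        rw [div_le_iff₀ (by positivity)]
        have b4 : Real.log 4 * 220 * (n : ℝ)⁻¹ * (n : ℝ) ^ 2 = Real.log 4 * (220 * n) := by
          field_simp
        rw [b4]
        exact b2.trans b3
    have t := ((((((t1.const_mul (1 / 2)).add t2).sub (t3.const_mul (3 / 2))).sub
      (t4.const_mul (5 / 2))).add (t5.const_mul (9 / 2))).sub (t6.const_mul 2)).add
      (t7.const_mul 10)
    have e1 : (1 / 2 * (((210 : ℕ) : ℝ) ^ 2 / 2) + ((180 : ℕ) : ℝ) ^ 2 / 2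
        - 3 / 2 * (((170 : ℕ) : ℝ) ^ 2 / 2) - 5 / 2 * (((102 : ℕ) : ℝ) ^ 2 / 2)
        + 9 / 2 * (((90 : ℕ) : ℝ) ^ 2 / 2) - 2 * (((75 : ℕ) : ℝ) ^ 2 / 2) + 10 * 0) = 5145 := by
      norm_num
    rw [e1] at t
    refine t.congr' ?_
    filter_upwards with n
    ring
  have hev := hlim.eventually (gt_mem_nhds (show (5145 : ℝ) < 5145 + ε by linarith))
  obtain ⟨n0, hn0⟩ := eventually_atTop.1 hev
  refine ⟨max n0 1, fun n hn => ?_⟩
  have hn1 : 1 ≤ n := (le_max_right _ _).trans hn
  have h1 := hn0 n ((le_max_left _ _).trans hn)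
  have hn' : (0 : ℝ) < n := by exact_mod_cast hn1
  rw [div_lt_iff₀ (by positivity)] at h1
  rw [hmain n]
  exact h1.le

end

end Pool.Agent.Lib.PiMu
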