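import Pool.Agent.Lib.PiMu.DetNorm
import Pool.Agent.Lib.PiMu.DetNormSmall
import Pool.Agent.Lib.PiMu.DetNormTwo
import Pool.Agent.Lib.PiMu.DetNormFive
import Pool.Agent.Lib.PiMu.PrimeSum

/-!
# Lower bound for the determinant (module E2, helper75)

The product formula for rational numbers and the norm bounds of module D.
-/

namespace Pool.Agent.Lib.PiMu

open Filter Finset

/-- the product formula, one half -/
theorem ll_product (q : ℚ) (hq : q ≠ 0) (S : Finset ℕ) (hS : ∀ p ∈ S, p.Prime)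
    (hout : ∀ p : ℕ, p.Prime → p ∉ S → padicNorm p q ≤ 1) :
    -∑ p ∈ S, Real.log (padicNorm p q : ℝ) ≤ Real.log |(q : ℝ)| := by
  classical
  have hnum : q.num.natAbs ≠ 0 := by
    rw [Int.natAbs_ne_zero]
    exact Rat.num_ne_zero.2 hq
  have hden : q.den ≠ 0 := q.den_ne_zero
  have hlog : ∀ (N : ℕ) (T : Finset ℕ), N ≠ 0 → N.primeFactors ⊆ T → (∀ p ∈ T, p.Prime) →
      Real.log (N : ℝ) = ∑ p ∈ T, (padicValNat p N : ℝ) * Real.log p := by
    intro N T hN hT hp
    rw [Real.log_nat_eq_sum_factorization, Finsupp.sum, Nat.support_factorization]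
    rw [← sum_subset hT]
    · refine sum_congr rfl fun p hp => ?_
      rw [Nat.factorization_def _ (Nat.prime_of_mem_primeFactors hp)]
    · intro p hpT hpN
      have : padicValNat p N = 0 := by
        rw [← Nat.factorization_def _ (hp p hpT)]
        rw [← Finsupp.notMem_support_iff, Nat.support_factorization]
        exact hpN
      rw [this, Nat.cast_zero, zero_mul]
  obtain ⟨T, hT⟩ : ∃ T : Finset ℕ, T = S ∪ q.num.natAbs.primeFactors ∪ q.den.primeFactors :=
    ⟨_, rfl⟩
  have hTp : ∀ p ∈ T, p.Prime := by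
    intro p hp
    rw [hT, mem_union, mem_union] at hp
    rcases hp with (hp | hp) | hp
    · exact hS p hp
    · exact Nat.prime_of_mem_primeFactors hp
    · exact Nat.prime_of_mem_primeFactors hp
  have h1 := hlog q.num.natAbs T hnum (by
    rw [hT]; exact subset_union_right.trans subset_union_left) hTp
  have h2 := hlog q.den T hden (by rw [hT]; exact subset_union_right) hTp
  have h3 : Real.log |(q : ℝ)| = Real.log (q.num.natAbs : ℝ) - Real.log (q.den : ℝ) := by
    have h4 : |(q : ℝ)| = (q.num.natAbs : ℝ) / (q.den : ℝ) := by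
      have h5 : (q : ℝ) = (q.num : ℝ) / (q.den : ℝ) := by
        exact_mod_cast (Rat.num_div_den q).symm
      rw [h5, abs_div, Nat.abs_cast, Nat.cast_natAbs]
      push_cast
      rfl
    rw [h4, Real.log_div]
    · exact_mod_cast hnum
    · exact_mod_cast hden
  have h5 : ∀ p ∈ T, Real.log (padicNorm p q : ℝ) =
      -(((padicValNat p q.num.natAbs : ℝ) - (padicValNat p q.den : ℝ)) * Real.log p) := by
    intro p hp
    have hpp := hTp p hp
    rw [padicNorm.eq_zpow_of_nonzero hq, Rat.cast_zpow, Rat.cast_natCast, Real.log_zpow]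
    have h6 : padicValRat p q = (padicValNat p q.num.natAbs : ℤ) - (padicValNat p q.den : ℤ) := rfl
    rw [h6, Int.cast_neg, Int.cast_sub, Int.cast_natCast, Int.cast_natCast]
    ring
  have h6 : Real.log |(q : ℝ)| = -∑ p ∈ T, Real.log (padicNorm p q : ℝ) := by
    rw [h3, h1, h2, ← sum_sub_distrib, ← sum_neg_distrib]
    refine sum_congr rfl fun p hp => ?_
    rw [h5 p hp]
    ring
  rw [h6]
  refine neg_le_neg ?_
  have hST : S ⊆ T := by rw [hT]; exact subset_union_left.trans subset_union_left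
  rw [← sum_sdiff hST]
  have h7 : ∑ p ∈ T \ S, Real.log (padicNorm p q : ℝ) ≤ 0 := by
    refine sum_nonpos fun p hp => ?_
    rw [Finset.mem_sdiff] at hp
    refine Real.log_nonpos ?_ ?_
    · exact_mod_cast padicNorm.nonneg q
    · exact_mod_cast hout p (hTp p hp.1) hp.2
  linarith

theorem ll_tau {n : ℕ} {p : ℝ} (hp : p ≤ 75 * n) : tau n p = 30 * n := by
  unfold tau ramp
  have hn : (0 : ℝ) ≤ n := Nat.cast_nonneg n
  rw [max_eq_right (by linarith), max_eq_right (by linarith), max_eq_right (by linarith),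
    max_eq_right (by linarith), max_eq_right (by linarith), max_eq_right (by linarith)]
  ring

/-- lower bound for the determinant -/
theorem log_det_lower (ε : ℝ) (hε : 0 < ε) : ∃ n0 : ℕ, ∀ n ≥ n0, ∀ x y : ℤ, ∀ κ ≤ 2,
    (Mat x y n (30 * n + κ)).det ≠ 0 →
    -(5145 - 2250 * Real.log 2 + 2025 / 2 * Real.log 5 + ε) * n ^ 2 ≤
      Real.log |((Mat x y n (30 * n + κ)).det : ℝ)| := by
  obtain ⟨n1, hn1⟩ := prime_sum (ε / 2) (by linarith)
  -- the error term
  have herr : ∃ n2 : ℕ, ∀ n ≥ n2, 50000 * (n : ℝ) ^ (7 / 4 : ℝ) ≤ ε / 2 * n ^ 2 := by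
    have h1 : Tendsto (fun n : ℕ => (n : ℝ) ^ (-(1 / 4) : ℝ)) atTop (nhds 0) :=
      (tendsto_rpow_neg_atTop (by norm_num : (0 : ℝ) < 1 / 4)).comp tendsto_natCast_atTop_atTop
    have h2 := h1.const_mul (50000 : ℝ)
    rw [mul_zero] at h2
    have h3 := h2.eventually (gt_mem_nhds (show (0 : ℝ) < ε / 2 by linarith))
    obtain ⟨n2, hn2⟩ := eventually_atTop.1 h3
    refine ⟨max n2 1, fun n hn => ?_⟩
    have h4 := hn2 n ((le_max_left _ _).trans hn)
    have hn' : (0 : ℝ) < n := by exact_mod_cast (le_max_right n2 1).trans hn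
    have h5 : (n : ℝ) ^ (7 / 4 : ℝ) = (n : ℝ) ^ (-(1 / 4) : ℝ) * n ^ 2 := by
      rw [← Real.rpow_natCast (n : ℝ) 2, ← Real.rpow_add hn']
      norm_num
    rw [h5, ← mul_assoc]
    exact mul_le_mul_of_nonneg_right h4.le (by positivity)
  obtain ⟨n2, hn2⟩ := herr
  refine ⟨max (max n1 n2) 100, fun n hn x y κ hκ hdet => ?_⟩
  have hnn1 : n1 ≤ n := (le_max_left _ _).trans ((le_max_left _ _).trans hn)
  have hnn2 : n2 ≤ n := (le_max_right _ _).trans ((le_max_left _ _).trans hn)
  have hn100 : 100 ≤ n := (le_max_right _ _).trans hn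
  have hnR : (100 : ℝ) ≤ n := by exact_mod_cast hn100
  have hn0 : (0 : ℝ) < n := by linarith
  obtain ⟨D, hD⟩ : ∃ D : ℚ, D = (Mat x y n (30 * n + κ)).det := ⟨_, rfl⟩
  rw [← hD] at hdet ⊢
  have hκR : (κ : ℝ) ≤ 2 := by exact_mod_cast hκ
  have hκ0 : (0 : ℝ) ≤ κ := Nat.cast_nonneg κ
  -- logarithms
  obtain ⟨R, hR⟩ : ∃ R : ℝ, R = 32 * n * Real.log (10000 * n) := ⟨_, rfl⟩
  have hlogpos : 0 ≤ Real.log (10000 * n) := Real.log_nonneg (by linarith)
  have hR0 : 0 ≤ R := by rw [hR]; positivity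
  have hRle : ∀ B : ℝ, 1 ≤ B → B ≤ 10000 * n → Real.log (B ^ (30 * n + κ)) ≤ R := by
    intro B hB hB'
    rw [Real.log_pow, hR]
    have h1 : Real.log B ≤ Real.log (10000 * n) := Real.log_le_log (by linarith) hB'
    have h2 : ((30 * n + κ : ℕ) : ℝ) ≤ 32 * n := by push_cast; linarith
    exact mul_le_mul h2 h1 (Real.log_nonneg hB) (by positivity)
  have hpos : ∀ p : ℕ, p.Prime → (0 : ℝ) < (padicNorm p D : ℝ) := by
    intro p hp
    have _ := Fact.mk hp
    have h1 : 0 ≤ padicNorm p D := padicNorm.nonneg D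
    have h2 : padicNorm p D ≠ 0 := padicNorm.nonzero hdet
    exact_mod_cast lt_of_le_of_ne h1 h2.symm
  -- bounds for the individual primes
  have hnorm : ∀ p : ℕ, p.Prime → p ≤ 210 * n + 10 → p ≠ 2 → p ≠ 5 →
      Real.log (padicNorm p D : ℝ) ≤
        (tau n p + 10) * Real.log p + if p ^ 2 ≤ 420 * n + 100 then R else 0 := by
    intro p hp hple hp2 hp5
    have _ := Fact.mk hp
    split_ifs with hsm
    · have h1 := det_norm_small hp2 hp5 x y n κ hn100 hκ
      rw [← hD] at h1
      have h2 : Real.log (padicNorm p D : ℝ) ≤ R :=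
        (Real.log_le_log (hpos p hp) h1).trans (hRle (1000 * n) (by linarith) (by linarith))
      have h3 : (p : ℝ) ≤ 75 * n := by
        have h4 : p ^ 2 ≤ (75 * n) ^ 2 := by
          refine hsm.trans ?_
          nlinarith
        have h5 : p ≤ 75 * n := by
          by_contra hcon
          push Not at hcon
          have := Nat.pow_lt_pow_left hcon (n := 2) (by norm_num)
          omega
        exact_mod_cast h5
      have h4 : 0 ≤ (tau n p + 10) * Real.log p := by
        rw [ll_tau h3]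
        refine mul_nonneg (by linarith) (Real.log_nonneg ?_)
        exact_mod_cast hp.one_le
      linarith
    · push Not at hsm
      have h1 := det_norm_mid x y n κ hn100 hκ hsm hple
      rw [← hD] at h1
      have hp0 : (0 : ℝ) < p := by exact_mod_cast hp.pos
      have h2 := Real.log_le_log (hpos p hp) h1
      rw [Real.log_rpow hp0] at h2
      linarith
  have hnorm2 : Real.log (padicNorm 2 D : ℝ) ≤ R + (-(2250 : ℝ) * n ^ 2 + 75 * n) * Real.log 2 := by
    have h1 := det_norm_two x y n κ hn100 hκ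
    rw [← hD] at h1
    have h2 := Real.log_le_log (hpos 2 Nat.prime_two) h1
    rw [Real.log_mul (by positivity) (by positivity), Real.log_rpow (by norm_num)] at h2
    have h3 := hRle (10000 * n) (by linarith) le_rfl
    linarith
  have hnorm5 : Real.log (padicNorm 5 D : ℝ) ≤
      R + ((2025 / 2 : ℝ) * n ^ 2 + 1000 * n) * Real.log 5 := by
    have h1 := det_norm_five x y n κ hn100 hκ
    rw [← hD] at h1
    have h2 := Real.log_le_log (hpos 5 (by norm_num)) h1
    rw [Real.log_mul (by positivity) (by positivity), Real.log_rpow (by norm_num)] at h2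
    have h3 := hRle (10000 * n) (by linarith) le_rfl
    linarith
  obtain ⟨S, hS⟩ : ∃ S : Finset ℕ, S = (range (210 * n + 11)).filter Nat.Prime := ⟨_, rfl⟩
  have hmem : ∀ p, p ∈ S ↔ p < 210 * n + 11 ∧ p.Prime := by
    intro p; rw [hS, mem_filter, mem_range]
  have hprod := ll_product D hdet S (fun p hp => ((hmem p).1 hp).2) (by
    intro p hp hpS
    have _ := Fact.mk hp
    have h1 : 210 * n + 10 < p := by
      by_contra hcon
      exact hpS ((hmem p).2 ⟨by omega, hp⟩)
    have h2 := det_norm_large x y n κ hn100 hκ h1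
    rw [← hD] at h2
    exact h2)
  -- total bound
  have h2S : 2 ∈ S := (hmem 2).2 ⟨by omega, Nat.prime_two⟩
  have h5S : 5 ∈ S.erase 2 := by
    rw [mem_erase]
    exact ⟨by norm_num, (hmem 5).2 ⟨by omega, by norm_num⟩⟩
  have hsum1 : ∑ p ∈ S, Real.log (padicNorm p D : ℝ) =
      Real.log (padicNorm 2 D : ℝ) + (Real.log (padicNorm 5 D : ℝ) +
        ∑ p ∈ (S.erase 2).erase 5, Real.log (padicNorm p D : ℝ)) := by
    rw [← add_sum_erase S _ h2S, ← add_sum_erase (S.erase 2) _ h5S]
  have hsum2 : ∑ p ∈ (S.erase 2).erase 5, Real.log (padicNorm p D : ℝ) ≤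
      ∑ p ∈ (S.erase 2).erase 5, ((tau n p + 10) * Real.log p +
        if p ^ 2 ≤ 420 * n + 100 then R else 0) := by
    refine sum_le_sum fun p hp => ?_
    rw [mem_erase, mem_erase, hmem] at hp
    exact hnorm p hp.2.2.2 (by omega) hp.2.1 hp.1
  have hsum3 : ∑ p ∈ (S.erase 2).erase 5, ((tau n p + 10) * Real.log p +
        if p ^ 2 ≤ 420 * n + 100 then R else 0) ≤
      ∑ p ∈ S, ((tau n p + 10) * Real.log p + if p ^ 2 ≤ 420 * n + 100 then R else 0) := by
    refine sum_le_sum_of_subset_of_nonneg ((erase_subset _ _).trans (erase_subset _ _)) ?_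
    intro p hp hp'
    have hp25 : p = 2 ∨ p = 5 := by
      by_contra hcon
      push Not at hcon
      exact hp' (mem_erase.2 ⟨hcon.2, mem_erase.2 ⟨hcon.1, hp⟩⟩)
    have h1 : (p : ℝ) ≤ 75 * n := by
      rcases hp25 with rfl | rfl <;> push_cast <;> linarith
    have h2 : 0 ≤ (tau n p + 10) * Real.log p := by
      rw [ll_tau h1]
      refine mul_nonneg (by linarith) (Real.log_nonneg ?_)
      rcases hp25 with rfl | rfl <;> norm_num
    split_ifs <;> linarith
  have hsum4 : ∑ p ∈ S, ((tau n p + 10) * Real.log p + if p ^ 2 ≤ 420 * n + 100 then R else 0) ≤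
      (5145 + ε / 2) * n ^ 2 + 30 * Real.sqrt n * R := by
    rw [sum_add_distrib]
    refine add_le_add ?_ ?_
    · rw [hS]
      exact hn1 n hnn1
    · rw [← sum_filter, sum_const, nsmul_eq_mul]
      refine mul_le_mul_of_nonneg_right ?_ hR0
      have h1 : (S.filter (fun p => p ^ 2 ≤ 420 * n + 100)).card ≤ Nat.sqrt (900 * n) := by
        have h2 : S.filter (fun p => p ^ 2 ≤ 420 * n + 100) ⊆ Ioc 0 (Nat.sqrt (900 * n)) := by
          intro p hp
          rw [mem_filter, hmem] at hp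
          rw [mem_Ioc]
          refine ⟨hp.1.2.pos, ?_⟩
          rw [Nat.le_sqrt']
          have := hp.2
          omega
        have h3 := card_le_card h2
        rwa [Nat.card_Ioc, Nat.sub_zero] at h3
      have h2 : ((Nat.sqrt (900 * n) : ℕ) : ℝ) ≤ 30 * Real.sqrt n := by
        have h3 := Real.nat_sqrt_le_real_sqrt (a := 900 * n)
        refine h3.trans (le_of_eq ?_)
        push_cast
        rw [Real.sqrt_mul (by norm_num)]
        have h4 : Real.sqrt 900 = 30 := by
          rw [show (900 : ℝ) = 30 ^ 2 by norm_num]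
          exact Real.sqrt_sq (by norm_num)
        rw [h4]
      refine le_trans ?_ h2
      exact_mod_cast h1
  -- the error
  have hlog4 : Real.log (10000 * n) ≤ 40 * (n : ℝ) ^ (1 / 4 : ℝ) := by
    have h1 := Real.log_le_rpow_div (x := 10000 * n) (by positivity) (by norm_num : (0 : ℝ) < 1 / 4)
    rw [Real.mul_rpow (by norm_num) hn0.le] at h1
    have h2 : (10000 : ℝ) ^ (1 / 4 : ℝ) = 10 := by
      rw [show (10000 : ℝ) = 10 ^ (4 : ℝ) by norm_num, ← Real.rpow_mul (by norm_num)]
      norm_num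
    rw [h2] at h1
    linarith
  obtain ⟨u, hu⟩ : ∃ u : ℝ, u = (n : ℝ) ^ (1 / 4 : ℝ) := ⟨_, rfl⟩
  have hu0 : 0 < u := by rw [hu]; positivity
  have hu4 : u ^ 4 = n := by
    rw [hu, ← Real.rpow_natCast, ← Real.rpow_mul hn0.le]
    norm_num
  have hu1 : 1 ≤ u := by
    by_contra hcon
    push Not at hcon
    have : u ^ 4 < 1 := pow_lt_one₀ hu0.le hcon (by norm_num)
    rw [hu4] at this
    linarith
  have hsq : Real.sqrt n = u ^ 2 := by
    rw [← hu4, show u ^ 4 = (u ^ 2) ^ 2 by ring]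
    exact Real.sqrt_sq (by positivity)
  have hRu : R ≤ 1280 * u ^ 5 := by
    rw [hR]
    rw [← hu] at hlog4
    have h1 : 32 * (n : ℝ) * Real.log (10000 * n) ≤ 32 * n * (40 * u) :=
      mul_le_mul_of_nonneg_left hlog4 (by positivity)
    refine h1.trans (le_of_eq ?_)
    rw [← hu4]; ring
  have h74 : (n : ℝ) ^ (7 / 4 : ℝ) = u ^ 7 := by
    rw [hu, ← Real.rpow_natCast, ← Real.rpow_mul hn0.le]
    norm_num
  have herr2 := hn2 n hnn2
  rw [h74] at herr2
  have hlog2 : Real.log 2 ≤ 1 := by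
    have := Real.log_two_lt_d9
    linarith
  have hlog5 : Real.log 5 ≤ 3 := by
    have h1 := Real.log_le_log (by norm_num : (0 : ℝ) < 5) (by norm_num : (5 : ℝ) ≤ 8)
    have h2 : Real.log 8 = 3 * Real.log 2 := by
      rw [show (8 : ℝ) = 2 ^ 3 by norm_num, Real.log_pow]; norm_num
    have := Real.log_two_lt_d9
    linarith
  have hlog20 : 0 ≤ Real.log 2 := Real.log_nonneg (by norm_num)
  have hlog50 : 0 ≤ Real.log 5 := Real.log_nonneg (by norm_num)
  have hA : 30 * Real.sqrt n * R ≤ 38400 * u ^ 7 := by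
    rw [hsq]
    have h1 : 30 * u ^ 2 * R ≤ 30 * u ^ 2 * (1280 * u ^ 5) :=
      mul_le_mul_of_nonneg_left hRu (by positivity)
    refine h1.trans (le_of_eq ?_)
    ring
  have hu57 : u ^ 5 ≤ u ^ 7 := pow_le_pow_right₀ hu1 (by norm_num)
  have hu47 : (n : ℝ) ≤ u ^ 7 := by
    rw [← hu4]
    exact pow_le_pow_right₀ hu1 (by norm_num)
  have hB : 75 * (n : ℝ) * Real.log 2 ≤ 75 * u ^ 7 := by
    have h1 : 75 * (n : ℝ) * Real.log 2 ≤ 75 * n * 1 :=
      mul_le_mul_of_nonneg_left hlog2 (by positivity)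
    linarith
  have hC : 1000 * (n : ℝ) * Real.log 5 ≤ 3000 * u ^ 7 := by
    have h1 : 1000 * (n : ℝ) * Real.log 5 ≤ 1000 * n * 3 :=
      mul_le_mul_of_nonneg_left hlog5 (by positivity)
    linarith
  have hu7 : 0 ≤ u ^ 7 := by positivity
  have htot : ∑ p ∈ S, Real.log (padicNorm p D : ℝ) ≤
      (5145 - 2250 * Real.log 2 + 2025 / 2 * Real.log 5 + ε) * n ^ 2 := by
    rw [hsum1]
    have h1 := hsum2.trans (hsum3.trans hsum4)
    have h2 : R ≤ 1280 * u ^ 7 := by linarith
    have h3 : 2 * R + 75 * (n : ℝ) * Real.log 2 + 1000 * (n : ℝ) * Real.log 5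
        + 30 * Real.sqrt n * R ≤ ε / 2 * n ^ 2 := by linarith
    have e1 : (-(2250 : ℝ) * n ^ 2 + 75 * n) * Real.log 2 =
        -(2250 * Real.log 2 * n ^ 2) + 75 * n * Real.log 2 := by ring
    have e2 : ((2025 / 2 : ℝ) * n ^ 2 + 1000 * n) * Real.log 5 =
        2025 / 2 * Real.log 5 * n ^ 2 + 1000 * n * Real.log 5 := by ring
    have e3 : (5145 - 2250 * Real.log 2 + 2025 / 2 * Real.log 5 + ε) * (n : ℝ) ^ 2 =
        (5145 + ε / 2) * n ^ 2 + ε / 2 * n ^ 2 - 2250 * Real.log 2 * n ^ 2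
          + 2025 / 2 * Real.log 5 * n ^ 2 := by ring
    rw [e1] at hnorm2
    rw [e2] at hnorm5
    rw [e3]
    linarith
  have e4 : -(5145 - 2250 * Real.log 2 + 2025 / 2 * Real.log 5 + ε) * (n : ℝ) ^ 2 =
      -((5145 - 2250 * Real.log 2 + 2025 / 2 * Real.log 5 + ε) * (n : ℝ) ^ 2) := by ring
  rw [e4]
  linarith

end Pool.Agent.Lib.PiMu
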