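import Mathlib
import Pool.Agent.Lib.PiMu.Defs
import Pool.Agent.Lib.PiMu.Analysis
import Pool.Agent.Lib.PiMu.CertPath
import Pool.Agent.Lib.PiMu.CertCirc

/-!
# PiMu, module H1: the upper bound for the determinant

Rows and columns `P_i = R^⌊i/2⌋ w^(i mod 2)`; the entry `(i,j)` is bounded by
`x C exp (L (a_i + a_j))`, `a_i = ⌊i/2⌋`, with a convex piecewise linear function `L`, hence by
`x C exp (L (2 a_i) / 2) exp (L (2 a_j) / 2)`.
-/

set_option autoImplicit false

namespace Pool.Agent.Lib.PiMu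

open Polynomial

/-! ### numerical logarithms -/

private theorem up_log_three : Real.log 3 ≤ 1.0986125 ∧ 1.0986120 ≤ Real.log 3 := by
  have h2u := Real.log_two_lt_d9
  have h2l := Real.log_two_gt_d9
  have hr : 53 * Real.log 3 = 84 * Real.log 2 + Real.log (3 ^ 53 / 2 ^ 84) := by
    rw [Real.log_div (by positivity) (by positivity), Real.log_pow, Real.log_pow]
    push_cast
    ring
  have h1 : Real.log ((3 : ℝ) ^ 53 / 2 ^ 84) ≤ 3 ^ 53 / 2 ^ 84 - 1 :=
    Real.log_le_sub_one_of_pos (by positivity)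
  have h2 : 1 - ((3 : ℝ) ^ 53 / 2 ^ 84)⁻¹ ≤ Real.log ((3 : ℝ) ^ 53 / 2 ^ 84) :=
    Real.one_sub_inv_le_log_of_pos (by positivity)
  have h3 : (3 : ℝ) ^ 53 / 2 ^ 84 - 1 ≤ 0.0020904 := by norm_num
  have h4 : 0.0020858 ≤ 1 - ((3 : ℝ) ^ 53 / 2 ^ 84)⁻¹ := by norm_num
  constructor <;> linarith

private theorem up_log_five : Real.log 5 ≤ 1.6094397 ∧ 1.6094361 ≤ Real.log 5 := by
  have h2u := Real.log_two_lt_d9
  have h2l := Real.log_two_gt_d9
  have hr : 28 * Real.log 5 = 65 * Real.log 2 + Real.log (5 ^ 28 / 2 ^ 65) := by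
    rw [Real.log_div (by positivity) (by positivity), Real.log_pow, Real.log_pow]
    push_cast
    ring
  have h1 : Real.log ((5 : ℝ) ^ 28 / 2 ^ 65) ≤ 5 ^ 28 / 2 ^ 65 - 1 :=
    Real.log_le_sub_one_of_pos (by positivity)
  have h2 : 1 - ((5 : ℝ) ^ 28 / 2 ^ 65)⁻¹ ≤ Real.log ((5 : ℝ) ^ 28 / 2 ^ 65) :=
    Real.one_sub_inv_le_log_of_pos (by positivity)
  have h3 : (5 : ℝ) ^ 28 / 2 ^ 65 - 1 ≤ 0.0097421 := by norm_num
  have h4 : 0.0096479 ≤ 1 - ((5 : ℝ) ^ 28 / 2 ^ 65)⁻¹ := by norm_num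
  constructor <;> linarith

private theorem up_log30 : Real.log (1 / 30) * 90 ≤ -(3061 / 10) := by
  have h : Real.log (1 / 30) = -(Real.log 2 + Real.log 3 + Real.log 5) := by
    rw [← Real.log_mul (by norm_num) (by norm_num), ← Real.log_mul (by norm_num) (by norm_num),
      ← Real.log_inv]
    norm_num
  have h2l := Real.log_two_gt_d9
  have h3 := up_log_three
  have h5 := up_log_five
  rw [h]
  linarith [h3.2, h5.2]

private theorem up_logc1 : Real.log (192 / 10 ^ 11) * 15 ≤ -(30106 / 100) := by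
  have h : Real.log (192 / 10 ^ 11) = -5 * Real.log 2 + Real.log 3 - 11 * Real.log 5 := by
    have e : (192 / 10 ^ 11 : ℝ) = 3 / (2 ^ 5 * 5 ^ 11) := by norm_num
    rw [e, Real.log_div (by norm_num) (by positivity), Real.log_mul (by positivity) (by positivity),
      Real.log_pow, Real.log_pow]
    push_cast
    ring
  have h2l := Real.log_two_gt_d9
  have h3 := up_log_three
  have h5 := up_log_five
  rw [h]
  linarith [h3.1, h5.2]

private theorem up_logc2 : Real.log (864 / 10 ^ 7) * 30 ≤ -(28068 / 100) := by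
  have h : Real.log (864 / 10 ^ 7) = -2 * Real.log 2 + 3 * Real.log 3 - 7 * Real.log 5 := by
    have e : (864 / 10 ^ 7 : ℝ) = 3 ^ 3 / (2 ^ 2 * 5 ^ 7) := by norm_num
    rw [e, Real.log_div (by positivity) (by positivity),
      Real.log_mul (by positivity) (by positivity), Real.log_pow, Real.log_pow, Real.log_pow]
    push_cast
    ring
  have h2l := Real.log_two_gt_d9
  have h3 := up_log_three
  have h5 := up_log_five
  rw [h]
  linarith [h3.1, h5.2]

private theorem up_logc3 : Real.log (2187 / 100) * 90 ≤ 27767 / 100 := by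
  have h : Real.log (2187 / 100) = 7 * Real.log 3 - 2 * Real.log 2 - 2 * Real.log 5 := by
    have e : (2187 / 100 : ℝ) = 3 ^ 7 / (2 ^ 2 * 5 ^ 2) := by norm_num
    rw [e, Real.log_div (by positivity) (by positivity),
      Real.log_mul (by positivity) (by positivity), Real.log_pow, Real.log_pow, Real.log_pow]
    push_cast
    ring
  have h2l := Real.log_two_gt_d9
  have h3 := up_log_three
  have h5 := up_log_five
  rw [h]
  linarith [h3.1, h5.2]

private theorem up_logc4 : Real.log 56250000 * 30 ≤ 53537 / 100 := by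
  have h : Real.log 56250000 = 2 * Real.log 3 + 4 * Real.log 2 + 8 * Real.log 5 := by
    have e : (56250000 : ℝ) = 3 ^ 2 * 2 ^ 4 * 5 ^ 8 := by norm_num
    rw [e, Real.log_mul (by positivity) (by positivity),
      Real.log_mul (by positivity) (by positivity), Real.log_pow, Real.log_pow, Real.log_pow]
    push_cast
    ring
  have h2u := Real.log_two_lt_d9
  have h3 := up_log_three
  have h5 := up_log_five
  rw [h]
  linarith [h3.1, h5.1]

/-! ### the convex function -/

/-- convex piecewise linear function -/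
private noncomputable def upL (n t : ℝ) : ℝ :=
  max (max (-(3061 / 10) * n + 336 / 1000 * t) (-(32142 / 100) * n + 1358 / 1000 * t))
    (-(50533 / 100) * n + 859 / 100 * t)

private theorem upL_mid (n s t : ℝ) : upL n (s + t) ≤ (upL n (2 * s) + upL n (2 * t)) / 2 := by
  have a1 : ∀ t, -(3061 / 10) * n + 336 / 1000 * t ≤ upL n t := fun t =>
    le_trans (le_max_left _ _) (le_max_left _ _)
  have a2 : ∀ t, -(32142 / 100) * n + 1358 / 1000 * t ≤ upL n t := fun t =>
    le_trans (le_max_right _ _) (le_max_left _ _)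
  have a3 : ∀ t, -(50533 / 100) * n + 859 / 100 * t ≤ upL n t := fun t => le_max_right _ _
  refine max_le (max_le ?_ ?_) ?_
  · linarith [a1 (2 * s), a1 (2 * t)]
  · linarith [a2 (2 * s), a2 (2 * t)]
  · linarith [a3 (2 * s), a3 (2 * t)]

private theorem upL_mono (n : ℝ) : Monotone (upL n) := by
  intro s t hst
  refine max_le_max (max_le_max ?_ ?_) ?_ <;> linarith

private theorem up_pow {c : ℝ} (hc : 0 < c) (k : ℕ) : c ^ k = Real.exp (k * Real.log c) := by
  rw [Real.exp_nat_mul, Real.exp_log hc]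

private theorem up_path {Z R : ℝ} (hZ0 : 0 ≤ Z) (hR0 : 0 ≤ R) (h0 : Z ≤ 1 / 30)
    (h1 : Z ^ 6 * R ≤ 192 / 10 ^ 11) (h2 : Z ^ 3 * R ≤ 864 / 10 ^ 7) {n a : ℕ}
    (ha : a ≤ 30 * n) : Z ^ (90 * n) * R ^ a ≤ Real.exp (upL n a) := by
  have hl0 := up_log30
  have hl1 := up_logc1
  have hl2 := up_logc2
  rcases Nat.le_total a (15 * n) with h | h
  · have e : Z ^ (90 * n) * R ^ a = Z ^ (90 * n - 6 * a) * (Z ^ 6 * R) ^ a := by
      rw [mul_pow, ← pow_mul, ← mul_assoc, ← pow_add]
      congr 2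
      omega
    have b1 : Z ^ (90 * n - 6 * a) ≤ (1 / 30) ^ (90 * n - 6 * a) := pow_le_pow_left₀ hZ0 h0 _
    have b2 : (Z ^ 6 * R) ^ a ≤ (192 / 10 ^ 11) ^ a := pow_le_pow_left₀ (by positivity) h1 _
    rw [e]
    refine (mul_le_mul b1 b2 (by positivity) (by positivity)).trans ?_
    rw [up_pow (by norm_num) (90 * n - 6 * a), up_pow (by norm_num) a, ← Real.exp_add,
      Real.exp_le_exp, Nat.cast_sub (by omega)]
    refine le_trans ?_ (le_trans (le_max_left _ _) (le_max_left _ _))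
    have ha' : (a : ℝ) ≤ 15 * n := by exact_mod_cast h
    have ha0 : (0 : ℝ) ≤ a := Nat.cast_nonneg a
    push_cast
    nlinarith [mul_le_mul_of_nonneg_left hl0 (sub_nonneg.mpr ha'),
      mul_le_mul_of_nonneg_left hl1 ha0]
  · have e : Z ^ (90 * n) * R ^ a = (Z ^ 6 * R) ^ (30 * n - a) * (Z ^ 3 * R) ^ (2 * a - 30 * n) := by
      rw [mul_pow, mul_pow, ← pow_mul, ← pow_mul]
      rw [show Z ^ (6 * (30 * n - a)) * R ^ (30 * n - a) * (Z ^ (3 * (2 * a - 30 * n))
        * R ^ (2 * a - 30 * n)) = (Z ^ (6 * (30 * n - a)) * Z ^ (3 * (2 * a - 30 * n)))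
        * (R ^ (30 * n - a) * R ^ (2 * a - 30 * n)) by ring, ← pow_add, ← pow_add]
      congr 2 <;> omega
    have b1 : (Z ^ 6 * R) ^ (30 * n - a) ≤ (192 / 10 ^ 11) ^ (30 * n - a) :=
      pow_le_pow_left₀ (by positivity) h1 _
    have b2 : (Z ^ 3 * R) ^ (2 * a - 30 * n) ≤ (864 / 10 ^ 7) ^ (2 * a - 30 * n) :=
      pow_le_pow_left₀ (by positivity) h2 _
    rw [e]
    refine (mul_le_mul b1 b2 (by positivity) (by positivity)).trans ?_
    rw [up_pow (by norm_num) (30 * n - a), up_pow (by norm_num) (2 * a - 30 * n), ← Real.exp_add,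
      Real.exp_le_exp, Nat.cast_sub ha, Nat.cast_sub (by omega)]
    refine le_trans ?_ (le_trans (le_max_right _ _) (le_max_left _ _))
    have ha' : 15 * (n : ℝ) ≤ a := by exact_mod_cast h
    have ha2 : (a : ℝ) ≤ 30 * n := by exact_mod_cast ha
    push_cast
    nlinarith [mul_le_mul_of_nonneg_left hl1 (sub_nonneg.mpr ha2),
      mul_le_mul_of_nonneg_left hl2 (sub_nonneg.mpr ha')]

private theorem up_circ {Z R : ℝ} (hZ0 : 0 ≤ Z) (hR0 : 0 ≤ R) (h0 : Z ≤ 2187 / 100)
    (h1 : Z ^ 3 * R ≤ 56250000) {n a : ℕ} (ha : a ≤ 30 * n) :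
    Real.exp (-(783 * n)) * (Z ^ (90 * n) * R ^ a) ≤ Real.exp (upL n a) := by
  have hl0 := up_logc3
  have hl1 := up_logc4
  have e : Z ^ (90 * n) * R ^ a = Z ^ (90 * n - 3 * a) * (Z ^ 3 * R) ^ a := by
    rw [mul_pow, ← pow_mul, ← mul_assoc, ← pow_add]
    congr 2
    omega
  have b1 : Z ^ (90 * n - 3 * a) ≤ (2187 / 100) ^ (90 * n - 3 * a) := pow_le_pow_left₀ hZ0 h0 _
  have b2 : (Z ^ 3 * R) ^ a ≤ 56250000 ^ a := pow_le_pow_left₀ (by positivity) h1 _
  rw [e]
  refine (mul_le_mul_of_nonneg_left (mul_le_mul b1 b2 (by positivity) (by positivity))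
    (Real.exp_pos _).le).trans ?_
  rw [up_pow (by norm_num) (90 * n - 3 * a), up_pow (by norm_num) a, ← Real.exp_add,
    ← Real.exp_add, Real.exp_le_exp, Nat.cast_sub (by omega)]
  refine le_trans ?_ (le_max_right _ _)
  have ha' : (a : ℝ) ≤ 30 * n := by exact_mod_cast ha
  have ha0 : (0 : ℝ) ≤ a := Nat.cast_nonneg a
  push_cast
  nlinarith [mul_le_mul_of_nonneg_left hl0 (sub_nonneg.mpr ha'),
    mul_le_mul_of_nonneg_left hl1 ha0]

/-! ### the polynomials -/

private noncomputable def upR : ℚ[X] := wp ^ 2 + C 4 * wp + C (11 / 2)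

private noncomputable def upP (i : ℕ) : ℚ[X] := upR ^ (i / 2) * (X - C 25) ^ (i % 2)

private theorem upR_monic : upR.Monic ∧ upR.natDegree = 2 := by
  have h : upR = X ^ 2 + (C (-54) * X + C (1461 / 2)) := by
    have e1 : (C (1461 / 2) : ℚ[X]) = C 625 + C 100 + C (11 / 2) := by
      rw [← C_add, ← C_add]
      norm_num
    unfold upR wp
    rw [e1]
    simp only [map_neg, map_ofNat]
    ring
  have hd : (C (-54) * X + C (1461 / 2) : ℚ[X]).degree < ((2 : ℕ) : WithBot ℕ) := by
    refine lt_of_le_of_lt degree_linear_le ?_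
    exact_mod_cast (by norm_num : (1 : ℕ) < 2)
  refine ⟨by rw [h]; exact monic_X_pow_add hd, ?_⟩
  rw [h, natDegree_add_eq_left_of_degree_lt, natDegree_X_pow]
  rw [degree_X_pow]
  exact hd

private theorem upP_monic (i : ℕ) : (upP i).Monic :=
  (upR_monic.1.pow _).mul ((monic_X_sub_C 25).pow _)

private theorem upP_natDegree (i : ℕ) : (upP i).natDegree = i := by
  unfold upP
  rw [Monic.natDegree_mul (upR_monic.1.pow _) ((monic_X_sub_C 25).pow _),
    Monic.natDegree_pow upR_monic.1, Monic.natDegree_pow (monic_X_sub_C 25), upR_monic.2,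
    natDegree_X_sub_C]
  omega

private theorem up_eval_wp (z : ℂ) : (wp.map (algebraMap ℚ ℂ)).eval (25 - z ^ 2) = z ^ 2 := by
  unfold wp
  simp

private theorem up_eval_qp (z : ℂ) : (qp.map (algebraMap ℚ ℂ)).eval (25 - z ^ 2)
    = (z ^ 2) ^ 2 + 6 * z ^ 2 + 25 := by
  unfold qp
  simp
  ring

private theorem up_eval_P (i : ℕ) (z : ℂ) : ((upP i).map (algebraMap ℚ ℂ)).eval (25 - z ^ 2)
    = Rf z ^ (i / 2) * (-z ^ 2) ^ (i % 2) := by
  have hR : (upR.map (algebraMap ℚ ℂ)).eval (25 - z ^ 2) = Rf z := by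
    unfold upR Rf
    rw [Polynomial.map_add, Polynomial.map_add, Polynomial.map_mul, Polynomial.map_pow, eval_add,
      eval_add, eval_mul, eval_pow, up_eval_wp]
    simp
  have hX : ((X - C 25 : ℚ[X]).map (algebraMap ℚ ℂ)).eval (25 - z ^ 2) = -z ^ 2 := by
    simp
  unfold upP
  rw [Polynomial.map_mul, Polynomial.map_pow, Polynomial.map_pow, eval_mul, eval_pow, eval_pow,
    hR, hX]

private theorem up_norm_eval (n i j : ℕ) {z : ℂ} (hz : 25 - z ^ 2 ≠ 0) :
    ‖((Wp n * upP i * upP j).map (algebraMap ℚ ℂ)).eval (25 - z ^ 2)‖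
      = ‖Zf z‖ ^ (90 * n) * ‖Rf z‖ ^ (i / 2 + j / 2) * (‖z‖ ^ 2) ^ (i % 2 + j % 2)
        * ‖25 - z ^ 2‖ ^ (180 * n) := by
  have hZ : z * ((z ^ 2) ^ 2 + 6 * z ^ 2 + 25) = Zf z * (25 - z ^ 2) ^ 2 := by
    unfold Zf
    field_simp
  have hW : ((Wp n).map (algebraMap ℚ ℂ)).eval (25 - z ^ 2)
      = Zf z ^ (90 * n) * (25 - z ^ 2) ^ (180 * n) := by
    unfold Wp
    rw [Polynomial.map_mul, Polynomial.map_pow, Polynomial.map_pow, eval_mul, eval_pow, eval_pow,
      up_eval_wp, up_eval_qp, ← pow_mul, show 2 * (45 * n) = 90 * n by ring, ← mul_pow, hZ,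
      mul_pow, ← pow_mul, show 2 * (90 * n) = 180 * n by ring]
  rw [Polynomial.map_mul, Polynomial.map_mul, eval_mul, eval_mul, hW, up_eval_P, up_eval_P]
  simp only [norm_mul, norm_pow, norm_neg]
  rw [pow_add, pow_add]
  ring

private theorem up_path_ne {z : ℂ} (hz : OnPath z) : 25 - z ^ 2 ≠ 0 := by
  have := ana_V_ne_S (ana_onPath_S hz)
  exact this

private theorem up_circ_ne {z : ℂ} (hz : ‖z - 5‖ = 7 / 2) : 25 - z ^ 2 ≠ 0 := by
  have := ana_circ_ne hz
  exact this

private theorem up_path_norm {z : ℂ} (hz : OnPath z) : ‖z‖ ^ 2 ≤ 5 := by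
  rw [← Complex.normSq_eq_norm_sq, Complex.normSq_apply]
  rcases hz with ⟨u, h0, h1, rfl⟩ | ⟨u, h0, h1, rfl⟩
  · simp
    nlinarith
  · simp
    nlinarith

private theorem up_circ_norm {z : ℂ} (hz : ‖z - 5‖ = 7 / 2) : ‖z‖ ^ 2 ≤ 73 := by
  have h1 : ‖z‖ ≤ ‖z - 5‖ + ‖(5 : ℂ)‖ := by
    have := norm_add_le (z - 5) 5
    rwa [sub_add_cancel] at this
  have h2 : ‖(5 : ℂ)‖ = 5 := by simp
  rw [hz, h2] at h1
  have h0 := norm_nonneg z
  nlinarith

private theorem up_entry {x y : ℤ} {n i j : ℕ} (hx : 1 ≤ x)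
    (hπ : |Real.pi - (y : ℝ) / x| ≤ Real.exp (-(783 * n))) (ha : i / 2 + j / 2 ≤ 30 * n) :
    |(lam x y (180 * n) (Wp n * upP i * upP j) : ℝ)|
      ≤ 5379 * x * Real.exp (upL n ((i / 2 + j / 2 : ℕ) : ℝ)) := by
  have hx0 : (0 : ℝ) < x := by exact_mod_cast (by omega : (0 : ℤ) < x)
  have hmod : i % 2 + j % 2 ≤ 2 := by omega
  have key := lam_bound x y (180 * n) (Wp n * upP i * upP j)
    (25 * Real.exp (upL n ((i / 2 + j / 2 : ℕ) : ℝ)))
    (5329 * (Real.exp (783 * n) * Real.exp (upL n ((i / 2 + j / 2 : ℕ) : ℝ))))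
    (by positivity) (by positivity) ?_ ?_
  · have h1 : |(y : ℝ) - Real.pi * x| ≤ x * Real.exp (-(783 * n)) := by
      have : (y : ℝ) - Real.pi * x = -(x * (Real.pi - (y : ℝ) / x)) := by
        field_simp
        ring
      rw [this, abs_neg, abs_mul, abs_of_pos hx0]
      exact mul_le_mul_of_nonneg_left hπ hx0.le
    have h2 : |(x : ℝ)| = x := abs_of_pos hx0
    have h3 : Real.exp (-(783 * (n : ℝ))) * Real.exp (783 * n) = 1 := by
      rw [← Real.exp_add]
      simp
    rw [h2] at key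
    refine key.trans ?_
    have h4 : |(y : ℝ) - Real.pi * x| * (5329 * (Real.exp (783 * n)
        * Real.exp (upL n ((i / 2 + j / 2 : ℕ) : ℝ))))
        ≤ x * Real.exp (-(783 * n)) * (5329 * (Real.exp (783 * n)
        * Real.exp (upL n ((i / 2 + j / 2 : ℕ) : ℝ)))) :=
      mul_le_mul_of_nonneg_right h1 (by positivity)
    have h5 : x * Real.exp (-(783 * n)) * (5329 * (Real.exp (783 * n)
        * Real.exp (upL n ((i / 2 + j / 2 : ℕ) : ℝ))))
        = 5329 * x * Real.exp (upL n ((i / 2 + j / 2 : ℕ) : ℝ)) := by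
      linear_combination (5329 * x * Real.exp (upL n ((i / 2 + j / 2 : ℕ) : ℝ))) * h3
    rw [h5] at h4
    linarith
  · intro z hz
    rw [up_norm_eval n i j (up_path_ne hz)]
    refine mul_le_mul_of_nonneg_right ?_ (by positivity)
    have b1 := up_path (norm_nonneg (Zf z)) (norm_nonneg (Rf z)) (path_cert0 z hz)
      (path_cert1 z hz) (path_cert2 z hz) ha
    have b2 : (‖z‖ ^ 2) ^ (i % 2 + j % 2) ≤ 25 := by
      refine (pow_le_pow_left₀ (by positivity) (up_path_norm hz) _).trans ?_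
      refine (pow_le_pow_right₀ (by norm_num) hmod).trans (by norm_num)
    rw [mul_comm (25 : ℝ)]
    exact mul_le_mul b1 b2 (by positivity) (Real.exp_pos _).le
  · intro z hz
    rw [up_norm_eval n i j (up_circ_ne hz)]
    refine mul_le_mul_of_nonneg_right ?_ (by positivity)
    have b1 := up_circ (norm_nonneg (Zf z)) (norm_nonneg (Rf z)) (circ_cert0 z hz)
      (circ_cert1 z hz) ha
    have b2 : (‖z‖ ^ 2) ^ (i % 2 + j % 2) ≤ 5329 := by
      refine (pow_le_pow_left₀ (by positivity) (up_circ_norm hz) _).trans ?_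
      refine (pow_le_pow_right₀ (by norm_num) hmod).trans (by norm_num)
    have b3 : ‖Zf z‖ ^ (90 * n) * ‖Rf z‖ ^ (i / 2 + j / 2)
        ≤ Real.exp (783 * n) * Real.exp (upL n ((i / 2 + j / 2 : ℕ) : ℝ)) := by
      have h3 : Real.exp (783 * (n : ℝ)) * Real.exp (-(783 * n)) = 1 := by
        rw [← Real.exp_add]
        simp
      have := mul_le_mul_of_nonneg_left b1 (Real.exp_pos (783 * (n : ℝ))).le
      rwa [← mul_assoc, h3, one_mul] at this
    rw [mul_comm (5329 : ℝ)]
    exact mul_le_mul b3 b2 (by positivity) (by positivity)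

/-! ### the sum of the exponents -/

private theorem upL_cont (n : ℝ) : Continuous (upL n) := by
  unfold upL
  fun_prop

private theorem up_int_affine (p s a b : ℝ) :
    ∫ t in a..b, (p + s * t) = p * (b - a) + s * (b ^ 2 - a ^ 2) / 2 := by
  have i1 : IntervalIntegrable (fun _ : ℝ => p) MeasureTheory.volume a b :=
    continuous_const.intervalIntegrable a b
  have i2 : IntervalIntegrable (fun t : ℝ => s * t) MeasureTheory.volume a b := by
    apply Continuous.intervalIntegrable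
    fun_prop
  rw [intervalIntegral.integral_add i1 i2,
    intervalIntegral.integral_const, intervalIntegral.integral_const_mul, integral_id, smul_eq_mul]
  ring

private theorem up_int_le {n a b p s : ℝ} (hab : a ≤ b)
    (h : ∀ t ∈ Set.Icc a b, upL n t ≤ p + s * t) :
    ∫ t in a..b, upL n t ≤ p * (b - a) + s * (b ^ 2 - a ^ 2) / 2 := by
  rw [← up_int_affine]
  exact intervalIntegral.integral_mono_on hab ((upL_cont n).intervalIntegrable _ _)
    (by apply Continuous.intervalIntegrable; fun_prop) h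

private theorem up_integral {n : ℝ} (hn : 0 ≤ n) :
    ∫ t in (0 : ℝ)..(30 * n), upL n t ≤ -(88405 / 10) * n ^ 2 := by
  have hi : ∀ a b, IntervalIntegrable (upL n) MeasureTheory.volume a b := fun a b =>
    (upL_cont n).intervalIntegrable a b
  rw [← intervalIntegral.integral_add_adjacent_intervals (hi 0 (127 / 5 * n)) (hi _ _),
    ← intervalIntegral.integral_add_adjacent_intervals (hi 0 (15 * n)) (hi _ _)]
  have h1 := up_int_le (n := n) (a := 0) (b := 15 * n) (p := -(30609 / 100) * n)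
    (s := 336 / 1000) (by linarith) (by
      rintro t ⟨h0, h1⟩
      refine max_le (max_le ?_ ?_) ?_ <;> linarith)
  have h2 := up_int_le (n := n) (a := 15 * n) (b := 127 / 5 * n) (p := -(32142 / 100) * n)
    (s := 1358 / 1000) (by linarith) (by
      rintro t ⟨h0, h1⟩
      refine max_le (max_le ?_ ?_) ?_ <;> linarith)
  have h3 := up_int_le (n := n) (a := 127 / 5 * n) (b := 30 * n) (p := -(5039134 / 10000) * n)
    (s := 854278 / 100000) (by linarith) (by
      rintro t ⟨h0, h1⟩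
      refine max_le (max_le ?_ ?_) ?_ <;> linarith)
  nlinarith [sq_nonneg n]

private theorem up_sum {n κ : ℕ} (hκ : κ ≤ 2) :
    ∑ i ∈ Finset.range (30 * n + κ), upL n (2 * ((i / 2 : ℕ) : ℝ)) ≤ -(88405 / 10) * (n : ℝ) ^ 2 := by
  have hn : (0 : ℝ) ≤ n := Nat.cast_nonneg n
  rw [Finset.sum_range_add]
  have h1 : ∑ i ∈ Finset.range (30 * n), upL n (2 * ((i / 2 : ℕ) : ℝ))
      ≤ ∑ i ∈ Finset.range (30 * n), upL n (0 + (i : ℝ)) := by
    refine Finset.sum_le_sum fun i _ => upL_mono n ?_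
    rw [zero_add]
    exact_mod_cast Nat.mul_div_le i 2
  have h2 : ∑ i ∈ Finset.range (30 * n), upL n (0 + (i : ℝ))
      ≤ ∫ t in (0 : ℝ)..(0 + ((30 * n : ℕ) : ℝ)), upL n t :=
    ((upL_mono n).monotoneOn _).sum_le_integral
  have h3 : ((30 * n : ℕ) : ℝ) = 30 * n := by push_cast; ring
  rw [h3, zero_add] at h2
  have h4 : ∑ x ∈ Finset.range κ, upL n (2 * (((30 * n + x) / 2 : ℕ) : ℝ)) ≤ 0 := by
    refine Finset.sum_nonpos fun x hx => ?_
    have hx' := Finset.mem_range.mp hx
    have h5 : (30 * n + x) / 2 = 15 * n := by omega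
    rw [h5]
    push_cast
    refine max_le (max_le ?_ ?_) ?_ <;> linarith
  linarith [up_integral hn]

/-! ### the determinant -/

private theorem up_basis {K : ℕ} (l : ℚ[X] →ₗ[ℚ] ℚ) (g : ℕ → ℚ[X]) (hm : ∀ i, (g i).Monic)
    (hd : ∀ i, (g i).natDegree = i) :
    (Matrix.of fun i j : Fin K => l (g i * g j)).det =
      (Matrix.of fun i j : Fin K => l (X ^ ((i : ℕ) + (j : ℕ)))).det := by
  have hexp : ∀ i : Fin K, g i = ∑ k : Fin K, C ((g i).coeff k) * X ^ (k : ℕ) := by
    intro i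
    conv_lhs => rw [(g i).as_sum_range' K (by rw [hd]; exact i.2)]
    rw [Finset.sum_range]
    refine Finset.sum_congr rfl fun k _ => ?_
    rw [C_mul_X_pow_eq_monomial]
  have h : (Matrix.of fun i j : Fin K => l (g i * g j)) =
      (Matrix.of fun i k : Fin K => (g i).coeff k) *
        (Matrix.of fun i j : Fin K => l (X ^ ((i : ℕ) + (j : ℕ)))) *
        (Matrix.of fun i k : Fin K => (g i).coeff k).transpose := by
    ext i j
    rw [Matrix.mul_apply]
    simp only [Matrix.mul_apply, Matrix.of_apply, Matrix.transpose_apply]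
    conv_lhs => rw [hexp i, hexp j, Finset.mul_sum, map_sum]
    refine Finset.sum_congr rfl fun m _ => ?_
    rw [Finset.sum_mul, Finset.sum_mul, map_sum]
    refine Finset.sum_congr rfl fun k _ => ?_
    have : C ((g i).coeff k) * X ^ (k : ℕ) * (C ((g j).coeff m) * X ^ (m : ℕ))
        = C ((g i).coeff k * (g j).coeff m) * X ^ ((k : ℕ) + (m : ℕ)) := by
      rw [C_mul, pow_add]
      ring
    rw [this, ← smul_eq_C_mul, map_smul, smul_eq_mul]
    ring
  have h2 : (Matrix.of fun i k : Fin K => (g i).coeff k).det = 1 := by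
    rw [Matrix.det_of_lowerTriangular]
    · refine Finset.prod_eq_one fun i _ => ?_
      rw [Matrix.of_apply]
      have := hm i
      rw [Monic, leadingCoeff, hd] at this
      exact this
    · intro i j hij
      rw [Matrix.of_apply]
      refine coeff_eq_zero_of_natDegree_lt ?_
      rw [hd]
      exact hij
  rw [h, Matrix.det_mul, Matrix.det_mul, Matrix.det_transpose, h2, one_mul, mul_one]

private theorem up_det_le {K : ℕ} (M : Matrix (Fin K) (Fin K) ℝ) (b : Fin K → ℝ)
    (hb : ∀ i, 0 ≤ b i) (h : ∀ i j, |M i j| ≤ b i * b j) :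
    |M.det| ≤ (K.factorial : ℝ) * ∏ i, (b i * b i) := by
  rw [Matrix.det_apply]
  refine (Finset.abs_sum_le_sum_abs _ _).trans ?_
  have h1 : ∀ σ ∈ (Finset.univ : Finset (Equiv.Perm (Fin K))),
      |Equiv.Perm.sign σ • ∏ i, M (σ i) i| ≤ ∏ i, (b i * b i) := by
    intro σ _
    have h2 : |Equiv.Perm.sign σ • ∏ i, M (σ i) i| = ∏ i, |M (σ i) i| := by
      rw [← Finset.abs_prod]
      rcases Int.units_eq_one_or (Equiv.Perm.sign σ) with h | h
      · rw [h, one_smul]
      · rw [h, Units.smul_def, Units.val_neg, Units.val_one, neg_smul, one_smul, abs_neg]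
    rw [h2]
    refine (Finset.prod_le_prod (fun i _ => abs_nonneg _) (fun i _ => h (σ i) i)).trans ?_
    rw [Finset.prod_mul_distrib, Finset.prod_mul_distrib, Equiv.prod_comp σ b]
  refine (Finset.sum_le_sum h1).trans (le_of_eq ?_)
  rw [Finset.sum_const, Finset.card_univ, Fintype.card_perm, Fintype.card_fin, nsmul_eq_mul]

private theorem up_log_fact (K : ℕ) : Real.log (K.factorial : ℝ) ≤ K * Real.log K := by
  rw [← Real.log_pow]
  refine Real.log_le_log (by exact_mod_cast K.factorial_pos) ?_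
  exact_mod_cast Nat.factorial_le_pow K

theorem log_det_upper (ε : ℝ) (hε : 0 < ε) : ∃ n0 : ℕ, ∀ n ≥ n0, ∀ x y : ℤ, 1 ≤ x → ∀ κ ≤ 2,
    |Real.pi - (y : ℝ) / x| ≤ Real.exp (-(783 * n)) →
    (Mat x y n (30 * n + κ)).det ≠ 0 →
    Real.log |((Mat x y n (30 * n + κ)).det : ℝ)| ≤
      (30 * n + κ) * Real.log x + (-8840 + ε) * n ^ 2 := by
  set D : ℝ := Real.log 32 + Real.log 5379 + Real.log 1000 with hD
  have hD0 : 0 ≤ D := by
    have h1 : 0 ≤ Real.log 32 := Real.log_nonneg (by norm_num)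
    have h2 : 0 ≤ Real.log 5379 := Real.log_nonneg (by norm_num)
    have h3 : 0 ≤ Real.log 1000 := Real.log_nonneg (by norm_num)
    linarith
  obtain ⟨n1, hn1⟩ := exists_nat_ge (100 * D)
  refine ⟨n1 + 1, fun n hn x y hx κ hκ hπ hne => ?_⟩
  have hnD : 100 * D ≤ n := hn1.trans (by exact_mod_cast (by omega : n1 ≤ n))
  have hnpos : (1 : ℝ) ≤ n := by exact_mod_cast (by omega : 1 ≤ n)
  have hx0 : (0 : ℝ) < x := by exact_mod_cast (by omega : (0 : ℤ) < x)
  set K := 30 * n + κ with hK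
  have hKn : (K : ℝ) ≤ 32 * n := by
    have : K ≤ 32 * n := by omega
    exact_mod_cast this
  have hK0 : (0 : ℝ) < K := by
    have : 0 < K := by omega
    exact_mod_cast this
  have hdet : (Mat x y n K).det
      = (Matrix.of fun i j : Fin K => lam x y (180 * n) (Wp n * upP i * upP j)).det := by
    have h := up_basis (K := K) ((lam x y (180 * n)).comp (LinearMap.mulLeft ℚ (Wp n))) upP
      upP_monic upP_natDegree
    have e1 : (Matrix.of fun i j : Fin K => ((lam x y (180 * n)).comp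
        (LinearMap.mulLeft ℚ (Wp n))) (X ^ ((i : ℕ) + (j : ℕ)))) = Mat x y n K := rfl
    have e2 : (Matrix.of fun i j : Fin K => ((lam x y (180 * n)).comp
        (LinearMap.mulLeft ℚ (Wp n))) (upP i * upP j))
        = (Matrix.of fun i j : Fin K => lam x y (180 * n) (Wp n * upP i * upP j)) := by
      ext i j
      simp only [Matrix.of_apply, LinearMap.comp_apply, LinearMap.mulLeft_apply, mul_assoc]
    rw [e1, e2] at h
    exact h.symm
  set M : Matrix (Fin K) (Fin K) ℝ := (Rat.castHom ℝ).mapMatrix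
    (Matrix.of fun i j : Fin K => lam x y (180 * n) (Wp n * upP i * upP j)) with hM
  have hdetR : ((Mat x y n K).det : ℝ) = M.det := by
    rw [hM, ← RingHom.map_det, ← hdet]
    rfl
  set b : Fin K → ℝ := fun i => Real.sqrt (5379 * x) * Real.exp (upL n (2 * (((i : ℕ) / 2 : ℕ) : ℝ)) / 2)
    with hb
  have hbb : ∀ i j : Fin K, b i * b j = 5379 * x * Real.exp ((upL n (2 * (((i : ℕ) / 2 : ℕ) : ℝ))
      + upL n (2 * (((j : ℕ) / 2 : ℕ) : ℝ))) / 2) := by
    intro i j
    have h1 : Real.sqrt (5379 * x) * Real.sqrt (5379 * x) = 5379 * x :=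
      Real.mul_self_sqrt (by positivity)
    rw [add_div, Real.exp_add, hb]
    simp only
    rw [← h1]
    have h2 : Real.sqrt (Real.sqrt (5379 * x) * Real.sqrt (5379 * x)) = Real.sqrt (5379 * x) := by
      rw [h1]
    rw [h2]
    ring
  have hent : ∀ i j, |M i j| ≤ b i * b j := by
    intro i j
    have hij : (i : ℕ) / 2 + (j : ℕ) / 2 ≤ 30 * n := by
      have := i.2
      have := j.2
      omega
    have h1 := up_entry (x := x) (y := y) (n := n) (i := i) (j := j) hx hπ hij
    have h2 : M i j = (lam x y (180 * n) (Wp n * upP i * upP j) : ℝ) := rfl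
    rw [h2, hbb]
    refine h1.trans (mul_le_mul_of_nonneg_left ?_ (by positivity))
    rw [Real.exp_le_exp]
    push_cast
    exact upL_mid n _ _
  have h1 := up_det_le M b (fun i => by positivity) hent
  rw [← hdetR] at h1
  have h2 : ∏ i, (b i * b i) = (5379 * x) ^ K
      * Real.exp (∑ i ∈ Finset.range K, upL n (2 * ((i / 2 : ℕ) : ℝ))) := by
    rw [Finset.sum_range (fun i => upL n (2 * ((i / 2 : ℕ) : ℝ))), Real.exp_sum]
    have h3 : ∀ i ∈ (Finset.univ : Finset (Fin K)), b i * b i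
        = 5379 * x * Real.exp (upL n (2 * (((i : ℕ) / 2 : ℕ) : ℝ))) := by
      intro i _
      rw [hbb, add_self_div_two]
    rw [Finset.prod_congr rfl h3, Finset.prod_mul_distrib, Finset.prod_const, Finset.card_univ,
      Fintype.card_fin]
  have hdpos : 0 < |((Mat x y n K).det : ℝ)| := abs_pos.mpr (by exact_mod_cast hne)
  have h4 := Real.log_le_log hdpos h1
  have hfac : (0 : ℝ) < (K.factorial : ℝ) := by exact_mod_cast K.factorial_pos
  rw [h2, Real.log_mul hfac.ne' (by positivity), Real.log_mul (by positivity) (Real.exp_pos _).ne',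
    Real.log_exp, Real.log_pow, Real.log_mul (by norm_num) hx0.ne'] at h4
  have h5 := up_log_fact K
  have h6 := up_sum (n := n) hκ
  rw [← hK] at h6
  have h7 : Real.log K ≤ Real.log 32 + (n / 1000 + Real.log 1000) := by
    have h8 : Real.log K ≤ Real.log (32 * n) := Real.log_le_log hK0 hKn
    rw [Real.log_mul (by norm_num) (by positivity)] at h8
    have h9 : Real.log (n : ℝ) = Real.log (n / 1000) + Real.log 1000 := by
      rw [← Real.log_mul (by positivity) (by norm_num)]
      congr 1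
      field_simp
    have h10 : Real.log ((n : ℝ) / 1000) ≤ n / 1000 - 1 :=
      Real.log_le_sub_one_of_pos (by positivity)
    linarith
  have h11 : (K : ℝ) * Real.log K + K * Real.log 5379 ≤ 1 / 2 * (n : ℝ) ^ 2 := by
    have h12 : Real.log K + Real.log 5379 ≤ n / 1000 + D := by rw [hD]; linarith
    have h13 : (K : ℝ) * (Real.log K + Real.log 5379) ≤ 32 * n * (n / 1000 + D) := by
      refine (mul_le_mul_of_nonneg_left h12 hK0.le).trans ?_
      exact mul_le_mul_of_nonneg_right hKn (by positivity)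
    nlinarith
  have h14 : (K : ℝ) = 30 * n + κ := by
    rw [hK]
    push_cast
    ring
  rw [h14] at h4 h5 h11
  have h15 : 0 ≤ ε * (n : ℝ) ^ 2 := by positivity
  nlinarith

end Pool.Agent.Lib.PiMu
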