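import Pool.Agent.Lib.PiMu.Nonvanish
import Pool.Agent.Lib.PiMu.LogLower
import Pool.Agent.Lib.PiMu.Upper

namespace Pool.Agent.Lib.PiMu
open Polynomial

/-- The irrationality exponent of `π` is at most `13/2`. -/
theorem main : ∃ Q : ℕ, ∀ q : ℕ, Q ≤ q → ∀ p : ℤ,
    1 / (q : ℝ) ^ (13 / 2 : ℝ) ≤ |Real.pi - p / q| := by
  obtain ⟨n1, h1⟩ := log_det_lower (1 / 2) (by norm_num)
  obtain ⟨n2, h2⟩ := log_det_upper (1 / 2) (by norm_num)
  refine ⟨⌈Real.exp (400000 + 241 * n1 + 241 * n2)⌉₊, fun q hq p => ?_⟩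
  by_contra hcon
  push Not at hcon
  have hq1 : Real.exp (400000 + 241 * n1 + 241 * n2) ≤ (q : ℝ) :=
    (Nat.le_ceil _).trans (by exact_mod_cast hq)
  have hq0 : (0 : ℝ) < q := lt_of_lt_of_le (Real.exp_pos _) hq1
  set L := Real.log q with hL
  have hL1 : 400000 + 241 * (n1 : ℝ) + 241 * n2 ≤ L := by
    rw [hL, Real.le_log_iff_exp_le hq0]
    exact hq1
  have hn1 : (0 : ℝ) ≤ n1 := by positivity
  have hn2 : (0 : ℝ) ≤ n2 := by positivity
  set n := ⌈L / (241 / 2)⌉₊ with hn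
  have hnL : L / (241 / 2) ≤ n := Nat.le_ceil _
  have hnU : (n : ℝ) < L / (241 / 2) + 1 := Nat.ceil_lt_add_one (by positivity)
  have hnr : (3000 : ℝ) ≤ n := by linarith
  have hge1 : n1 ≤ n := by
    have : (n1 : ℝ) ≤ n := by linarith
    exact_mod_cast this
  have hge2 : n2 ≤ n := by
    have : (n2 : ℝ) ≤ n := by linarith
    exact_mod_cast this
  have hqz : ((q : ℤ)) ≠ 0 := by
    have : q ≠ 0 := by
      rintro rfl
      simp at hq0
    exact_mod_cast this
  have hn1' : 1 ≤ n := by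
    have : (1 : ℝ) ≤ n := by linarith
    exact_mod_cast this
  obtain ⟨κ, hκ, hdet⟩ := nonvanish (q : ℤ) p hqz n (30 * n) hn1'
  have hlow := h1 n hge1 (q : ℤ) p κ hκ hdet
  have hup := h2 n hge2 (q : ℤ) p (by
    have : 1 ≤ q := by
      rcases Nat.eq_zero_or_pos q with h | h
      · subst h; simp at hq0
      · exact h
    exact_mod_cast this) κ hκ (by
      have e1 : |Real.pi - (p : ℝ) / ((q : ℤ) : ℝ)| < 1 / (q : ℝ) ^ (13 / 2 : ℝ) := by
        rw [Int.cast_natCast]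
        exact hcon
      refine e1.le.trans ?_
      rw [Real.rpow_def_of_pos hq0, one_div, ← Real.exp_neg, Real.exp_le_exp]
      rw [← hL]
      linarith) hdet
  have hlogq : Real.log (((q : ℤ) : ℝ)) = L := by rw [Int.cast_natCast]
  rw [hlogq] at hup
  have hκ' : (κ : ℝ) ≤ 2 := by exact_mod_cast hκ
  have hLn : L ≤ 241 / 2 * n := by linarith
  have hlog5 : Real.log 5 ≤ 7 / 3 * Real.log 2 := by
    have h3 : Real.log ((5 : ℝ) ^ 3) ≤ Real.log ((2 : ℝ) ^ 7) :=
      Real.log_le_log (by norm_num) (by norm_num)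
    rw [Real.log_pow, Real.log_pow] at h3
    push_cast at h3
    linarith
  have hlog2 := Real.log_two_lt_d9
  have h3 : (30 * n + κ) * L ≤ (30 * n + 2) * (241 / 2 * n) := by
    apply mul_le_mul _ hLn (by linarith) (by positivity)
    linarith
  have h4 : (5145 - 2250 * Real.log 2 + 2025 / 2 * Real.log 5 + 1 / 2 : ℝ) ≤ 5223.6 := by linarith
  have h5 := mul_le_mul_of_nonneg_right h4 (sq_nonneg (n : ℝ))
  nlinarith

end Pool.Agent.Lib.PiMu
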