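import Pool.Agent.Lib.PiMu.Defs

/-!
# Module A2: the moments `Lam x y k` for negative `k`

Closed form of `mN x y M` and its `p`-adic norms.
-/

namespace Pool.Agent.Lib.PiMu

open Finset

/-- `ga r = Im ((1 + i)^r)` -/
def ga : ℕ → ℤ
  | 0 => 0
  | 1 => 1
  | (r + 2) => 2 * ga (r + 1) - 2 * ga r

/-- the sum in the closed form of `mN` -/
def Sx (M : ℕ) : ℚ :=
  ∑ r ∈ range M, ((2 * M).choose (M + (r + 1)) : ℚ) * ((1 + (1 / 2) ^ (r + 1)) * ga (r + 1)) / (r + 1)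

section complex

open Complex

theorem ga_eq (r : ℕ) : (ga r : ℝ) = ((1 + I) ^ r).im := by
  have key : ∀ r : ℕ, (ga r : ℝ) = ((1 + I) ^ r).im ∧ (ga (r + 1) : ℝ) = ((1 + I) ^ (r + 1)).im := by
    intro r
    induction r with
    | zero => simp [ga]
    | succ r ih =>
      refine ⟨ih.2, ?_⟩
      have h : (1 + I) ^ (r + 1 + 1) = 2 * (1 + I) ^ (r + 1) - 2 * (1 + I) ^ r := by
        have h2 : (1 + I) ^ 2 = 2 * (1 + I) - 2 := by
          ring_nf; rw [I_sq]; ring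
        calc (1 + I) ^ (r + 1 + 1) = (1 + I) ^ r * (1 + I) ^ 2 := by ring
          _ = _ := by rw [h2]; ring
      have h3 : ((ga (r + 1 + 1) : ℤ) : ℝ) = 2 * ga (r + 1) - 2 * ga r := by
        simp only [ga]; push_cast; ring
      rw [h, h3, ih.1, ih.2]
      simp
  exact (key r).1

theorem gb_eq (r : ℕ) : ((1 / 2 : ℝ)) ^ r * (ga r : ℝ) = -(((1 - I) / 2) ^ r).im := by
  have key : ∀ r : ℕ, ((1 / 2 : ℝ)) ^ r * (ga r : ℝ) = -(((1 - I) / 2) ^ r).im ∧
      ((1 / 2 : ℝ)) ^ (r + 1) * (ga (r + 1) : ℝ) = -(((1 - I) / 2) ^ (r + 1)).im := by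
    intro r
    induction r with
    | zero =>
      constructor
      · simp [ga]
      · simp only [ga, zero_add, pow_one]
        norm_num
    | succ r ih =>
      refine ⟨ih.2, ?_⟩
      have h : ((1 - I) / 2) ^ (r + 1 + 1) =
          ((1 - I) / 2) ^ (r + 1) - ((1 / 2 : ℝ) : ℂ) * ((1 - I) / 2) ^ r := by
        have h2 : ((1 - I) / 2) ^ 2 = (1 - I) / 2 - ((1 / 2 : ℝ) : ℂ) := by
          push_cast
          ring_nf; rw [I_sq]; ring
        calc ((1 - I) / 2) ^ (r + 1 + 1) = ((1 - I) / 2) ^ r * ((1 - I) / 2) ^ 2 := by ring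
          _ = _ := by rw [h2]; ring
      have h3 : ((1 / 2 : ℝ)) ^ (r + 1 + 1) * ((ga (r + 1 + 1) : ℤ) : ℝ) =
          ((1 / 2 : ℝ)) ^ (r + 1) * ga (r + 1) - 1 / 2 * ((1 / 2 : ℝ) ^ r * ga r) := by
        simp only [ga]; push_cast; ring
      rw [h, h3, ih.1, ih.2, sub_im, im_ofReal_mul]
      ring
  exact (key r).1

theorem bn_eq (N : ℕ) : (bn N : ℝ) * (2 / 5) / 8 ^ N = ((1 + 2 * I) / 5 * ((7 + I) / 2) ^ N).im := by
  have key : ∀ N : ℕ, (bn N : ℝ) * (2 / 5) / 8 ^ N = ((1 + 2 * I) / 5 * ((7 + I) / 2) ^ N).im ∧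
      (bn (N + 1) : ℝ) * (2 / 5) / 8 ^ (N + 1) =
        ((1 + 2 * I) / 5 * ((7 + I) / 2) ^ (N + 1)).im := by
    intro N
    induction N with
    | zero =>
      constructor
      · simp [bn]
      · simp only [bn, zero_add, pow_one]
        have : (1 + 2 * I) / 5 * ((7 + I) / 2) = ((1 / 2 : ℝ) : ℂ) + ((3 / 2 : ℝ) : ℂ) * I := by
          push_cast
          ring_nf; rw [I_sq]; ring
        rw [this]
        simp
        norm_num
    | succ N ih =>
      refine ⟨ih.2, ?_⟩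
      have h : (1 + 2 * I) / 5 * ((7 + I) / 2) ^ (N + 1 + 1) =
          ((7 : ℝ) : ℂ) * ((1 + 2 * I) / 5 * ((7 + I) / 2) ^ (N + 1)) -
            ((25 / 2 : ℝ) : ℂ) * ((1 + 2 * I) / 5 * ((7 + I) / 2) ^ N) := by
        have h2 : ((7 + I) / 2) ^ 2 = ((7 : ℝ) : ℂ) * ((7 + I) / 2) - ((25 / 2 : ℝ) : ℂ) := by
          push_cast
          ring_nf; rw [I_sq]; ring
        calc (1 + 2 * I) / 5 * ((7 + I) / 2) ^ (N + 1 + 1)
            = (1 + 2 * I) / 5 * ((7 + I) / 2) ^ N * ((7 + I) / 2) ^ 2 := by ring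
          _ = _ := by rw [h2]; ring
      have h3 : ((bn (N + 1 + 1) : ℤ) : ℝ) * (2 / 5) / 8 ^ (N + 1 + 1) =
          7 * ((bn (N + 1) : ℝ) * (2 / 5) / 8 ^ (N + 1)) -
            25 / 2 * ((bn N : ℝ) * (2 / 5) / 8 ^ N) := by
        simp only [bn]; push_cast
        field_simp
        ring
      rw [h, h3, ih.1, ih.2, sub_im, im_ofReal_mul, im_ofReal_mul]
  exact (key N).1

/-- the binomial sum, complex form -/
theorem sum_complex (M : ℕ) (z u : ℂ) (hzu : z * u = 1) :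
    ∑ i ∈ range (M + 1), (((2 * M + 1).choose (M + 1 + i) : ℂ) - ((2 * M + 1).choose (M + 2 + i) : ℂ)) *
      (z ^ (i + 1) - u ^ (i + 1)) = (z - 1) * (1 + z) ^ (2 * M + 1) * u ^ (M + 1) := by
  set c : ℕ → ℂ := fun i => ((2 * M + 1).choose (M + 1 + i) : ℂ) with hc
  have hzuk : ∀ k : ℕ, z ^ k * u ^ k = 1 := fun k => by rw [← mul_pow, hzu, one_pow]
  have hsymm : ∀ i, i < M + 1 → (((2 * M + 1).choose (M - i) : ℕ) : ℂ) = c i := by
    intro i hi
    simp only [hc]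
    congr 1
    rw [← Nat.choose_symm (show M + 1 + i ≤ 2 * M + 1 by omega)]
    congr 1
    omega
  have hexp : (1 + z) ^ (2 * M + 1) =
      ∑ j ∈ range ((M + 1) + (M + 1)), z ^ j * ((2 * M + 1).choose j : ℂ) := by
    rw [add_comm 1 z, add_pow]
    rw [show 2 * M + 1 + 1 = (M + 1) + (M + 1) by ring]
    exact Finset.sum_congr rfl fun j _ => by simp
  -- first part of the range, in terms of `u`
  have hfirst : ∀ e : ℕ, e ≤ 1 → ∑ j ∈ range (M + 1), z ^ (j + e) * u ^ (M + 1) * ((2 * M + 1).choose j : ℂ) =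
      ∑ i ∈ range (M + 1), u ^ (i + 1 - e) * c i := by
    intro e he
    rw [← Finset.sum_range_reflect]
    refine Finset.sum_congr rfl fun i hi => ?_
    rw [Finset.mem_range] at hi
    have h1 : M + 1 - 1 - i = M - i := by omega
    rw [h1, hsymm i hi]
    congr 1
    have h2 : M + 1 = (M - i + e) + (i + 1 - e) := by omega
    calc z ^ (M - i + e) * u ^ (M + 1) = z ^ (M - i + e) * u ^ ((M - i + e) + (i + 1 - e)) := by
          rw [← h2]
      _ = (z ^ (M - i + e) * u ^ (M - i + e)) * u ^ (i + 1 - e) := by rw [pow_add]; ring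
      _ = _ := by rw [hzuk, one_mul]
  have hsecond : ∀ e : ℕ, ∑ i ∈ range (M + 1), z ^ (M + 1 + i + e) * u ^ (M + 1) *
      ((2 * M + 1).choose (M + 1 + i) : ℂ) = ∑ i ∈ range (M + 1), z ^ (i + e) * c i := by
    intro e
    refine Finset.sum_congr rfl fun i _ => ?_
    congr 1
    calc z ^ (M + 1 + i + e) * u ^ (M + 1) = (z ^ (M + 1) * u ^ (M + 1)) * z ^ (i + e) := by
          ring
      _ = _ := by rw [hzuk, one_mul]
  have hS : ∀ e : ℕ, e ≤ 1 → z ^ e * (1 + z) ^ (2 * M + 1) * u ^ (M + 1) =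
      ∑ i ∈ range (M + 1), u ^ (i + 1 - e) * c i + ∑ i ∈ range (M + 1), z ^ (i + e) * c i := by
    intro e he
    rw [hexp, Finset.mul_sum, Finset.sum_mul, Finset.sum_range_add, ← hfirst e he, ← hsecond e]
    congr 1
    · exact Finset.sum_congr rfl fun j _ => by ring
    · exact Finset.sum_congr rfl fun j _ => by ring
  have h1 := hS 1 le_rfl
  have h0 := hS 0 (by norm_num)
  simp only [pow_one, pow_zero, one_mul, Nat.add_sub_cancel, Nat.sub_zero, add_zero] at h1 h0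
  -- Abel summation
  have habel : ∑ i ∈ range (M + 1), c i * (z ^ i - u ^ i) =
      ∑ i ∈ range (M + 1), c (i + 1) * (z ^ (i + 1) - u ^ (i + 1)) := by
    have e1 := Finset.sum_range_succ (fun i => c i * (z ^ i - u ^ i)) (M + 1)
    have e2 := Finset.sum_range_succ' (fun i => c i * (z ^ i - u ^ i)) (M + 1)
    have e3 : c (M + 1) = 0 := by
      simp only [hc]
      rw [Nat.choose_eq_zero_of_lt (by omega)]
      simp
    rw [e1] at e2
    simp only [e3, zero_mul, add_zero, pow_zero, sub_self, mul_zero] at e2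
    exact e2
  have hlhs : ∑ i ∈ range (M + 1), (((2 * M + 1).choose (M + 1 + i) : ℂ) -
      ((2 * M + 1).choose (M + 2 + i) : ℂ)) * (z ^ (i + 1) - u ^ (i + 1)) =
      ∑ i ∈ range (M + 1), c i * (z ^ (i + 1) - u ^ (i + 1)) -
        ∑ i ∈ range (M + 1), c (i + 1) * (z ^ (i + 1) - u ^ (i + 1)) := by
    rw [← Finset.sum_sub_distrib]
    refine Finset.sum_congr rfl fun i _ => ?_
    have : ((2 * M + 1).choose (M + 2 + i) : ℂ) = c (i + 1) := by
      simp only [hc]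
      rw [show M + 1 + (i + 1) = M + 2 + i by ring]
    rw [this]
    ring
  rw [hlhs, ← habel]
  calc _ = (∑ i ∈ range (M + 1), u ^ i * c i + ∑ i ∈ range (M + 1), z ^ (i + 1) * c i) -
        (∑ i ∈ range (M + 1), u ^ (i + 1) * c i + ∑ i ∈ range (M + 1), z ^ i * c i) := by
        simp only [← Finset.sum_sub_distrib, ← Finset.sum_add_distrib]
        exact Finset.sum_congr rfl fun i _ => by ring
    _ = _ := by
        rw [← h1, ← h0]; ring

/-- the binomial sum -/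
theorem sum_bn (M : ℕ) :
    ∑ i ∈ range (M + 1), (((2 * M + 1).choose (M + 1 + i) : ℚ) - ((2 * M + 1).choose (M + 2 + i) : ℚ)) *
      ((1 + (1 / 2) ^ (i + 1)) * ga (i + 1)) = (bn (M + 1) : ℚ) * (2 / 5) / 8 ^ (M + 1) := by
  have h := congrArg Complex.im (sum_complex M (1 + I) ((1 - I) / 2) (by
    ring_nf; rw [I_sq]; ring))
  have hr : (((1 + I) - 1) * (1 + (1 + I)) ^ (2 * M + 1) * ((1 - I) / 2) ^ (M + 1)).im =
      (bn (M + 1) : ℝ) * (2 / 5) / 8 ^ (M + 1) := by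
    rw [bn_eq]
    congr 1
    have h7 : ((7 + I) / 2 : ℂ) = (1 + (1 + I)) ^ 2 * ((1 - I) / 2) := by
      ring_nf
      have : I ^ 3 = -I := by rw [pow_succ, I_sq]; ring
      rw [this, I_sq]; ring
    rw [h7, mul_pow, ← pow_mul, show 2 * (M + 1) = 2 * M + 1 + 1 by ring, pow_succ]
    have h8 : (1 + 2 * I) / 5 * (1 + (1 + I)) = I := by
      ring_nf; rw [I_sq]; ring
    calc _ = I * (1 + (1 + I)) ^ (2 * M + 1) * ((1 - I) / 2) ^ (M + 1) := by ring
      _ = ((1 + 2 * I) / 5 * (1 + (1 + I))) * (1 + (1 + I)) ^ (2 * M + 1) *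
          ((1 - I) / 2) ^ (M + 1) := by rw [h8]
      _ = _ := by ring
  rw [hr] at h
  have hl : (∑ i ∈ range (M + 1), (((2 * M + 1).choose (M + 1 + i) : ℂ) -
      ((2 * M + 1).choose (M + 2 + i) : ℂ)) * ((1 + I) ^ (i + 1) - ((1 - I) / 2) ^ (i + 1))).im =
      ∑ i ∈ range (M + 1), (((2 * M + 1).choose (M + 1 + i) : ℝ) -
        ((2 * M + 1).choose (M + 2 + i) : ℝ)) * ((1 + (1 / 2) ^ (i + 1)) * ga (i + 1)) := by
    rw [Complex.im_sum]
    refine Finset.sum_congr rfl fun i _ => ?_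
    have e : (((2 * M + 1).choose (M + 1 + i) : ℂ) - ((2 * M + 1).choose (M + 2 + i) : ℂ)) =
        (((((2 * M + 1).choose (M + 1 + i) : ℝ) - ((2 * M + 1).choose (M + 2 + i) : ℝ)) : ℝ) : ℂ) := by
      push_cast; rfl
    rw [e, im_ofReal_mul, sub_im, ← ga_eq]
    have := gb_eq (i + 1)
    rw [add_mul, this]
    ring
  rw [hl] at h
  apply Rat.cast_injective (α := ℝ)
  push_cast
  exact h

end complex

/-- Zeilberger-type recursion for `Sx` -/
theorem Sx_rec (M : ℕ) :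
    ((M : ℚ) + 1) * Sx (M + 1) - 2 * (2 * M + 1) * Sx M = (bn (M + 1) : ℚ) * (2 / 5) / 8 ^ (M + 1) := by
  rw [← sum_bn]
  have hSM : Sx M = ∑ r ∈ range (M + 1), ((2 * M).choose (M + (r + 1)) : ℚ) *
      ((1 + (1 / 2) ^ (r + 1)) * ga (r + 1)) / (r + 1) := by
    rw [Finset.sum_range_succ, Sx]
    rw [Nat.choose_eq_zero_of_lt (show 2 * M < M + (M + 1) by omega)]
    simp
  rw [hSM, Sx, Finset.mul_sum, Finset.mul_sum, ← Finset.sum_sub_distrib]
  refine Finset.sum_congr rfl fun r hr => ?_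
  rw [Finset.mem_range] at hr
  have hr' : r ≤ M := by omega
  have hpas : ((2 * (M + 1)).choose (M + 1 + (r + 1)) : ℚ) =
      ((2 * M + 1).choose (M + 1 + r) : ℚ) + ((2 * M + 1).choose (M + 2 + r) : ℚ) := by
    rw [show 2 * (M + 1) = (2 * M + 1) + 1 by ring, show M + 1 + (r + 1) = (M + 1 + r) + 1 by ring,
      Nat.choose_succ_succ, show (M + 1 + r).succ = M + 2 + r by omega]
    push_cast; ring
  have h1 : ((2 * M + 1).choose (M + 2 + r) : ℚ) * (M + 2 + r) =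
      ((2 * M + 1).choose (M + 1 + r) : ℚ) * (M - r) := by
    have := Nat.choose_succ_right_eq (2 * M + 1) (M + 1 + r)
    rw [show M + 1 + r + 1 = M + 2 + r by ring, show 2 * M + 1 - (M + 1 + r) = M - r by omega] at this
    have h := congrArg (Nat.cast : ℕ → ℚ) this
    push_cast [Nat.cast_sub hr'] at h
    exact h
  have h2 : ((2 * M).choose (M + (r + 1)) : ℚ) * (2 * M + 1) =
      ((2 * M + 1).choose (M + 1 + r) : ℚ) * (M - r) := by
    have := Nat.choose_mul_succ_eq (2 * M) (M + (r + 1))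
    rw [show 2 * M + 1 - (M + (r + 1)) = M - r by omega] at this
    have h := congrArg (Nat.cast : ℕ → ℚ) this
    push_cast [Nat.cast_sub hr'] at h
    rw [show M + (r + 1) = M + 1 + r by ring] at h ⊢
    exact h
  have hr1 : ((r : ℚ) + 1) ≠ 0 := by positivity
  rw [hpas]
  field_simp
  set P : ℚ := ((2 * M + 1).choose (M + 1 + r) : ℚ)
  set Q : ℚ := ((2 * M + 1).choose (M + 2 + r) : ℚ)
  set a : ℚ := ((2 * M).choose (M + (r + 1)) : ℚ)
  linear_combination (ga (r + 1) : ℚ) * (h1 - 2 * h2)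

/-- closed form of the negative moments -/
theorem mN_closed (x y : ℚ) (M : ℕ) :
    mN x y M = (y / 2 * ((2 * M).choose M : ℚ) + 2 * x * Sx M) / (4 * 10 ^ (2 * M + 1)) := by
  induction M with
  | zero => simp [mN, Sx]; ring
  | succ M ih =>
    rw [mN, ih]
    have hS := Sx_rec M
    have hC : ((M : ℚ) + 1) * ((2 * (M + 1)).choose (M + 1) : ℚ) =
        2 * (2 * M + 1) * ((2 * M).choose M : ℚ) := by
      have := Nat.succ_mul_centralBinom_succ M
      simp only [Nat.centralBinom] at this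
      exact_mod_cast this
    have h8 : (800 : ℚ) ^ (M + 1) = 8 ^ (M + 1) * 10 ^ (2 * (M + 1)) := by
      rw [pow_mul, ← mul_pow]; norm_num
    have hM : ((M : ℚ) + 1) ≠ 0 := by positivity
    have h10 : (10 : ℚ) ^ (2 * (M + 1) + 1) = 100 * 10 ^ (2 * M + 1) := by ring
    have h10' : (10 : ℚ) ^ (2 * (M + 1)) = 10 * 10 ^ (2 * M + 1) := by ring
    rw [h8, h10, h10']
    have e1 : (bn (M + 1) : ℚ) / 8 ^ (M + 1) = 5 / 2 * (((M : ℚ) + 1) * Sx (M + 1) - 2 * (2 * M + 1) * Sx M) := by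
      rw [hS]; ring
    have e2 : x * ((bn (M + 1) : ℚ) / (8 ^ (M + 1) * (10 * 10 ^ (2 * M + 1)))) =
        x * ((bn (M + 1) : ℚ) / 8 ^ (M + 1)) / (10 * 10 ^ (2 * M + 1)) := by
      field_simp
    rw [e2, e1]
    have h10ne : (10 : ℚ) ^ (2 * M + 1) ≠ 0 := by positivity
    field_simp
    linear_combination (-y * 500) * hC

/-! ### norms -/

/-- `p^(v_p m) ≤ m` -/
theorem padicNorm_inv_nat_le {p : ℕ} [hp : Fact p.Prime] (m : ℕ) (hm : m ≠ 0) :
    (padicNorm p (m : ℚ))⁻¹ ≤ m := by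
  rw [padicNorm.eq_zpow_of_nonzero (by exact_mod_cast hm), padicValRat.of_nat, zpow_neg, inv_inv,
    zpow_natCast]
  exact_mod_cast Nat.le_of_dvd (Nat.pos_of_ne_zero hm) pow_padicValNat_dvd

theorem padicNorm_inv_nat_eq_one {p : ℕ} [Fact p.Prime] (m : ℕ) (hm : m ≠ 0) (h : m < p) :
    (padicNorm p (m : ℚ))⁻¹ = 1 := by
  rw [(padicNorm.nat_eq_one_iff m).2, inv_one]
  exact fun hd => absurd (Nat.le_of_dvd (Nat.pos_of_ne_zero hm) hd) (by omega)

theorem padicNorm_inv_nat_le_p {p : ℕ} [hp : Fact p.Prime] (m : ℕ) (hm : m ≠ 0) (h : m < p ^ 2) :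
    (padicNorm p (m : ℚ))⁻¹ ≤ p := by
  rw [padicNorm.eq_zpow_of_nonzero (by exact_mod_cast hm), padicValRat.of_nat, zpow_neg, inv_inv,
    zpow_natCast]
  have h1 : padicValNat p m < 2 := by
    by_contra hc
    push Not at hc
    have := Nat.le_of_dvd (Nat.pos_of_ne_zero hm)
      ((pow_dvd_pow p hc).trans pow_padicValNat_dvd)
    omega
  have hp1 : (1 : ℚ) ≤ p := by exact_mod_cast hp.out.one_lt.le
  calc (p : ℚ) ^ padicValNat p m ≤ (p : ℚ) ^ 1 := pow_le_pow_right₀ hp1 (by omega)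
    _ = p := pow_one _

theorem norm_pow' {p : ℕ} [hp : Fact p.Prime] (q : ℚ) (n : ℕ) :
    padicNorm p (q ^ n) = padicNorm p q ^ n := by
  induction n with
  | zero => simp
  | succ n ih => rw [pow_succ, padicNorm.mul, ih, pow_succ]

/-- norm of the numerator: general estimate -/
theorem norm_num_le {p : ℕ} [hp : Fact p.Prime] (x y : ℤ) (M : ℕ) (t : ℚ) (ht : 0 ≤ t)
    (h1 : padicNorm p (1 / 2 : ℚ) ≤ t)
    (h2 : ∀ r < M, padicNorm p (2 : ℚ) * (padicNorm p ((1 + (1 / 2) ^ (r + 1)) * ga (r + 1)) *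
      (padicNorm p ((r + 1 : ℕ) : ℚ))⁻¹) ≤ t) :
    padicNorm p ((y : ℚ) / 2 * ((2 * M).choose M : ℚ) + 2 * (x : ℚ) * Sx M) ≤ t := by
  refine padicNorm.nonarchimedean.trans (max_le ?_ ?_)
  · have e : (y : ℚ) / 2 * ((2 * M).choose M : ℚ) = (1 / 2) * (y * ((2 * M).choose M : ℕ) : ℤ) := by
      push_cast; ring
    rw [e, padicNorm.mul]
    calc _ ≤ padicNorm p (1 / 2 : ℚ) * 1 :=
          mul_le_mul_of_nonneg_left (padicNorm.of_int _) (padicNorm.nonneg _)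
      _ ≤ t := by rw [mul_one]; exact h1
  · rw [Sx, Finset.mul_sum]
    refine padicNorm.sum_le' (fun r hr => ?_) ht
    rw [Finset.mem_range] at hr
    have e : 2 * (x : ℚ) * (((2 * M).choose (M + (r + 1)) : ℚ) *
        ((1 + (1 / 2) ^ (r + 1)) * ga (r + 1)) / (r + 1)) =
        ((x * ((2 * M).choose (M + (r + 1)) : ℕ) : ℤ) : ℚ) *
          (2 * (((1 + (1 / 2) ^ (r + 1)) * ga (r + 1)) * (((r + 1 : ℕ) : ℚ))⁻¹)) := by
      push_cast
      field_simp
    rw [e, padicNorm.mul, padicNorm.mul, padicNorm.mul]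
    have hinv : padicNorm p ((((r + 1 : ℕ) : ℚ))⁻¹) = (padicNorm p ((r + 1 : ℕ) : ℚ))⁻¹ := by
      rw [← one_div, padicNorm.div, padicNorm.one, one_div]
    rw [hinv]
    calc _ ≤ 1 * (padicNorm p (2 : ℚ) * (padicNorm p ((1 + (1 / 2) ^ (r + 1)) * ga (r + 1)) *
      (padicNorm p ((r + 1 : ℕ) : ℚ))⁻¹)) := by
          refine mul_le_mul_of_nonneg_right (padicNorm.of_int _) ?_
          exact mul_nonneg (padicNorm.nonneg _) (mul_nonneg (padicNorm.nonneg _)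
            (inv_nonneg.2 (padicNorm.nonneg _)))
      _ ≤ t := by rw [one_mul]; exact h2 r hr

theorem norm_two {p : ℕ} [hp : Fact p.Prime] (h2 : p ≠ 2) : padicNorm p (2 : ℚ) = 1 := by
  have := (padicNorm.nat_eq_one_iff (p := p) 2).2 (fun h => h2 ((Nat.prime_dvd_prime_iff_eq
    hp.out Nat.prime_two).1 h))
  exact_mod_cast this

theorem norm_ten {p : ℕ} [hp : Fact p.Prime] (h2 : p ≠ 2) (h5 : p ≠ 5) :
    padicNorm p (10 : ℚ) = 1 := by
  have := (padicNorm.nat_eq_one_iff (p := p) 10).2 (fun h => by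
    rw [show (10 : ℕ) = 2 * 5 by norm_num, hp.out.dvd_mul] at h
    rcases h with h | h
    · exact h2 ((Nat.prime_dvd_prime_iff_eq hp.out Nat.prime_two).1 h)
    · exact h5 ((Nat.prime_dvd_prime_iff_eq hp.out Nat.prime_five).1 h))
  exact_mod_cast this

/-- for `p ≠ 2` the factor `(1 + 2^-r) ga r` is `p`-integral -/
theorem norm_ga_odd {p : ℕ} [hp : Fact p.Prime] (h2 : p ≠ 2) (r : ℕ) :
    padicNorm p ((1 + (1 / 2) ^ (r + 1)) * ga (r + 1)) ≤ 1 := by
  have e : ((1 : ℚ) + (1 / 2) ^ (r + 1)) * ga (r + 1) =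
      (((2 ^ (r + 1) + 1) * ga (r + 1) : ℤ) : ℚ) / 2 ^ (r + 1) := by
    push_cast
    rw [div_pow, one_pow]
    field_simp
  rw [e, padicNorm.div, norm_pow', norm_two h2, one_pow, div_one]
  exact padicNorm.of_int _

theorem norm_half {p : ℕ} [hp : Fact p.Prime] (h2 : p ≠ 2) : padicNorm p (1 / 2 : ℚ) = 1 := by
  rw [padicNorm.div, padicNorm.one, norm_two h2, div_one]

theorem mN_norm_aux {p : ℕ} [hp : Fact p.Prime] (h2 : p ≠ 2) (h5 : p ≠ 5) (x y : ℤ) (M : ℕ)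
    (t : ℚ) (ht : 1 ≤ t) (h : ∀ r < M, (padicNorm p ((r + 1 : ℕ) : ℚ))⁻¹ ≤ t) :
    padicNorm p (mN x y M) ≤ t := by
  rw [mN_closed, padicNorm.div]
  have e : padicNorm p (4 * 10 ^ (2 * M + 1) : ℚ) = 1 := by
    rw [show (4 : ℚ) = 2 ^ 2 by norm_num, padicNorm.mul, norm_pow', norm_pow', norm_two h2,
      norm_ten h2 h5]
    simp
  rw [e, div_one]
  refine norm_num_le x y M t (zero_le_one.trans ht) ?_ ?_
  · rw [norm_half h2]; exact ht
  · intro r hr
    rw [norm_two h2, one_mul]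
    calc _ ≤ 1 * (padicNorm p ((r + 1 : ℕ) : ℚ))⁻¹ :=
          mul_le_mul_of_nonneg_right (norm_ga_odd h2 r) (inv_nonneg.2 (padicNorm.nonneg _))
      _ ≤ t := by rw [one_mul]; exact h r hr

theorem mN_norm_int {p : ℕ} [Fact p.Prime] (h2 : p ≠ 2) (h5 : p ≠ 5) (x y : ℤ) (M : ℕ)
    (h : M < p) : padicNorm p (mN x y M) ≤ 1 :=
  mN_norm_aux h2 h5 x y M 1 le_rfl fun r hr =>
    (padicNorm_inv_nat_eq_one (r + 1) (by omega) (by omega)).le

theorem mN_norm_p {p : ℕ} [hp : Fact p.Prime] (h2 : p ≠ 2) (h5 : p ≠ 5) (x y : ℤ) (M : ℕ)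
    (h : M < p ^ 2) : padicNorm p (mN x y M) ≤ p :=
  mN_norm_aux h2 h5 x y M p (by exact_mod_cast hp.out.one_lt.le) fun r hr =>
    padicNorm_inv_nat_le_p (r + 1) (by omega) (by omega)

theorem mN_norm_crude {p : ℕ} [Fact p.Prime] (h2 : p ≠ 2) (h5 : p ≠ 5) (x y : ℤ) (M : ℕ) :
    padicNorm p (mN x y M) ≤ M + 1 :=
  mN_norm_aux h2 h5 x y M (M + 1) (by linarith [(Nat.cast_nonneg M : (0 : ℚ) ≤ M)]) fun r hr =>
    (padicNorm_inv_nat_le (r + 1) (by omega)).trans (by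
      have : (r + 1 : ℕ) ≤ M := hr
      have : ((r + 1 : ℕ) : ℚ) ≤ M := by exact_mod_cast this
      linarith)

theorem mN_norm_five (x y : ℤ) (M : ℕ) :
    padicNorm 5 (mN x y M) ≤ 5 ^ (2 * M + 1) * (M + 1) := by
  have : Fact (Nat.Prime 5) := ⟨Nat.prime_five⟩
  rw [mN_closed, padicNorm.div]
  have h10 : padicNorm 5 (10 : ℚ) = 1 / 5 := by
    rw [show (10 : ℚ) = 2 * 5 by norm_num, padicNorm.mul, norm_two (by norm_num)]
    have := padicNorm.padicNorm_p (p := 5) (by norm_num)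
    push_cast at this
    rw [this]; norm_num
  have e : padicNorm 5 (4 * 10 ^ (2 * M + 1) : ℚ) = (1 / 5) ^ (2 * M + 1) := by
    rw [show (4 : ℚ) = 2 ^ 2 by norm_num, padicNorm.mul, norm_pow', norm_pow', norm_two (by norm_num),
      h10]
    simp
  rw [e]
  have hM : (0 : ℚ) ≤ M := Nat.cast_nonneg M
  have hnum := norm_num_le (p := 5) x y M (M + 1) (by linarith) (by
    rw [norm_half (by norm_num)]; linarith) (fun r hr => by
      rw [norm_two (by norm_num), one_mul]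
      calc _ ≤ 1 * (padicNorm 5 ((r + 1 : ℕ) : ℚ))⁻¹ :=
            mul_le_mul_of_nonneg_right (norm_ga_odd (by norm_num) r) (inv_nonneg.2 (padicNorm.nonneg _))
        _ ≤ ((r + 1 : ℕ) : ℚ) := by rw [one_mul]; exact padicNorm_inv_nat_le (r + 1) (by omega)
        _ ≤ M + 1 := by
            have : ((r + 1 : ℕ) : ℚ) ≤ M := by exact_mod_cast hr
            linarith)
  rw [div_pow, one_pow, div_div_eq_mul_div, div_one, mul_comm]
  exact mul_le_mul_of_nonneg_left hnum (by positivity)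

/-- `2^⌊r/2⌋` divides `ga r` -/
theorem two_pow_dvd_ga (r : ℕ) : (2 : ℤ) ^ (r / 2) ∣ ga r ∧ (2 : ℤ) ^ ((r + 1) / 2) ∣ ga (r + 1) := by
  induction r with
  | zero => simp [ga]
  | succ r ih =>
    refine ⟨ih.2, ?_⟩
    have e : (r + 1 + 1) / 2 = r / 2 + 1 := by omega
    rw [e, pow_succ]
    simp only [ga]
    have h1 : (2 : ℤ) ^ (r / 2) * 2 ∣ 2 * ga r := by
      rw [mul_comm]
      exact mul_dvd_mul_left 2 ih.1
    have h2 : (2 : ℤ) ^ (r / 2) * 2 ∣ 2 * ga (r + 1) := by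
      rw [mul_comm]
      refine mul_dvd_mul_left 2 ((pow_dvd_pow 2 ?_).trans ih.2)
      omega
    exact dvd_sub h2 h1

theorem norm2_ga (r : ℕ) : padicNorm 2 ((1 + (1 / 2) ^ (r + 1)) * ga (r + 1)) ≤
    2 ^ (r + 1) / 2 ^ ((r + 1) / 2) := by
  have : Fact (Nat.Prime 2) := ⟨Nat.prime_two⟩
  have e : ((1 : ℚ) + (1 / 2) ^ (r + 1)) * ga (r + 1) =
      (((2 ^ (r + 1) + 1) : ℤ) : ℚ) * ga (r + 1) / 2 ^ (r + 1) := by
    push_cast
    rw [div_pow, one_pow]
    field_simp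
  have hn2 : padicNorm 2 (2 : ℚ) = 1 / 2 := by
    have := padicNorm.padicNorm_p (p := 2) (by norm_num)
    push_cast at this
    rw [this]; norm_num
  rw [e, padicNorm.div, norm_pow', hn2, padicNorm.mul]
  have h1 : padicNorm 2 (((2 ^ (r + 1) + 1) : ℤ) : ℚ) ≤ 1 := padicNorm.of_int _
  have h2 : padicNorm 2 (ga (r + 1) : ℚ) ≤ 1 / 2 ^ ((r + 1) / 2) := by
    have := (padicNorm.dvd_iff_norm_le (p := 2) (n := (r + 1) / 2) (z := ga (r + 1))).1
      (by exact_mod_cast (two_pow_dvd_ga r).2)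
    rw [zpow_neg, zpow_natCast] at this
    push_cast at this
    rw [one_div]
    exact this
  rw [div_pow, one_pow, div_div_eq_mul_div, div_one]
  calc padicNorm 2 (((2 ^ (r + 1) + 1) : ℤ) : ℚ) * padicNorm 2 (ga (r + 1) : ℚ) * 2 ^ (r + 1)
      ≤ ((1 : ℚ) * (1 / 2 ^ ((r + 1) / 2))) * 2 ^ (r + 1) := by
        refine mul_le_mul_of_nonneg_right ?_ (by positivity)
        exact mul_le_mul h1 h2 (padicNorm.nonneg _) zero_le_one
    _ = _ := by ring

theorem mN_norm_two (x y : ℤ) (M : ℕ) :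
    padicNorm 2 (mN x y M) ≤ 2 ^ (2 * M + 4) * 2 ^ ((M + 1) / 2) * (M + 1) := by
  have : Fact (Nat.Prime 2) := ⟨Nat.prime_two⟩
  have hn2 : padicNorm 2 (2 : ℚ) = 1 / 2 := by
    have := padicNorm.padicNorm_p (p := 2) (by norm_num)
    push_cast at this
    rw [this]; norm_num
  rw [mN_closed, padicNorm.div]
  have h10 : padicNorm 2 (10 : ℚ) = 1 / 2 := by
    rw [show (10 : ℚ) = 2 * 5 by norm_num, padicNorm.mul, hn2]
    have : padicNorm 2 (5 : ℚ) = 1 := by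
      have := (padicNorm.nat_eq_one_iff (p := 2) 5).2 (by norm_num)
      exact_mod_cast this
    rw [this]; norm_num
  have e : padicNorm 2 (4 * 10 ^ (2 * M + 1) : ℚ) = (1 / 2) ^ (2 * M + 3) := by
    rw [show (4 : ℚ) = 2 ^ 2 by norm_num, padicNorm.mul, norm_pow', norm_pow', hn2, h10]
    ring
  rw [e]
  have hM : (0 : ℚ) ≤ M := Nat.cast_nonneg M
  have hc : (1 : ℚ) ≤ 2 ^ ((M + 1) / 2) := one_le_pow₀ (by norm_num)
  have hnum := norm_num_le (p := 2) x y M (2 * 2 ^ ((M + 1) / 2) * (M + 1)) (by positivity) (by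
    rw [padicNorm.div, padicNorm.one, hn2]
    nlinarith) (fun r hr => by
      rw [hn2]
      have h1 := norm2_ga r
      have h3 : (padicNorm 2 ((r + 1 : ℕ) : ℚ))⁻¹ ≤ M + 1 :=
        (padicNorm_inv_nat_le (p := 2) (r + 1) (by omega)).trans (by
          have : ((r + 1 : ℕ) : ℚ) ≤ M := by exact_mod_cast hr
          linarith)
      have h4 : (2 : ℚ) ^ (r + 1) / 2 ^ ((r + 1) / 2) ≤ 2 ^ ((M + 1) / 2) := by
        rw [div_le_iff₀ (by positivity), ← pow_add]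
        exact pow_le_pow_right₀ (by norm_num) (by omega)
      calc _ ≤ (1 : ℚ) / 2 * (2 ^ ((M + 1) / 2) * (M + 1)) := by
            refine mul_le_mul_of_nonneg_left ?_ (by norm_num)
            exact mul_le_mul (h1.trans h4) h3 (inv_nonneg.2 (padicNorm.nonneg _)) (by positivity)
        _ ≤ (2 : ℚ) * 2 ^ ((M + 1) / 2) * (M + 1) := by
            have : (0 : ℚ) ≤ 2 ^ ((M + 1) / 2) * (M + 1) := by positivity
            nlinarith)
  rw [div_pow, one_pow, div_div_eq_mul_div, div_one, mul_comm]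
  calc _ ≤ (2 : ℚ) ^ (2 * M + 3) * (2 * 2 ^ ((M + 1) / 2) * (M + 1)) :=
        mul_le_mul_of_nonneg_left hnum (by positivity)
    _ = _ := by ring

/-! ### the statements of the blueprint for negative `k` -/

theorem Lam_rec_neg (x y : ℚ) (M : ℕ) :
    (2 * (Int.negSucc M : ℤ) + 1) * Lam x y (Int.negSucc M) -
      50 * (Int.negSucc M : ℤ) * Lam x y (Int.negSucc M - 1) = x * bz (Int.negSucc M) := by
  have e : (Int.negSucc M - 1 : ℤ) = Int.negSucc (M + 1) := by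
    simp only [Int.negSucc_eq]; push_cast; ring
  rw [e]
  simp only [Lam, bz, mN]
  rw [Int.negSucc_eq]
  push_cast
  have : ((M : ℚ) + 1) ≠ 0 := by positivity
  field_simp
  ring

theorem Lam_norm_int_neg {p : ℕ} [Fact p.Prime] (h2 : p ≠ 2) (h5 : p ≠ 5) (x y : ℤ) (M : ℕ)
    (h3 : -(p : ℤ) ≤ Int.negSucc M) : padicNorm p (Lam x y (Int.negSucc M)) ≤ 1 := by
  rw [Int.negSucc_eq] at h3
  exact mN_norm_int h2 h5 x y M (by omega)

theorem Lam_norm_p_neg {p : ℕ} [Fact p.Prime] (h2 : p ≠ 2) (h5 : p ≠ 5) (x y : ℤ) (M : ℕ)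
    (h3 : -((p : ℤ) ^ 2) ≤ Int.negSucc M) : padicNorm p (Lam x y (Int.negSucc M)) ≤ p := by
  rw [Int.negSucc_eq] at h3
  refine mN_norm_p h2 h5 x y M ?_
  zify
  linarith

theorem Lam_norm_crude_neg {p : ℕ} [Fact p.Prime] (h2 : p ≠ 2) (h5 : p ≠ 5) (x y : ℤ) (M : ℕ) :
    padicNorm p (Lam x y (Int.negSucc M)) ≤ 2 * |((Int.negSucc M : ℤ) : ℚ)| + 1 := by
  refine (mN_norm_crude h2 h5 x y M).trans ?_
  rw [Int.cast_negSucc, abs_neg, Nat.abs_cast]
  push_cast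
  linarith [(Nat.cast_nonneg M : (0 : ℚ) ≤ M)]

theorem Lam_norm_two_neg (x y : ℤ) (M : ℕ) :
    (padicNorm 2 (Lam x y (Int.negSucc M)) : ℝ) ≤
      16 * (2 * |((Int.negSucc M : ℤ) : ℝ)| + 1) * (2 : ℝ) ^ (-(5 / 2 : ℝ) * (Int.negSucc M : ℤ)) := by
  have h := mN_norm_two x y M
  have h' : (padicNorm 2 (mN x y M) : ℝ) ≤ 2 ^ (2 * M + 4) * 2 ^ ((M + 1) / 2) * (M + 1) := by
    exact_mod_cast h
  refine h'.trans ?_
  rw [Int.cast_negSucc, abs_neg, Nat.abs_cast]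
  have h1 : (2 : ℝ) ^ ((M + 1) / 2) ≤ (2 : ℝ) ^ (((M : ℝ) + 1) / 2) := by
    rw [← Real.rpow_natCast]
    refine Real.rpow_le_rpow_of_exponent_le (by norm_num) ?_
    have := Nat.cast_div_le (m := M + 1) (n := 2) (α := ℝ)
    push_cast at this
    exact this
  have h2 : (2 : ℝ) ^ (2 * M + 4) * (2 : ℝ) ^ (((M : ℝ) + 1) / 2) =
      4 * (2 : ℝ) ^ (-(5 / 2 : ℝ) * -((M + 1 : ℕ) : ℝ)) := by
    rw [show (4 : ℝ) = (2 : ℝ) ^ (2 : ℝ) by norm_num, ← Real.rpow_natCast,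
      ← Real.rpow_add (by norm_num), ← Real.rpow_add (by norm_num)]
    congr 1
    push_cast
    ring
  have hM : (0 : ℝ) ≤ M := Nat.cast_nonneg M
  have hpos : (0 : ℝ) < (2 : ℝ) ^ (-(5 / 2 : ℝ) * -((M + 1 : ℕ) : ℝ)) := by positivity
  calc (2 : ℝ) ^ (2 * M + 4) * 2 ^ ((M + 1) / 2) * (M + 1)
      ≤ 2 ^ (2 * M + 4) * (2 : ℝ) ^ (((M : ℝ) + 1) / 2) * (M + 1) := by gcongr
    _ = 4 * (M + 1) * (2 : ℝ) ^ (-(5 / 2 : ℝ) * -((M + 1 : ℕ) : ℝ)) := by rw [h2]; ring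
    _ ≤ _ := by
      refine mul_le_mul_of_nonneg_right ?_ hpos.le
      push_cast
      linarith

theorem Lam_norm_five_neg (x y : ℤ) (M : ℕ) :
    padicNorm 5 (Lam x y (Int.negSucc M)) ≤
      5 * (2 * |((Int.negSucc M : ℤ) : ℚ)| + 1) * 25 ^ ((-(Int.negSucc M : ℤ)).toNat) := by
  refine (mN_norm_five x y M).trans ?_
  have e : (-(Int.negSucc M : ℤ)).toNat = M + 1 := by
    rw [Int.neg_negSucc]; rfl
  rw [e, Int.cast_negSucc, abs_neg, Nat.abs_cast]
  have hM : (0 : ℚ) ≤ M := Nat.cast_nonneg M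
  have h1 : (25 : ℚ) ^ (M + 1) = 5 * 5 ^ (2 * M + 1) := by
    rw [show (25 : ℚ) = 5 ^ 2 by norm_num, ← pow_mul]; ring
  rw [h1]
  have hp : (0 : ℚ) < 5 ^ (2 * M + 1) := by positivity
  push_cast
  nlinarith

end Pool.Agent.Lib.PiMu
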