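import Pool.Agent.Lib.PiMu.MomentsPos
import Pool.Agent.Lib.PiMu.MomentsNeg

/-!
# Module A: `p`-adic norms of the moments `Lam x y k` for all integers `k`
-/

namespace Pool.Agent.Lib.PiMu

theorem Lam_norm_int {p : ℕ} [Fact p.Prime] (h2 : p ≠ 2) (h5 : p ≠ 5) (x y : ℤ) (k : ℤ)
    (h1 : 2 * k + 1 < p) (h3 : -(p : ℤ) ≤ k) : padicNorm p (Lam x y k) ≤ 1 := by
  cases k with
  | ofNat k =>
    refine (Lam_pos_norm_le x y k).trans (mA_norm_int ?_)
    rw [Int.ofNat_eq_natCast] at h1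
    omega
  | negSucc M => exact Lam_norm_int_neg h2 h5 x y M h3

theorem Lam_norm_p {p : ℕ} [Fact p.Prime] (h2 : p ≠ 2) (h5 : p ≠ 5) (x y : ℤ) (k : ℤ)
    (h1 : 2 * k + 1 < (p : ℤ) ^ 2) (h3 : -((p : ℤ) ^ 2) ≤ k) : padicNorm p (Lam x y k) ≤ p := by
  cases k with
  | ofNat k =>
    refine (Lam_pos_norm_le x y k).trans (mA_norm_p ?_)
    rw [Int.ofNat_eq_natCast] at h1
    exact_mod_cast h1
  | negSucc M => exact Lam_norm_p_neg h2 h5 x y M h3

theorem Lam_norm_crude {p : ℕ} [Fact p.Prime] (h2 : p ≠ 2) (h5 : p ≠ 5) (x y : ℤ) (k : ℤ) :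
    padicNorm p (Lam x y k) ≤ 2 * |(k : ℚ)| + 1 := by
  cases k with
  | ofNat k =>
    refine (Lam_pos_norm_le x y k).trans ((mA_norm_crude k).trans ?_)
    rw [Int.ofNat_eq_natCast, Int.cast_natCast, Nat.abs_cast]
  | negSucc M => exact Lam_norm_crude_neg h2 h5 x y M

theorem Lam_norm_two (x y : ℤ) (k : ℤ) :
    (padicNorm 2 (Lam x y k) : ℝ) ≤ 16 * (2 * |(k : ℝ)| + 1) * (2 : ℝ) ^ (-(5 / 2 : ℝ) * k) := by
  cases k with
  | ofNat k =>
    have : Fact (Nat.Prime 2) := ⟨Nat.prime_two⟩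
    have h : (padicNorm 2 (Lam x y (k : ℤ)) : ℝ) ≤ padicNorm 2 (mA k) := by
      exact_mod_cast Lam_pos_norm_le (p := 2) x y k
    refine h.trans ((mA_norm_two k).trans ?_)
    rw [Int.ofNat_eq_natCast, Int.cast_natCast, Nat.abs_cast]
    have h0 : (0 : ℝ) ≤ (2 * (k : ℝ) + 1) * (2 : ℝ) ^ (-(5 / 2 : ℝ) * k) := by positivity
    nlinarith
  | negSucc M => exact Lam_norm_two_neg x y M

theorem Lam_norm_five (x y : ℤ) (k : ℤ) :
    padicNorm 5 (Lam x y k) ≤ 5 * (2 * |(k : ℚ)| + 1) * 25 ^ ((-k).toNat) := by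
  cases k with
  | ofNat k =>
    have : Fact (Nat.Prime 5) := ⟨Nat.prime_five⟩
    refine (Lam_pos_norm_le x y k).trans ((mA_norm_crude k).trans ?_)
    have e : (-(Int.ofNat k)).toNat = 0 := by
      rw [Int.ofNat_eq_natCast, Int.toNat_eq_zero]; omega
    rw [e, pow_zero, mul_one, Int.ofNat_eq_natCast, Int.cast_natCast, Nat.abs_cast]
    have h0 : (0 : ℚ) ≤ 2 * (k : ℚ) + 1 := by positivity
    linarith
  | negSucc M => exact Lam_norm_five_neg x y M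

end Pool.Agent.Lib.PiMu
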