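import Pool.Agent.Lib.PiMu.Defs

/-!
# Module A1: the moments of nonnegative index
-/

namespace Pool.Agent.Lib.PiMu

open Polynomial

theorem Lam_rec (x y : ℚ) (k : ℤ) :
    (2 * k + 1) * Lam x y k - 50 * k * Lam x y (k - 1) = x * bz k := by
  rcases k with k | M
  · rcases k with _ | k
    · simp [Lam, bz, mA, bp]
    · have h1 : (Int.ofNat (k + 1) - 1) = Int.ofNat k := by simp
      rw [h1]
      simp only [Lam, bz, mA, Int.ofNat_eq_natCast]
      have h2 : (2 * (k : ℚ) + 3) ≠ 0 := by positivity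
      push_cast
      field_simp
      ring
  · have h1 : (Int.negSucc M - 1) = Int.negSucc (M + 1) := by
      rw [Int.negSucc_eq, Int.negSucc_eq]; push_cast; ring
    rw [h1]
    simp only [Lam, bz, mN]
    rw [Int.negSucc_eq]
    have h2 : ((M : ℚ) + 1) ≠ 0 := by positivity
    push_cast
    field_simp
    ring

/-! ## the norm of `1 / m` -/

theorem norm_inv {p : ℕ} [hp : Fact p.Prime] {m : ℕ} (hm : m ≠ 0) :
    padicNorm p ((m : ℚ)⁻¹) = (p ^ (padicValNat p m) : ℕ) := by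
  have h0 : (m : ℚ) ≠ 0 := by exact_mod_cast hm
  rw [padicNorm.eq_zpow_of_nonzero (inv_ne_zero h0), padicValRat.inv, neg_neg,
    padicValRat.of_nat, zpow_natCast]
  push_cast; rfl

theorem norm_inv_le {p : ℕ} [hp : Fact p.Prime] {m : ℕ} (hm : m ≠ 0) :
    padicNorm p ((m : ℚ)⁻¹) ≤ m := by
  rw [norm_inv hm]
  exact_mod_cast Nat.le_of_dvd (Nat.pos_of_ne_zero hm) pow_padicValNat_dvd

theorem norm_inv_le_one {p : ℕ} [hp : Fact p.Prime] {m : ℕ} (hm : m ≠ 0) (h : m < p) :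
    padicNorm p ((m : ℚ)⁻¹) ≤ 1 := by
  rw [norm_inv hm, padicValNat.eq_zero_of_not_dvd (fun hd => by
    have := Nat.le_of_dvd (Nat.pos_of_ne_zero hm) hd
    omega)]
  simp

theorem norm_inv_le_p {p : ℕ} [hp : Fact p.Prime] {m : ℕ} (hm : m ≠ 0) (h : m < p ^ 2) :
    padicNorm p ((m : ℚ)⁻¹) ≤ p := by
  rw [norm_inv hm]
  have h1 : p ^ (padicValNat p m) ≤ m := Nat.le_of_dvd (Nat.pos_of_ne_zero hm) pow_padicValNat_dvd
  have h2 : padicValNat p m < 2 := (Nat.pow_lt_pow_iff_right hp.out.one_lt).1 (h1.trans_lt h)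
  have h3 : p ^ (padicValNat p m) ≤ p ^ 1 := Nat.pow_le_pow_right hp.out.pos (by omega)
  rw [pow_one] at h3
  exact_mod_cast h3

theorem norm_int_mul_le {p : ℕ} [hp : Fact p.Prime] (z : ℤ) (q : ℚ) :
    padicNorm p (z * q) ≤ padicNorm p q := by
  rw [padicNorm.mul]
  exact mul_le_of_le_one_left (padicNorm.nonneg _) (padicNorm.of_int z)

/-! ## closed form -/

/-- `ie l = Im ((-1 + i) ^ l)` -/
def ie : ℕ → ℤ
  | 0 => 0
  | 1 => 1
  | (l + 2) => -2 * ie (l + 1) - 2 * ie l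

theorem two_pow_dvd_ie : ∀ l : ℕ, (2 : ℤ) ^ (l / 2) ∣ ie l
  | 0 => by simp [ie]
  | 1 => by simp
  | (l + 2) => by
    have h1 := two_pow_dvd_ie l
    have h2 := two_pow_dvd_ie (l + 1)
    have h3 : (l + 2) / 2 = l / 2 + 1 := by omega
    have h4 : (2 : ℤ) ^ (l / 2) ∣ ie (l + 1) := (pow_dvd_pow 2 (by omega)).trans h2
    obtain ⟨a, ha⟩ := h1
    obtain ⟨b, hb⟩ := h4
    refine ⟨-b - a, ?_⟩
    rw [ie, ha, hb, h3]
    ring

/-- evaluation at `-1 + i`, imaginary part -/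
noncomputable def Ef : ℚ[X] →ₗ[ℚ] ℚ :=
  Polynomial.lsum fun i => LinearMap.mulRight ℚ (ie i : ℚ)

/-- the integral -/
noncomputable def Jf : ℚ[X] →ₗ[ℚ] ℚ :=
  Polynomial.lsum fun i => LinearMap.mulRight ℚ ((ie (i + 1) : ℚ) * (((i + 1 : ℕ) : ℚ))⁻¹)

theorem Ef_monomial (i : ℕ) (a : ℚ) : Ef (monomial i a) = a * ie i := by
  simp [Ef, Polynomial.lsum_apply, Polynomial.sum_monomial_index]

theorem Jf_monomial (i : ℕ) (a : ℚ) :
    Jf (monomial i a) = a * ((ie (i + 1) : ℚ) * (((i + 1 : ℕ) : ℚ))⁻¹) := by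
  simp [Jf, Polynomial.lsum_apply, Polynomial.sum_monomial_index]
  ring

theorem Jf_derivative (P : ℚ[X]) : Jf (derivative P) = Ef P := by
  induction P using Polynomial.induction_on' with
  | add P Q hP hQ => rw [derivative_add, map_add, map_add, hP, hQ]
  | monomial i a =>
    rw [derivative_monomial, Jf_monomial, Ef_monomial]
    rcases i with _ | i
    · simp [ie]
    · rw [Nat.add_sub_cancel]
      have : ((i + 1 : ℕ) : ℚ) ≠ 0 := by positivity
      field_simp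

theorem Ef_mul (P : ℚ[X]) : Ef ((X ^ 2 + C 2 * X + C 2) * P) = 0 := by
  induction P using Polynomial.induction_on' with
  | add P Q hP hQ => rw [mul_add, map_add, hP, hQ, add_zero]
  | monomial i a =>
    have h : (X ^ 2 + C 2 * X + C 2) * monomial i a =
        monomial (i + 2) a + monomial (i + 1) (2 * a) + monomial i (2 * a) := by
      rw [add_mul, add_mul, C_mul_monomial, X_pow_mul_monomial, mul_assoc, X_mul_monomial,
        C_mul_monomial]
    rw [h, map_add, map_add, Ef_monomial, Ef_monomial, Ef_monomial, ie]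
    push_cast; ring

/-- `V = 24 - 4 X - 4 X^2` over `ℤ` -/
noncomputable def VZ : ℤ[X] := C 4 * (C 6 - X - X ^ 2)

/-- `V` over `ℚ` -/
noncomputable def VQ : ℚ[X] := C 24 - C 4 * X - C 4 * X ^ 2

theorem VZ_map : VZ.map (Int.castRingHom ℚ) = VQ := by
  unfold VZ VQ
  simp only [Polynomial.map_mul, Polynomial.map_sub, Polynomial.map_pow, Polynomial.map_X,
    Polynomial.map_C]
  simp only [eq_intCast, Int.cast_ofNat]
  rw [mul_sub, mul_sub, ← C_mul]
  norm_num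

theorem Ef_rec (F : ℚ[X]) : Ef (F * VQ ^ 2) = 56 * Ef (F * VQ) - 800 * Ef F := by
  have h1 : F * VQ ^ 2 = (56 : ℚ) • (F * VQ) - (800 : ℚ) • F +
      (X ^ 2 + C 2 * X + C 2) * (F * (C 16 * (X ^ 2 + 1))) := by
    rw [Polynomial.smul_eq_C_mul, Polynomial.smul_eq_C_mul]
    unfold VQ
    have e1 : (C 24 : ℚ[X]) = 24 := rfl
    have e2 : (C 4 : ℚ[X]) = 4 := rfl
    have e3 : (C 56 : ℚ[X]) = 56 := rfl
    have e4 : (C 800 : ℚ[X]) = 800 := rfl
    have e5 : (C 16 : ℚ[X]) = 16 := rfl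
    have e6 : (C 2 : ℚ[X]) = 2 := rfl
    rw [e1, e2, e3, e4, e5, e6]
    ring
  rw [h1, map_add, map_sub, Ef_mul, map_smul, map_smul, smul_eq_mul, smul_eq_mul, add_zero]

theorem Ef_V : ∀ k : ℕ, Ef ((1 + C 2 * X) * VQ ^ k) = 2 * bp k
  | 0 => by
    have : (1 + C 2 * X) * VQ ^ 0 = monomial 0 (1 : ℚ) + monomial 1 (2 : ℚ) := by
      rw [pow_zero, mul_one, ← C_mul_X_eq_monomial]; rfl
    rw [this, map_add, Ef_monomial, Ef_monomial]
    simp [ie, bp]
  | 1 => by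
    have : (1 + C 2 * X) * VQ ^ 1 = monomial 0 (24 : ℚ) + monomial 1 (44 : ℚ) +
        monomial 2 (-12 : ℚ) + monomial 3 (-8 : ℚ) := by
      rw [← C_mul_X_pow_eq_monomial, ← C_mul_X_pow_eq_monomial, ← C_mul_X_pow_eq_monomial,
        ← C_mul_X_pow_eq_monomial]
      unfold VQ
      have e1 : (C 24 : ℚ[X]) = 24 := rfl
      have e2 : (C 4 : ℚ[X]) = 4 := rfl
      have e3 : (C 44 : ℚ[X]) = 44 := rfl
      have e4 : (C (-12) : ℚ[X]) = -12 := by rw [C_neg]; rfl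
      have e5 : (C (-8) : ℚ[X]) = -8 := by rw [C_neg]; rfl
      have e6 : (C 2 : ℚ[X]) = 2 := rfl
      rw [e1, e2, e3, e4, e5, e6]
      ring
    rw [this, map_add, map_add, map_add, Ef_monomial, Ef_monomial, Ef_monomial, Ef_monomial]
    norm_num [ie, bp]
  | (k + 2) => by
    have h0 := Ef_V k
    have h1 := Ef_V (k + 1)
    have h2 := Ef_rec ((1 + C 2 * X) * VQ ^ k)
    rw [mul_assoc, ← pow_add, mul_assoc, ← pow_succ, h1, h0] at h2
    rw [h2, bp]
    push_cast; ring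

theorem mA_eq : ∀ k : ℕ, mA k = Jf (VQ ^ k)
  | 0 => by
    have : (VQ ^ 0 : ℚ[X]) = monomial 0 1 := by rw [pow_zero]; rfl
    rw [this, Jf_monomial]
    simp [mA, ie]
  | (k + 1) => by
    have h0 := mA_eq k
    have h1 : derivative ((1 + C 2 * X) * VQ ^ (k + 1)) =
        ((4 * k + 6 : ℚ)) • VQ ^ (k + 1) - ((100 * (k + 1) : ℚ)) • VQ ^ k := by
      rw [Polynomial.smul_eq_C_mul, Polynomial.smul_eq_C_mul, derivative_mul, derivative_pow]
      have h2 : derivative (1 + C 2 * X : ℚ[X]) = 2 := by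
        simp [derivative_mul]; rfl
      have h3 : derivative VQ = -4 * (1 + 2 * X) := by
        unfold VQ
        simp [derivative_mul, derivative_pow]
        have e2 : (C 4 : ℚ[X]) = 4 := rfl
        have e6 : (C 2 : ℚ[X]) = 2 := rfl
        rw [e2, e6]; ring
      rw [h2, h3, Nat.add_sub_cancel]
      have e1 : (C (4 * k + 6 : ℚ) : ℚ[X]) = 4 * (k : ℚ[X]) + 6 := by
        rw [C_add, C_mul]; simp; rfl
      have e2 : (C (100 * (k + 1) : ℚ) : ℚ[X]) = 100 * ((k : ℚ[X]) + 1) := by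
        rw [C_mul, C_add]; simp; left; rfl
      have e3 : (C ((k + 1 : ℕ) : ℚ) : ℚ[X]) = (k : ℚ[X]) + 1 := by simp
      have e6 : (C 2 : ℚ[X]) = 2 := rfl
      rw [e1, e2, e3, e6]
      have h4 : (1 + 2 * X) ^ 2 = 25 - VQ := by
        unfold VQ
        have e1 : (C 24 : ℚ[X]) = 24 := rfl
        have e2 : (C 4 : ℚ[X]) = 4 := rfl
        rw [e1, e2]; ring
      have h5 : (1 + 2 * X) * (((k : ℚ[X]) + 1) * VQ ^ k * (-4 * (1 + 2 * X))) =
          -4 * ((k : ℚ[X]) + 1) * VQ ^ k * (1 + 2 * X) ^ 2 := by ring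
      rw [h5, h4, pow_succ]
      ring
    have h2 := Jf_derivative ((1 + C 2 * X) * VQ ^ (k + 1))
    rw [h1, map_sub, map_smul, map_smul, Ef_V, ← h0, smul_eq_mul, smul_eq_mul] at h2
    rw [mA]
    have h3 : (2 * (k : ℚ) + 3) ≠ 0 := by positivity
    rw [div_eq_iff h3]
    linarith

theorem mA_sum (k : ℕ) : mA k = ∑ l ∈ Finset.range (2 * k + 1),
    (((VZ ^ k).coeff l * ie (l + 1) : ℤ) : ℚ) * (((l + 1 : ℕ) : ℚ))⁻¹ := by
  rw [mA_eq, ← VZ_map, ← Polynomial.map_pow]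
  have hdeg : ((VZ ^ k).map (Int.castRingHom ℚ)).natDegree < 2 * k + 1 := by
    have h1 : ((VZ ^ k).map (Int.castRingHom ℚ)).natDegree ≤ (VZ ^ k).natDegree :=
      natDegree_map_le
    have h2 : (VZ ^ k).natDegree ≤ k * VZ.natDegree := natDegree_pow_le
    have h3 : VZ.natDegree ≤ 2 := by
      unfold VZ
      compute_degree
    have h4 : k * VZ.natDegree ≤ k * 2 := Nat.mul_le_mul_left _ h3
    omega
  simp only [Jf, Polynomial.lsum_apply, LinearMap.mulRight_apply]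
  rw [Polynomial.sum_over_range' _ (fun i => by simp) _ hdeg]
  refine Finset.sum_congr rfl (fun l _ => ?_)
  rw [coeff_map]
  simp only [eq_intCast]
  push_cast
  ring

/-! ## norms -/

theorem mA_norm_int {p : ℕ} [Fact p.Prime] {k : ℕ} (h : 2 * k + 1 < p) :
    padicNorm p (mA k) ≤ 1 := by
  rw [mA_sum]
  refine padicNorm.sum_le' (fun l hl => ?_) zero_le_one
  rw [Finset.mem_range] at hl
  exact (norm_int_mul_le _ _).trans (norm_inv_le_one (by omega) (by omega))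

theorem mA_norm_p {p : ℕ} [Fact p.Prime] {k : ℕ} (h : 2 * k + 1 < p ^ 2) :
    padicNorm p (mA k) ≤ p := by
  rw [mA_sum]
  refine padicNorm.sum_le' (fun l hl => ?_) (by positivity)
  rw [Finset.mem_range] at hl
  exact (norm_int_mul_le _ _).trans (norm_inv_le_p (by omega) (by omega))

theorem mA_norm_crude {p : ℕ} [Fact p.Prime] (k : ℕ) :
    padicNorm p (mA k) ≤ 2 * k + 1 := by
  rw [mA_sum]
  refine padicNorm.sum_le' (fun l hl => ?_) (by positivity)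
  rw [Finset.mem_range] at hl
  refine (norm_int_mul_le _ _).trans ((norm_inv_le (by omega)).trans ?_)
  exact_mod_cast (by omega : l + 1 ≤ 2 * k + 1)

theorem two_pow_dvd_coeff : ∀ k l : ℕ, (2 : ℤ) ^ (k - l) ∣ ((C 6 - X - X ^ 2 : ℤ[X]) ^ k).coeff l
  | 0, l => by simp
  | (k + 1), l => by
    have h : (C 6 - X - X ^ 2 : ℤ[X]) ^ (k + 1) =
        C 6 * (C 6 - X - X ^ 2 : ℤ[X]) ^ k - (C 6 - X - X ^ 2 : ℤ[X]) ^ k * X -
          (C 6 - X - X ^ 2 : ℤ[X]) ^ k * X ^ 2 := by ring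
    rw [h, coeff_sub, coeff_sub, coeff_C_mul]
    have h0 := two_pow_dvd_coeff k l
    refine dvd_sub (dvd_sub ?_ ?_) ?_
    · have h1 : (2 : ℤ) ^ (k + 1 - l) ∣ 2 ^ (k - l) * 2 := by
        rw [← pow_succ]; exact pow_dvd_pow 2 (by omega)
      obtain ⟨a, ha⟩ := h0
      rw [ha]
      exact h1.trans ⟨3 * a, by ring⟩
    · rcases l with _ | l
      · simp
      · rw [coeff_mul_X]
        have := two_pow_dvd_coeff k l
        rwa [Nat.succ_sub_succ]
    · rcases l with _ | _ | l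
      · simp
      · simp [coeff_mul_X_pow']
      · rw [coeff_mul_X_pow]
        have := two_pow_dvd_coeff k l
        exact (pow_dvd_pow 2 (by omega)).trans this

theorem two_pow_dvd_term (k l : ℕ) :
    (2 : ℤ) ^ (2 * k + (k - l) + (l + 1) / 2) ∣ (VZ ^ k).coeff l * ie (l + 1) := by
  unfold VZ
  rw [mul_pow, ← C_pow, coeff_C_mul, pow_add, pow_add]
  refine mul_dvd_mul (mul_dvd_mul ?_ (two_pow_dvd_coeff k l)) (two_pow_dvd_ie (l + 1))
  rw [pow_mul]; norm_num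

theorem mA_norm_two (k : ℕ) :
    (padicNorm 2 (mA k) : ℝ) ≤ (2 * k + 1) * (2 : ℝ) ^ (-(5 / 2 : ℝ) * k) := by
  obtain ⟨N, hN, hN2⟩ : ∃ N : ℕ, 5 * k ≤ 2 * N ∧ ∀ l, N ≤ 2 * k + (k - l) + (l + 1) / 2 :=
    ⟨(5 * k + 1) / 2, by omega, fun l => by omega⟩
  have hmain : ∀ l ∈ Finset.range (2 * k + 1),
      padicNorm 2 ((((VZ ^ k).coeff l * ie (l + 1) : ℤ) : ℚ) * (((l + 1 : ℕ) : ℚ))⁻¹) ≤
        (2 * k + 1) * (2 : ℚ) ^ (-(N : ℤ)) := by
    intro l hl
    rw [Finset.mem_range] at hl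
    rw [padicNorm.mul, mul_comm]
    have h1 : padicNorm 2 (((l + 1 : ℕ) : ℚ)⁻¹) ≤ 2 * k + 1 := by
      refine (norm_inv_le (by omega)).trans ?_
      exact_mod_cast (by omega : l + 1 ≤ 2 * k + 1)
    have h2 : padicNorm 2 (((VZ ^ k).coeff l * ie (l + 1) : ℤ) : ℚ) ≤ (2 : ℚ) ^ (-(N : ℤ)) := by
      have h3 : ((2 ^ N : ℕ) : ℤ) ∣ (VZ ^ k).coeff l * ie (l + 1) := by
        push_cast
        exact (pow_dvd_pow 2 (hN2 l)).trans (two_pow_dvd_term k l)
      have h4 := (padicNorm.dvd_iff_norm_le (p := 2)).1 h3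
      exact_mod_cast h4
    exact mul_le_mul h1 h2 (padicNorm.nonneg _) (by positivity)
  have h1 : padicNorm 2 (mA k) ≤ (2 * k + 1) * (2 : ℚ) ^ (-(N : ℤ)) := by
    rw [mA_sum]
    exact padicNorm.sum_le' hmain (by positivity)
  have h2 : (padicNorm 2 (mA k) : ℝ) ≤ (((2 * k + 1) * (2 : ℚ) ^ (-(N : ℤ)) : ℚ) : ℝ) := by
    exact_mod_cast h1
  refine h2.trans ?_
  have h3 : (2 : ℝ) ^ (-(N : ℤ)) ≤ (2 : ℝ) ^ (-(5 / 2 : ℝ) * k) := by
    rw [← Real.rpow_intCast]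
    apply Real.rpow_le_rpow_of_exponent_le (by norm_num)
    push_cast
    have h5 : (5 * k : ℝ) ≤ 2 * (N : ℝ) := by exact_mod_cast hN
    linarith
  have h4 : (0 : ℝ) ≤ 2 * k + 1 := by positivity
  rw [Rat.cast_mul, Rat.cast_zpow, Rat.cast_add, Rat.cast_mul]
  simp only [Rat.cast_ofNat, Rat.cast_natCast, Rat.cast_one]
  exact mul_le_mul_of_nonneg_left h3 h4

/-! ## norms of `Lam x y k` for `k ≥ 0` -/

theorem Lam_natCast (x y : ℚ) (k : ℕ) : Lam x y (k : ℤ) = x * mA k := rfl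

theorem Lam_pos_norm_le {p : ℕ} [Fact p.Prime] (x y : ℤ) (k : ℕ) :
    padicNorm p (Lam x y (k : ℤ)) ≤ padicNorm p (mA k) := by
  rw [Lam_natCast]; exact norm_int_mul_le x _

end Pool.Agent.Lib.PiMu
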