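import Mathlib
import Pool.Agent.Lib.PiMu.Defs

/-!
# PiMu, module C: nonvanishing of one of three consecutive Hankel determinants

The functional `F ↦ Λ[v^(-180n) W F]` satisfies a Pearson relation, so that an orthogonal
polynomial which is orthogonal to too many powers would be orthogonal to all of them; this
contradicts the values `Λ[w^l] = u_l/(2l+1)`, `2l+1 = p` a large prime.
-/

set_option autoImplicit false

namespace Pool.Agent.Lib.PiMu

open Polynomial

/-! ### Linear algebra of Hankel matrices -/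

private theorem nv_expand (l : ℚ[X] →ₗ[ℚ] ℚ) (Q : ℚ[X]) {G : ℚ[X]} {N : ℕ}
    (hG : G.degree < N) :
    l (Q * G) = ∑ i ∈ Finset.range N, G.coeff i * l (Q * X ^ i) := by
  rcases eq_or_ne G 0 with rfl | h0
  · simp
  have hN : G.natDegree < N := (natDegree_lt_iff_degree_lt h0).mpr hG
  conv_lhs => rw [G.as_sum_range' N hN]
  rw [Finset.mul_sum, map_sum]
  refine Finset.sum_congr rfl fun i _ => ?_
  rw [← C_mul_X_pow_eq_monomial, mul_left_comm, ← smul_eq_C_mul, map_smul, smul_eq_mul]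

private theorem nv_orth (l : ℚ[X] →ₗ[ℚ] ℚ) {Q : ℚ[X]} {N : ℕ}
    (h : ∀ j < N, l (Q * X ^ j) = 0) {G : ℚ[X]} (hG : G.degree < N) : l (Q * G) = 0 := by
  rw [nv_expand l Q hG]
  exact Finset.sum_eq_zero fun i hi => by rw [h i (Finset.mem_range.mp hi), mul_zero]

private theorem nv_top (l : ℚ[X] →ₗ[ℚ] ℚ) {Q : ℚ[X]} {N : ℕ}
    (h : ∀ j < N, l (Q * X ^ j) = 0) {G : ℚ[X]} (hG : G.natDegree ≤ N) :
    l (Q * G) = G.coeff N * l (Q * X ^ N) := by
  have hG' : G.degree < ((N + 1 : ℕ) : WithBot ℕ) :=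
    lt_of_le_of_lt (natDegree_le_iff_degree_le.mp hG) (by exact_mod_cast Nat.lt_succ_self N)
  rw [nv_expand l Q hG', Finset.sum_range_succ, Finset.sum_eq_zero, zero_add]
  exact fun i hi => by rw [h i (Finset.mem_range.mp hi), mul_zero]

/-- the Hankel matrix of a functional -/
private noncomputable def nvH (l : ℚ[X] →ₗ[ℚ] ℚ) (k : ℕ) : Matrix (Fin k) (Fin k) ℚ :=
  Matrix.of fun i j => l (X ^ ((i : ℕ) + (j : ℕ)))

private theorem nv_mulVec (l : ℚ[X] →ₗ[ℚ] ℚ) {k : ℕ} {B : ℚ[X]} (hB : B.degree < k) (j : Fin k) :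
    (nvH l k).mulVec (fun i => B.coeff i) j = l (B * X ^ (j : ℕ)) := by
  rw [mul_comm, nv_expand l _ hB, Finset.sum_range]
  rw [Matrix.mulVec, dotProduct]
  refine Finset.sum_congr rfl fun i _ => ?_
  show l (X ^ ((j : ℕ) + (i : ℕ))) * B.coeff i = B.coeff i * l (X ^ (j : ℕ) * X ^ (i : ℕ))
  rw [← pow_add]
  ring

private theorem nv_nondeg (l : ℚ[X] →ₗ[ℚ] ℚ) {k : ℕ} (hd : (nvH l k).det ≠ 0) {B : ℚ[X]}
    (hB : B.degree < k) (h : ∀ j < k, l (B * X ^ j) = 0) : B = 0 := by
  have h1 : (nvH l k).mulVec (fun i => B.coeff i) = 0 := by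
    funext j
    rw [nv_mulVec l hB j]
    exact h j j.2
  have h2 := Matrix.eq_zero_of_mulVec_eq_zero hd h1
  ext i
  rcases lt_or_ge i k with hi | hi
  · exact congrFun h2 ⟨i, hi⟩
  · rw [coeff_zero]
    exact coeff_eq_zero_of_degree_lt (lt_of_lt_of_le hB (by exact_mod_cast hi))

/-- a polynomial with prescribed coefficients -/
private noncomputable def nvP {k : ℕ} (b : Fin k → ℚ) : ℚ[X] := ∑ i : Fin k, C (b i) * X ^ (i : ℕ)

private theorem nvP_degree {k : ℕ} (b : Fin k → ℚ) : (nvP b).degree < k := by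
  unfold nvP
  refine lt_of_le_of_lt (degree_sum_le _ _) ?_
  refine (Finset.sup_lt_iff (WithBot.bot_lt_coe k)).mpr fun i _ => ?_
  exact lt_of_le_of_lt (degree_C_mul_X_pow_le _ _) (Nat.cast_lt.mpr i.2)

private theorem nvP_coeff {k : ℕ} (b : Fin k → ℚ) (i : Fin k) : (nvP b).coeff i = b i := by
  unfold nvP
  rw [finset_sum_coeff, Finset.sum_eq_single i]
  · simp
  · intro j _ hj
    rw [coeff_C_mul_X_pow, if_neg]
    intro h
    exact hj (Fin.ext h.symm)
  · intro h
    exact absurd (Finset.mem_univ i) h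

private theorem nv_kernel (l : ℚ[X] →ₗ[ℚ] ℚ) {k : ℕ} (hd : (nvH l k).det = 0) :
    ∃ F : ℚ[X], F ≠ 0 ∧ F.degree < k ∧ ∀ j < k, l (F * X ^ j) = 0 := by
  obtain ⟨b, hb0, hb⟩ := Matrix.exists_mulVec_eq_zero_iff.mpr hd
  refine ⟨nvP b, ?_, nvP_degree b, fun j hj => ?_⟩
  · intro h0
    apply hb0
    funext i
    rw [← nvP_coeff b i, h0]
    simp
  · have h1 := nv_mulVec l (nvP_degree b) ⟨j, hj⟩
    rw [← h1]
    have : (fun i : Fin k => (nvP b).coeff i) = b := funext fun i => nvP_coeff b i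
    rw [this, hb]
    rfl

private theorem nv_exists (l : ℚ[X] →ₗ[ℚ] ℚ) {k : ℕ} (hd : (nvH l k).det ≠ 0) :
    ∃ Q : ℚ[X], Q.Monic ∧ Q.natDegree = k ∧ ∀ j < k, l (Q * X ^ j) = 0 := by
  have hu : IsUnit (nvH l k).det := isUnit_iff_ne_zero.mpr hd
  set r : Fin k → ℚ := fun j => - l (X ^ k * X ^ (j : ℕ)) with hr
  set b : Fin k → ℚ := (nvH l k)⁻¹.mulVec r with hb
  have hb' : (nvH l k).mulVec b = r := by
    rw [hb, Matrix.mulVec_mulVec, Matrix.mul_nonsing_inv _ hu, Matrix.one_mulVec]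
  have hm : (X ^ k + nvP b).Monic := monic_X_pow_add (nvP_degree b)
  refine ⟨X ^ k + nvP b, hm, ?_, fun j hj => ?_⟩
  · rw [natDegree_add_eq_left_of_degree_lt, natDegree_X_pow]
    rw [degree_X_pow]
    exact nvP_degree b
  · have h1 := nv_mulVec l (nvP_degree b) ⟨j, hj⟩
    have : (fun i : Fin k => (nvP b).coeff i) = b := funext fun i => nvP_coeff b i
    rw [this, hb'] at h1
    rw [add_mul, map_add, ← h1, hr]
    simp

private theorem nv_step (l : ℚ[X] →ₗ[ℚ] ℚ) {k k' : ℕ} (hk : k < k') (hd : (nvH l k).det ≠ 0)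
    (hd' : (nvH l k').det = 0) {Q : ℚ[X]} (hQ : Q.Monic) (hQd : Q.natDegree = k)
    (h : ∀ j < k' - 1, l (Q * X ^ j) = 0) : l (Q * X ^ (k' - 1)) = 0 := by
  obtain ⟨F, hF0, hFd, hF⟩ := nv_kernel l hd'
  have hFn : F.natDegree < k' := (natDegree_lt_iff_degree_lt hF0).mpr hFd
  set A := F /ₘ Q with hA
  set B := F %ₘ Q with hB
  have hdec : B + Q * A = F := modByMonic_add_div F Q
  have hBd : B.degree < k := by
    have := degree_modByMonic_lt F hQ
    rwa [degree_eq_natDegree hQ.ne_zero, hQd] at this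
  have hAd : A.natDegree = F.natDegree - k := by
    rw [hA, natDegree_divByMonic F hQ, hQd]
  have hBz : B = 0 := by
    refine nv_nondeg l hd hBd fun j hj => ?_
    have e : B * X ^ j = F * X ^ j - Q * (A * X ^ j) := by rw [← hdec]; ring
    rw [e, map_sub, hF j (hj.trans hk), zero_sub, neg_eq_zero]
    refine nv_orth l h ?_
    rcases eq_or_ne A 0 with h0 | h0
    · rw [h0, zero_mul, degree_zero]
      exact WithBot.bot_lt_coe _
    · have : (A * X ^ j).natDegree < k' - 1 := by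
        rw [natDegree_mul h0 (pow_ne_zero _ X_ne_zero), natDegree_X_pow, hAd]
        omega
      exact (natDegree_lt_iff_degree_lt (mul_ne_zero h0 (pow_ne_zero _ X_ne_zero))).mp this
  rw [hBz, zero_add] at hdec
  have hA0 : A ≠ 0 := by
    rintro h0
    rw [h0, mul_zero] at hdec
    exact hF0 hdec.symm
  have hFnd : F.natDegree = k + A.natDegree := by
    rw [← hdec, natDegree_mul hQ.ne_zero hA0, hQd]
  have hle : A.natDegree ≤ k' - 1 := by omega
  have e : F * X ^ (k' - 1 - A.natDegree) = Q * (A * X ^ (k' - 1 - A.natDegree)) := by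
    rw [← hdec]; ring
  have h1 := hF (k' - 1 - A.natDegree) (by omega)
  have hnd : (A * X ^ (k' - 1 - A.natDegree)).natDegree ≤ k' - 1 := by
    rw [natDegree_mul hA0 (pow_ne_zero _ X_ne_zero), natDegree_X_pow]
    omega
  rw [e, nv_top l h hnd] at h1
  have hco : (A * X ^ (k' - 1 - A.natDegree)).coeff (k' - 1) = A.leadingCoeff := by
    have : k' - 1 = A.natDegree + (k' - 1 - A.natDegree) := by omega
    conv_lhs => rw [this]
    rw [show A.natDegree + (k' - 1 - A.natDegree) - A.natDegree = k' - 1 - A.natDegree by omega]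
    rw [coeff_mul_X_pow]
    rfl
  rw [hco] at h1
  exact (mul_eq_zero.mp h1).resolve_left (leadingCoeff_ne_zero.mpr hA0)

private theorem nv_deg_le {G : ℚ[X]} {N : ℕ} (h : G.natDegree < N) : G.degree < N :=
  lt_of_le_of_lt degree_le_natDegree (Nat.cast_lt.mpr h)

private theorem nv_derX_natDegree (Φ : ℚ[X]) (hΦd : Φ.natDegree ≤ 4) (j : ℕ) :
    (Φ * derivative (X ^ j : ℚ[X])).natDegree ≤ j + 3 := by
  rcases Nat.eq_zero_or_pos j with rfl | hj
  · simp
  · refine natDegree_mul_le.trans ?_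
    have : (derivative (X ^ j : ℚ[X])).natDegree ≤ j - 1 := by
      refine (natDegree_derivative_le _).trans ?_
      rw [natDegree_X_pow]
    omega

private theorem nv_derX_coeff (Φ : ℚ[X]) (hΦd : Φ.natDegree ≤ 4) (hΦ : Φ.coeff 4 = 2) (j : ℕ) :
    (Φ * derivative (X ^ j : ℚ[X])).coeff (j + 3) = 2 * (j : ℚ) := by
  rcases Nat.eq_zero_or_pos j with rfl | hj
  · simp
  · have h1 : (derivative (X ^ j : ℚ[X])).natDegree ≤ j - 1 := by
      refine (natDegree_derivative_le _).trans ?_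
      rw [natDegree_X_pow]
    have h2 : j + 3 = 4 + (j - 1) := by omega
    rw [h2, coeff_mul_add_eq_of_natDegree_le hΦd h1, hΦ, coeff_derivative, coeff_X_pow]
    rw [if_pos (by omega)]
    have : ((j - 1 : ℕ) : ℚ) + 1 = j := by
      have : (j - 1) + 1 = j := by omega
      exact_mod_cast this
    rw [one_mul, this]

private theorem nv_total (l : ℚ[X] →ₗ[ℚ] ℚ) {Φ S : ℚ[X]} {s3 : ℚ}
    (hΦd : Φ.natDegree ≤ 4) (hΦ : Φ.coeff 4 = 2) (hSd : S.natDegree ≤ 3) (hS : S.coeff 3 = s3)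
    (hs3 : ∀ j : ℕ, 2 * (j : ℚ) + s3 ≠ 0)
    (hP : ∀ F : ℚ[X], l (Φ * derivative F + S * F) = 0) {K : ℕ}
    (h0 : (nvH l K).det = 0) (h1 : (nvH l (K + 1)).det = 0) (h2 : (nvH l (K + 2)).det = 0) :
    ∃ Q : ℚ[X], Q.Monic ∧ ∀ F, l (Q * F) = 0 := by
  classical
  set k := Nat.findGreatest (fun k => (nvH l k).det ≠ 0) K with hk
  have hk0 : (nvH l k).det ≠ 0 := by
    refine Nat.findGreatest_spec (P := fun k => (nvH l k).det ≠ 0) (Nat.zero_le K) ?_
    rw [Matrix.det_fin_zero]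
    exact one_ne_zero
  have hkK : k < K := by
    refine lt_of_le_of_ne (Nat.findGreatest_le K) fun h => ?_
    rw [h] at hk0
    exact hk0 h0
  have hgr : ∀ k', k < k' → k' ≤ K + 2 → (nvH l k').det = 0 := by
    intro k' hk1 hk2
    rcases Nat.lt_or_ge K k' with h | h
    · have : k' = K + 1 ∨ k' = K + 2 := by omega
      rcases this with rfl | rfl
      · exact h1
      · exact h2
    · exact not_not.mp (Nat.findGreatest_is_greatest hk1 h)
  obtain ⟨Q, hQ, hQd, hQo⟩ := nv_exists l hk0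
  have hall : ∀ N ≤ K + 2, ∀ j < N, l (Q * X ^ j) = 0 := by
    intro N
    induction N with
    | zero => intro _ j hj; omega
    | succ N ih =>
      intro hN j hj
      rcases Nat.lt_or_ge j N with h | h
      · exact ih (by omega) j h
      · have hjN : j = N := by omega
        subst hjN
        rcases Nat.lt_or_ge j k with hjk | hjk
        · exact hQo j hjk
        · exact nv_step l (k' := j + 1) (by omega) hk0 (hgr (j + 1) (by omega) hN) hQ hQd
            (ih (by omega))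
  set D := Φ * derivative Q with hD
  set A := D /ₘ Q with hA
  set B := D %ₘ Q with hB
  have hdec : B + Q * A = D := modByMonic_add_div D Q
  have hBd : B.degree < k := by
    have := degree_modByMonic_lt D hQ
    rwa [degree_eq_natDegree hQ.ne_zero, hQd] at this
  have hAd : A.natDegree ≤ 3 ∧ A.coeff 3 = 2 * (k : ℚ) := by
    rcases Nat.eq_zero_or_pos k with hk00 | hkpos
    · have hQ1 : Q = 1 := by
        refine (hQ.natDegree_eq_zero).mp ?_
        rw [hQd, hk00]
      have hD0 : D = 0 := by rw [hD, hQ1]; simp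
      have hA0 : A = 0 := by rw [hA, hD0, zero_divByMonic]
      rw [hA0, hk00]
      simp
    · have hdQ : (derivative Q).natDegree ≤ k - 1 := by
        refine (natDegree_derivative_le _).trans ?_
        rw [hQd]
      have hDd : D.natDegree ≤ 4 + (k - 1) := natDegree_mul_le.trans (by omega)
      have hAd : A.natDegree ≤ 3 := by
        rw [hA, natDegree_divByMonic D hQ, hQd]
        omega
      refine ⟨hAd, ?_⟩
      have e1 : D.coeff (k + 3) = 2 * (k : ℚ) := by
        have h3 : k + 3 = 4 + (k - 1) := by omega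
        rw [h3, hD, coeff_mul_add_eq_of_natDegree_le hΦd hdQ, hΦ, coeff_derivative]
        have h4 : k - 1 + 1 = Q.natDegree := by omega
        rw [h4, hQ.coeff_natDegree, one_mul]
        have h5 : (k - 1) + 1 = k := by omega
        have h6 : ((k - 1 : ℕ) : ℚ) + 1 = k := by exact_mod_cast h5
        rw [h6]
      have e2 : (Q * A).coeff (k + 3) = A.coeff 3 := by
        rw [coeff_mul_add_eq_of_natDegree_le hQd.le hAd, ← hQd, hQ.coeff_natDegree, one_mul]
      have e3 : B.coeff (k + 3) = 0 :=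
        coeff_eq_zero_of_degree_lt (lt_of_lt_of_le hBd (by exact_mod_cast Nat.le_add_right k 3))
      rw [← hdec, coeff_add, e3, e2, zero_add] at e1
      exact e1
  obtain ⟨hAd, hA3⟩ := hAd
  -- Pearson relation for `Q X^j`
  have hPQ : ∀ j : ℕ, l (D * X ^ j) + l (Q * (Φ * derivative (X ^ j) + S * X ^ j)) = 0 := by
    intro j
    have := hP (Q * X ^ j)
    rw [derivative_mul] at this
    rw [← map_add, ← this]
    congr 1
    rw [hD]
    ring
  have hdX : ∀ j : ℕ, (Φ * derivative (X ^ j) + S * X ^ j).natDegree ≤ j + 3 := by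
    intro j
    refine (natDegree_add_le _ _).trans (max_le (nv_derX_natDegree Φ hΦd j) ?_)
    refine natDegree_mul_le.trans ?_
    rw [natDegree_X_pow]
    omega
  have hBz : B = 0 := by
    refine nv_nondeg l hk0 hBd fun j hj => ?_
    have e : B * X ^ j = D * X ^ j - Q * (A * X ^ j) := by rw [← hdec]; ring
    have e1 : l (D * X ^ j) = 0 := by
      have h3 := hPQ j
      rwa [nv_orth l (hall (K + 2) le_rfl) (nv_deg_le (by have := hdX j; omega)), add_zero] at h3
    have e2 : l (Q * (A * X ^ j)) = 0 := by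
      refine nv_orth l (hall (K + 2) le_rfl) (nv_deg_le ?_)
      have : (A * X ^ j).natDegree ≤ A.natDegree + (X ^ j : ℚ[X]).natDegree := natDegree_mul_le
      rw [natDegree_X_pow] at this
      omega
    rw [e, map_sub, e1, e2, sub_zero]
  rw [hBz, zero_add] at hdec
  -- the recursion which produces all higher moments
  have hfin : ∀ N, ∀ j < N, l (Q * X ^ j) = 0 := by
    intro N
    induction N with
    | zero => intro j hj; omega
    | succ N ih =>
      intro j hj
      rcases Nat.lt_or_ge j N with h | h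
      · exact ih j h
      · have hjN : j = N := by omega
        subst hjN
        rcases Nat.lt_or_ge j 3 with hj3 | hj3
        · exact hall (K + 2) le_rfl j (by omega)
        · obtain ⟨i, rfl⟩ : ∃ i, j = i + 3 := ⟨j - 3, by omega⟩
          have h3 := hPQ i
          rw [← map_add, ← hdec] at h3
          have e : Q * A * X ^ i + Q * (Φ * derivative (X ^ i) + S * X ^ i)
              = Q * (Φ * derivative (X ^ i) + (A + S) * X ^ i) := by ring
          rw [e] at h3
          have hnd : (Φ * derivative (X ^ i) + (A + S) * X ^ i).natDegree ≤ i + 3 := by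
            refine (natDegree_add_le _ _).trans (max_le (nv_derX_natDegree Φ hΦd i) ?_)
            refine natDegree_mul_le.trans ?_
            rw [natDegree_X_pow]
            have := natDegree_add_le A S
            have : max A.natDegree S.natDegree ≤ 3 := max_le hAd hSd
            omega
          rw [nv_top l ih hnd] at h3
          refine (mul_eq_zero.mp h3).resolve_left ?_
          rw [coeff_add, nv_derX_coeff Φ hΦd hΦ i, add_comm i 3, coeff_mul_X_pow, coeff_add,
            hA3, hS]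
          have := hs3 (i + k)
          push_cast at this
          intro h4
          apply this
          linarith
  exact ⟨Q, hQ, fun F => nv_orth l (hfin (F.natDegree + 1)) (nv_deg_le (Nat.lt_succ_self _))⟩

/-! ### The functional on monomials and the recursion of the moments -/

private theorem nv_Lam_rec (x y : ℚ) (k : ℤ) :
    (2 * k + 1) * Lam x y k - 50 * k * Lam x y (k - 1) = x * bz k := by
  match k with
  | Int.ofNat 0 =>
    show (2 * ((0 : ℕ) : ℤ) + 1) * (x * mA 0) - 50 * ((0 : ℕ) : ℤ) * Lam x y _ = x * (bp 0 : ℚ)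
    simp [mA, bp]
  | Int.ofNat (k + 1) =>
    have h : (Int.ofNat (k + 1) : ℤ) - 1 = Int.ofNat k := by
      simp
    rw [h]
    show (2 * (((k + 1 : ℕ) : ℤ) : ℚ) + 1) * (x * mA (k + 1)) - 50 * (((k + 1 : ℕ) : ℤ) : ℚ) * (x * mA k)
      = x * (bp (k + 1) : ℚ)
    rw [mA]
    push_cast
    have : (2 * (k : ℚ) + 3) ≠ 0 := by positivity
    field_simp
    ring
  | Int.negSucc M =>
    have h : (Int.negSucc M : ℤ) - 1 = Int.negSucc (M + 1) := rfl
    rw [h]
    show (2 * ((Int.negSucc M : ℤ) : ℚ) + 1) * mN x y M - 50 * ((Int.negSucc M : ℤ) : ℚ) * mN x y (M + 1)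
      = x * ((bn (M + 1) : ℚ) / 800 ^ (M + 1))
    rw [mN, Int.cast_negSucc]
    push_cast
    have : (50 * ((M : ℚ) + 1)) ≠ 0 := by positivity
    field_simp
    ring

private theorem nv_bz_rec (k : ℤ) : bz (k + 2) = 56 * bz (k + 1) - 800 * bz k := by
  match k with
  | Int.ofNat k =>
    show ((bp (k + 2) : ℤ) : ℚ) = 56 * ((bp (k + 1) : ℤ) : ℚ) - 800 * ((bp k : ℤ) : ℚ)
    rw [bp]
    push_cast
    ring
  | Int.negSucc 0 =>
    show ((bp 1 : ℤ) : ℚ) = 56 * ((bp 0 : ℤ) : ℚ) - 800 * ((bn 1 : ℚ) / 800 ^ 1)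
    norm_num [bp, bn]
  | Int.negSucc 1 =>
    show ((bp 0 : ℤ) : ℚ) = 56 * ((bn 1 : ℚ) / 800 ^ 1) - 800 * ((bn 2 : ℚ) / 800 ^ 2)
    norm_num [bp, bn]
  | Int.negSucc (j + 2) =>
    show ((bn (j + 1) : ℚ) / 800 ^ (j + 1)) = 56 * ((bn (j + 2) : ℚ) / 800 ^ (j + 2))
      - 800 * ((bn (j + 3) : ℚ) / 800 ^ (j + 3))
    have : bn (j + 3) = 56 * bn (j + 2) - 800 * bn (j + 1) := by rw [bn]
    rw [this]
    push_cast
    field_simp
    ring

/-- the boundary functional -/
private noncomputable def nvbd (s : ℕ) : ℚ[X] →ₗ[ℚ] ℚ :=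
  Polynomial.lsum fun i => LinearMap.mulRight ℚ (bz ((i : ℤ) - (s : ℤ)))

private theorem nv_lam_C (x y : ℚ) (s i : ℕ) (a : ℚ) :
    lam x y s (C a * X ^ i) = a * Lam x y ((i : ℤ) - (s : ℤ)) := by
  rw [C_mul_X_pow_eq_monomial]
  unfold lam
  rw [Polynomial.lsum_apply, sum_monomial_index]
  · rfl
  · simp

private theorem nv_bd_C (s i : ℕ) (a : ℚ) :
    nvbd s (C a * X ^ i) = a * bz ((i : ℤ) - (s : ℤ)) := by
  rw [C_mul_X_pow_eq_monomial]
  unfold nvbd
  rw [Polynomial.lsum_apply, sum_monomial_index]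
  · rfl
  · simp

private theorem nv_ind {M : ℚ[X] → Prop} (hadd : ∀ p q, M p → M q → M (p + q))
    (hmon : ∀ (n : ℕ) (a : ℚ), M (C a * X ^ n)) (P : ℚ[X]) : M P :=
  Polynomial.induction_on' P hadd fun n a => by
    rw [← C_mul_X_pow_eq_monomial]; exact hmon n a

private theorem nv_X_der (n : ℕ) (a : ℚ) :
    X * derivative (C a * X ^ n : ℚ[X]) = C (a * n) * X ^ n := by
  rw [derivative_C_mul, derivative_X_pow]
  rcases Nat.eq_zero_or_pos n with rfl | hn
  · simp
  · obtain ⟨m, rfl⟩ : ∃ m, n = m + 1 := ⟨n - 1, by omega⟩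
    simp only [Nat.add_sub_cancel, C_mul, map_natCast]
    ring

private theorem nv_pearson (x y : ℚ) (s : ℕ) (P : ℚ[X]) :
    lam x y (s + 1) (X * P - 2 * wp * (X * derivative P) + 2 * (s : ℚ[X]) * wp * P)
      = x * nvbd s P := by
  refine nv_ind (M := fun P => lam x y (s + 1) (X * P - 2 * wp * (X * derivative P)
    + 2 * (s : ℚ[X]) * wp * P) = x * nvbd s P) ?_ ?_ P
  · intro p q hp hq
    rw [(nvbd s).map_add, mul_add x, ← hp, ← hq, ← (lam x y (s + 1)).map_add, derivative_add]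
    congr 1
    ring
  · intro n a
    rw [nv_X_der, nv_bd_C]
    have e : X * (C a * X ^ n) - 2 * wp * (C (a * n) * X ^ n) + 2 * (s : ℚ[X]) * wp * (C a * X ^ n)
        = C (a * (2 * (n - s) + 1)) * X ^ (n + 1) - C (a * (50 * (n - s))) * X ^ n := by
      unfold wp
      simp only [C_mul, C_add, C_sub, map_natCast, map_ofNat, C_1]
      ring
    rw [e, map_sub, nv_lam_C, nv_lam_C]
    have h1 : ((n + 1 : ℕ) : ℤ) - ((s + 1 : ℕ) : ℤ) = (n : ℤ) - s := by push_cast; ring
    have h2 : ((n : ℕ) : ℤ) - ((s + 1 : ℕ) : ℤ) = (n : ℤ) - s - 1 := by push_cast; ring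
    rw [h1, h2]
    have := nv_Lam_rec x y ((n : ℤ) - s)
    push_cast at this
    linear_combination a * this

private theorem nv_bd_qp (s : ℕ) (F : ℚ[X]) : nvbd s (qp * F) = 0 := by
  refine nv_ind (M := fun F => nvbd s (qp * F) = 0) ?_ ?_ F
  · intro p q hp hq
    rw [mul_add, map_add, hp, hq, add_zero]
  · intro n a
    have e : qp * (C a * X ^ n) = C a * X ^ (n + 2) - C (56 * a) * X ^ (n + 1)
        + C (800 * a) * X ^ n := by
      unfold qp
      simp only [C_mul, map_ofNat]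
      ring
    rw [e, map_add, map_sub, nv_bd_C, nv_bd_C, nv_bd_C]
    have h1 : ((n + 2 : ℕ) : ℤ) - (s : ℤ) = ((n : ℤ) - s) + 2 := by push_cast; ring
    have h2 : ((n + 1 : ℕ) : ℤ) - (s : ℤ) = ((n : ℤ) - s) + 1 := by push_cast; ring
    rw [h1, h2, nv_bz_rec]
    ring

private theorem nv_shift (x y : ℚ) (s : ℕ) (P : ℚ[X]) :
    lam x y s (X ^ s * P) = lam x y 0 P := by
  refine nv_ind (M := fun P => lam x y s (X ^ s * P) = lam x y 0 P) ?_ ?_ P
  · intro p q hp hq
    rw [mul_add, map_add, map_add, hp, hq]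
  · intro n a
    have e : X ^ s * (C a * X ^ n) = C a * X ^ (n + s) := by ring
    rw [e, nv_lam_C, nv_lam_C]
    congr 2
    push_cast
    ring

/-! ### The values on powers of `w` -/

/-- `u_l = Im (e^(2l+1)) / 2` -/
private def uu : ℕ → ℤ
  | 0 => 1
  | 1 => -1
  | (l + 2) => -6 * uu (l + 1) - 25 * uu l

private theorem nv_bd_wp : ∀ l : ℕ, nvbd 0 (wp ^ l) = (uu l : ℚ)
  | 0 => by
    have : (wp ^ 0 : ℚ[X]) = C 1 * X ^ 0 := by simp
    rw [this, nv_bd_C]
    show 1 * ((bp 0 : ℤ) : ℚ) = ((1 : ℤ) : ℚ)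
    norm_num [bp]
  | 1 => by
    have : (wp ^ 1 : ℚ[X]) = C 25 * X ^ 0 - C 1 * X ^ 1 := by simp [wp]
    rw [this, map_sub, nv_bd_C, nv_bd_C]
    show 25 * ((bp 0 : ℤ) : ℚ) - 1 * ((bp 1 : ℤ) : ℚ) = ((-1 : ℤ) : ℚ)
    norm_num [bp]
  | (l + 2) => by
    have : (wp ^ (l + 2) : ℚ[X]) = qp * wp ^ l - C 6 * wp ^ (l + 1) - C 25 * wp ^ l := by
      have h : (wp ^ 2 : ℚ[X]) = qp - C 6 * wp - C 25 := by
        unfold wp qp
        simp only [map_ofNat]
        ring
      rw [pow_add, h]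
      ring
    rw [this, map_sub, map_sub, nv_bd_qp, ← smul_eq_C_mul, ← smul_eq_C_mul, map_smul, map_smul,
      nv_bd_wp (l + 1), nv_bd_wp l, uu]
    push_cast
    simp only [smul_eq_mul]
    ring

private theorem nv_lam_wp (x y : ℚ) (l : ℕ) :
    lam x y 0 (wp ^ l) = x * ((uu l : ℚ) / ((2 * l + 1 : ℕ) : ℚ)) := by
  have h := nv_pearson x y 0 (wp ^ l)
  have e : X * wp ^ l - 2 * wp * (X * derivative (wp ^ l)) + 2 * ((0 : ℕ) : ℚ[X]) * wp * wp ^ l
      = X ^ 1 * (C ((2 * l + 1 : ℕ) : ℚ) * wp ^ l) := by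
    rw [derivative_pow]
    have hw : derivative wp = -1 := by unfold wp; simp
    rw [hw]
    rcases Nat.eq_zero_or_pos l with rfl | hl
    · simp
    · obtain ⟨m, rfl⟩ : ∃ m, l = m + 1 := ⟨l - 1, by omega⟩
      simp only [Nat.add_sub_cancel, map_natCast]
      push_cast
      ring
  rw [e, nv_shift, ← smul_eq_C_mul, map_smul, smul_eq_mul, nv_bd_wp] at h
  have hne : ((2 * l + 1 : ℕ) : ℚ) ≠ 0 := by positivity
  field_simp
  linarith

private theorem nv_gauss (l : ℕ) :
    ((⟨-1, 2⟩ : GaussianInt) ^ (2 * l + 1)).im = 2 * uu l := by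
  have hrec : ∀ l : ℕ, (⟨-1, 2⟩ : GaussianInt) ^ (2 * (l + 2) + 1)
      = -6 * (⟨-1, 2⟩ : GaussianInt) ^ (2 * (l + 1) + 1) - 25 * (⟨-1, 2⟩ : GaussianInt) ^ (2 * l + 1) := by
    intro l
    have h4 : (⟨-1, 2⟩ : GaussianInt) ^ 4 = -6 * (⟨-1, 2⟩ : GaussianInt) ^ 2 - 25 := by
      decide
    have : 2 * (l + 2) + 1 = 4 + (2 * l + 1) := by ring
    rw [this, pow_add, h4]
    ring
  induction l using Nat.strong_induction_on with
  | _ l ih =>
    match l with
    | 0 => simp [uu]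
    | 1 => decide
    | (l + 2) =>
      rw [hrec, uu, Zsqrtd.im_sub]
      have h1 : (-6 * (⟨-1, 2⟩ : GaussianInt) ^ (2 * (l + 1) + 1)).im = -6 * (2 * uu (l + 1)) := by
        rw [← ih (l + 1) (by omega)]
        simp
      have h2 : (25 * (⟨-1, 2⟩ : GaussianInt) ^ (2 * l + 1)).im = 25 * (2 * uu l) := by
        rw [← ih l (by omega)]
        simp
      rw [h1, h2]
      ring

private theorem nv_uu_not_dvd {p L : ℕ} (hp : p.Prime) (hL : p = 2 * L + 1) :
    ¬ (p : ℤ) ∣ uu L := by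
  intro hdvd
  obtain ⟨r, hr⟩ := exists_add_pow_prime_eq hp (⟨-1, 0⟩ : GaussianInt) (⟨0, 2⟩ : GaussianInt)
  have h1 : (⟨-1, 0⟩ : GaussianInt) + ⟨0, 2⟩ = ⟨-1, 2⟩ := rfl
  have h2 : (⟨-1, 0⟩ : GaussianInt) ^ p = -1 := by
    have : (⟨-1, 0⟩ : GaussianInt) = -1 := rfl
    rw [this]
    exact Odd.neg_one_pow ⟨L, hL⟩
  have h3 : (⟨0, 2⟩ : GaussianInt) ^ p = ((-4 : ℤ) ^ L : ℤ) * (⟨0, 2⟩ : GaussianInt) := by
    rw [hL, pow_succ, pow_mul]
    have : (⟨0, 2⟩ : GaussianInt) ^ 2 = ((-4 : ℤ) : GaussianInt) := by decide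
    rw [this]
    push_cast
    rfl
  rw [h1, h2, h3] at hr
  have him := congrArg Zsqrtd.im hr
  rw [hL, nv_gauss L, ← hL] at him
  have h4 : ((-1 : GaussianInt) + ((-4 : ℤ) ^ L : ℤ) * (⟨0, 2⟩ : GaussianInt)
      + (p : GaussianInt) * ⟨-1, 0⟩ * ⟨0, 2⟩ * r).im
      = 2 * (-4) ^ L + (p : ℤ) * ((⟨-1, 0⟩ : GaussianInt) * ⟨0, 2⟩ * r).im := by
    rw [mul_assoc, mul_assoc, ← mul_assoc (⟨-1, 0⟩ : GaussianInt)]
    have h5 : ((p : GaussianInt) * (⟨-1, 0⟩ * ⟨0, 2⟩ * r)).im
        = (p : ℤ) * ((⟨-1, 0⟩ : GaussianInt) * ⟨0, 2⟩ * r).im := by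
      simp
    have h13 : ((((-4 : ℤ) ^ L : ℤ) : GaussianInt) * (⟨0, 2⟩ : GaussianInt)).im
        = 2 * (-4) ^ L := by
      rw [Zsqrtd.im_mul, Zsqrtd.re_intCast, Zsqrtd.im_intCast]
      ring
    rw [Zsqrtd.im_add, Zsqrtd.im_add, h5, h13]
    simp
  rw [h4] at him
  have h6 : (p : ℤ) ∣ 2 * (-4) ^ L := by
    have h7 : (2 * (-4) ^ L : ℤ) = 2 * uu L
        - (p : ℤ) * ((⟨-1, 0⟩ : GaussianInt) * ⟨0, 2⟩ * r).im := by linarith
    rw [h7]
    exact dvd_sub (Dvd.dvd.mul_left hdvd 2) (Dvd.intro _ rfl)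
  have hpi : Prime (p : ℤ) := Nat.prime_iff_prime_int.mp hp
  have h8 : (p : ℤ) ∣ 2 := by
    rcases hpi.dvd_or_dvd h6 with h | h
    · exact h
    · have h9 := hpi.dvd_of_dvd_pow h
      have h10 : (p : ℤ) ∣ 2 * 2 := by
        have : (2 * 2 : ℤ) = -(-4) := by norm_num
        rw [this]
        exact (dvd_neg).mpr h9
      rcases hpi.dvd_or_dvd h10 with h | h <;> exact h
  have h11 : p ∣ 2 := by exact_mod_cast h8
  have h12 := (Nat.prime_dvd_prime_iff_eq hp Nat.prime_two).mp h11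
  omega

/-! ### The contradiction -/

private theorem nv_norm_le_one {p : ℕ} [Fact p.Prime] {q : ℚ} (h1 : q.den < p) :
    padicNorm p q ≤ 1 := by
  have h : padicNorm p (q.den : ℚ) = 1 :=
    (padicNorm.nat_eq_one_iff q.den).mpr (Nat.not_dvd_of_pos_of_lt q.pos h1)
  have h2 : padicNorm p q = padicNorm p ((q.num : ℚ) / (q.den : ℚ)) := by
    rw [Rat.num_div_den]
  rw [h2, padicNorm.div, h, div_one]
  exact padicNorm.of_int q.num

private theorem nv_norm_eq_one {p : ℕ} [Fact p.Prime] {q : ℚ} (hq : q ≠ 0) (h1 : q.den < p)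
    (h2 : q.num.natAbs < p) : padicNorm p q = 1 := by
  have h : padicNorm p (q.den : ℚ) = 1 :=
    (padicNorm.nat_eq_one_iff q.den).mpr (Nat.not_dvd_of_pos_of_lt q.pos h1)
  have h' : padicNorm p (q.num : ℚ) = 1 := by
    refine (padicNorm.int_eq_one_iff q.num).mpr fun hd => ?_
    have h3 : p ∣ q.num.natAbs := Int.natCast_dvd.mp hd
    exact Nat.not_dvd_of_pos_of_lt (Int.natAbs_pos.mpr (Rat.num_ne_zero.mpr hq)) h2 h3
  have h4 : padicNorm p q = padicNorm p ((q.num : ℚ) / (q.den : ℚ)) := by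
    rw [Rat.num_div_den]
  rw [h4, padicNorm.div, h, h', div_one]

private theorem nv_contra {x y : ℚ} (hx : x ≠ 0) {D : ℚ[X]} (hD : D ≠ 0)
    (h : ∀ F, lam x y 0 (D * F) = 0) : False := by
  set E := D.comp wp with hEdef
  have hE : E.comp wp = D := by
    rw [hEdef, comp_assoc]
    have : wp.comp wp = X := by
      unfold wp
      simp
    rw [this, comp_X]
  have hE0 : E ≠ 0 := by
    intro h0
    rw [h0, zero_comp] at hE
    exact hD hE.symm
  set d := E.natDegree with hd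
  have hsum : D = ∑ i ∈ Finset.range (d + 1), C (E.coeff i) * wp ^ i := by
    rw [← hE, hd]
    exact eval₂_eq_sum_range C wp
  obtain ⟨p, hpN, hp⟩ := Nat.exists_infinite_primes
    ((∑ i ∈ Finset.range (d + 1), ((E.coeff i).den + (E.coeff i).num.natAbs)) + 2 * d + 3)
  haveI : Fact p.Prime := ⟨hp⟩
  obtain ⟨L, hL⟩ : ∃ L, p = 2 * L + 1 := by
    rcases hp.eq_two_or_odd' with h2 | h2
    · omega
    · exact h2
  have hbd : ∀ i ∈ Finset.range (d + 1),
      (E.coeff i).den + (E.coeff i).num.natAbs < p := by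
    intro i hi
    have := Finset.single_le_sum
      (f := fun i => (E.coeff i).den + (E.coeff i).num.natAbs) (fun i _ => Nat.zero_le _) hi
    omega
  have hLd : d ≤ L := by omega
  have h1 := h (wp ^ (L - d))
  rw [hsum, Finset.sum_mul, map_sum] at h1
  have h2 : ∀ i ∈ Finset.range (d + 1), lam x y 0 (C (E.coeff i) * wp ^ i * wp ^ (L - d))
      = x * (E.coeff i * ((uu (i + (L - d)) : ℚ) / ((2 * (i + (L - d)) + 1 : ℕ) : ℚ))) := by
    intro i _
    rw [mul_assoc, ← pow_add, ← smul_eq_C_mul, map_smul, smul_eq_mul, nv_lam_wp]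
    ring
  rw [Finset.sum_congr rfl h2, ← Finset.mul_sum] at h1
  have h3 := (mul_eq_zero.mp h1).resolve_left hx
  rw [Finset.sum_range_succ] at h3
  have hL' : d + (L - d) = L := by omega
  rw [hL', ← hL] at h3
  have hlast : padicNorm p (E.coeff d * ((uu L : ℚ) / (p : ℚ))) = p := by
    have hc : E.coeff d ≠ 0 := by
      rw [hd]
      exact leadingCoeff_ne_zero.mpr hE0
    have hb := hbd d (Finset.self_mem_range_succ d)
    rw [padicNorm.mul, padicNorm.div, nv_norm_eq_one hc (by omega) (by omega),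
      (padicNorm.int_eq_one_iff (uu L)).mpr (nv_uu_not_dvd hp hL), padicNorm.padicNorm_p_of_prime]
    simp
  have hrest : padicNorm p (∑ i ∈ Finset.range d,
      E.coeff i * ((uu (i + (L - d)) : ℚ) / ((2 * (i + (L - d)) + 1 : ℕ) : ℚ))) ≤ 1 := by
    refine padicNorm.sum_le' (fun i hi => ?_) zero_le_one
    have hi' := Finset.mem_range.mp hi
    have hb := hbd i (Finset.mem_range.mpr (by omega))
    have h4 : padicNorm p ((2 * (i + (L - d)) + 1 : ℕ) : ℚ) = 1 :=
      (padicNorm.nat_eq_one_iff _).mpr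
        (Nat.not_dvd_of_pos_of_lt (Nat.succ_pos _) (by omega))
    rw [padicNorm.mul, padicNorm.div, h4, div_one]
    exact mul_le_one₀ (nv_norm_le_one (by omega)) (padicNorm.nonneg _) (padicNorm.of_int _)
  have h5 : E.coeff d * ((uu L : ℚ) / (p : ℚ)) = - ∑ i ∈ Finset.range d,
      E.coeff i * ((uu (i + (L - d)) : ℚ) / ((2 * (i + (L - d)) + 1 : ℕ) : ℚ)) := by linarith
  rw [h5, padicNorm.neg] at hlast
  rw [hlast] at hrest
  have : (1 : ℚ) < p := by exact_mod_cast hp.one_lt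
  linarith

private theorem nv_wp_ne : wp ≠ 0 := by
  intro h
  have := congrArg (fun P : ℚ[X] => P.coeff 0) h
  simp [wp] at this

private theorem nv_qp_ne : qp ≠ 0 := by
  intro h
  have := congrArg (fun P : ℚ[X] => P.eval 0) h
  simp [qp] at this

private theorem nv_Wp_der (n : ℕ) :
    wp * derivative (Wp n * qp)
      = Wp n * (-(45 * n : ℚ[X]) * qp + (90 * n + 1 : ℚ[X]) * wp * derivative qp) := by
  have hW : Wp n * qp = wp ^ (45 * n) * qp ^ (90 * n + 1) := by
    unfold Wp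
    rw [pow_succ]
    ring
  have hw : derivative wp = -1 := by unfold wp; simp
  rw [hW, derivative_mul, derivative_pow, derivative_pow, hw]
  unfold Wp
  rcases Nat.eq_zero_or_pos n with rfl | hn
  · simp
  · obtain ⟨m, hm⟩ : ∃ m, 45 * n = m + 1 := ⟨45 * n - 1, by omega⟩
    have hm' : (45 * n : ℚ[X]) = ((m + 1 : ℕ) : ℚ[X]) := by
      rw [← hm]
      push_cast
      ring
    rw [hm, hm']
    simp only [Nat.add_sub_cancel, map_natCast]
    push_cast
    ring

theorem nonvanish (x y : ℤ) (hx : x ≠ 0) (n K : ℕ) (hn : 1 ≤ n) :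
    ∃ κ ≤ 2, (Mat x y n (K + κ)).det ≠ 0 := by
  by_contra hcon
  push Not at hcon
  obtain ⟨s, hs⟩ : ∃ s, 180 * n = s + 1 := ⟨180 * n - 1, by omega⟩
  set l : ℚ[X] →ₗ[ℚ] ℚ := (lam x y (180 * n)).comp (LinearMap.mulLeft ℚ (Wp n)) with hl
  have hlF : ∀ F, l F = lam x y (180 * n) (Wp n * F) := fun F => rfl
  have hM : ∀ k, nvH l k = Mat x y n k := fun k => rfl
  have hP : ∀ F : ℚ[X], l ((-2 * wp * X * qp) * derivative F
      + (X * qp - 2 * X * (-(45 * n : ℚ[X]) * qp + (90 * n + 1 : ℚ[X]) * wp * derivative qp)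
        + 2 * (s : ℚ[X]) * wp * qp) * F) = 0 := by
    intro F
    rw [hlF, hs]
    have h1 := nv_pearson x y s (Wp n * qp * F)
    have h2 : nvbd s (Wp n * qp * F) = 0 := by
      rw [mul_comm (Wp n) qp, mul_assoc]
      exact nv_bd_qp s _
    rw [h2, mul_zero] at h1
    rw [← h1]
    congr 1
    rw [derivative_mul]
    linear_combination (2 * X * F) * nv_Wp_der n
  have hq' : derivative qp = 2 * X - 56 := by
    have h56 : (C 56 : ℚ[X]) = 56 := by simp only [map_ofNat]
    unfold qp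
    simp
    rw [h56]
    ring
  have key := nv_total l (Φ := -2 * wp * X * qp)
    (S := X * qp - 2 * X * (-(45 * n : ℚ[X]) * qp + (90 * n + 1 : ℚ[X]) * wp * derivative qp)
        + 2 * (s : ℚ[X]) * wp * qp) (s3 := 7 + 90 * n) ?_ ?_ ?_ ?_ ?_ hP (K := K)
    (by rw [hM]; exact hcon 0 (by norm_num)) (by rw [hM]; exact hcon 1 (by norm_num))
    (by rw [hM]; exact hcon 2 le_rfl)
  · obtain ⟨Q, hQ, hQl⟩ := key
    refine nv_contra (x := x) (y := y) (by exact_mod_cast hx) (D := Wp n * Q) ?_ ?_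
    · refine mul_ne_zero ?_ hQ.ne_zero
      unfold Wp
      exact mul_ne_zero (pow_ne_zero _ nv_wp_ne) (pow_ne_zero _ nv_qp_ne)
    · intro F
      have := hQl (X ^ (180 * n) * F)
      rw [hlF] at this
      rw [← nv_shift x y (180 * n), ← this]
      congr 1
      ring
  · unfold wp qp
    compute_degree
  · unfold wp qp
    compute_degree!
  · rw [hq']
    unfold wp qp
    compute_degree!
  · rw [hq']
    unfold wp qp
    compute_degree!
    have hs' : (180 : ℚ) * n = s + 1 := by exact_mod_cast hs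
    push_cast
    norm_num
    linarith
  · intro j
    positivity

end Pool.Agent.Lib.PiMu
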