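import Pool.Agent.Lib.PiMu.Moments

namespace Pool.Agent.Lib.PiMu
open Polynomial

lemma lam_monomial (x y : ℚ) (s i : ℕ) (a : ℚ) :
    lam x y s (monomial i a) = a * Lam x y ((i : ℤ) - s) := by
  simp [lam, Polynomial.lsum_apply]

lemma lam_X_pow (x y : ℚ) (s i : ℕ) : lam x y s (X ^ i) = Lam x y ((i : ℤ) - s) := by
  rw [← monomial_one_right_eq_X_pow, lam_monomial, one_mul]

lemma lam_eq_sum (x y : ℚ) (s : ℕ) (P : ℚ[X]) :
    lam x y s P = ∑ i ∈ P.support, P.coeff i * Lam x y ((i : ℤ) - s) := by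
  simp [lam, Polynomial.lsum_apply, Polynomial.sum_def]

lemma lam_X_mul (x y : ℚ) (s : ℕ) (P : ℚ[X]) : lam x y (s + 1) (X * P) = lam x y s P := by
  induction P using Polynomial.induction_on' with
  | add p q hp hq => rw [mul_add, map_add, map_add, hp, hq]
  | monomial n a =>
    rw [X_mul_monomial, lam_monomial, lam_monomial]
    congr 2
    push_cast
    ring

lemma lam_X_pow_mul (x y : ℚ) (s j : ℕ) (P : ℚ[X]) :
    lam x y (s + j) (X ^ j * P) = lam x y s P := by
  induction j with
  | zero => simp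
  | succ j ih => rw [pow_succ', mul_assoc, ← add_assoc, lam_X_mul, ih]

/-- boundary functional -/
noncomputable def bd (x : ℚ) (s : ℕ) : ℚ[X] →ₗ[ℚ] ℚ :=
  Polynomial.lsum fun i => LinearMap.mulRight ℚ (x * bz ((i : ℤ) - (s : ℤ)))

lemma bd_monomial (x : ℚ) (s i : ℕ) (a : ℚ) :
    bd x s (monomial i a) = a * (x * bz ((i : ℤ) - s)) := by
  simp [bd, Polynomial.lsum_apply, mul_assoc]

lemma lam_theta (x y : ℚ) (s : ℕ) (P : ℚ[X]) :
    lam x y (s + 1) (X * P - 2 * wp * X * derivative P + C (2 * (s : ℚ)) * wp * P) = bd x s P := by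
  induction P using Polynomial.induction_on' with
  | add p q hp hq =>
    rw [map_add (bd x s), ← hp, ← hq, ← map_add]
    congr 1
    simp only [derivative_add]
    ring
  | monomial n a =>
    have h1 : X * monomial n a - 2 * wp * X * derivative (monomial n a) +
        C (2 * (s : ℚ)) * wp * monomial n a =
        monomial (n + 1) (a * (2 * ((n : ℚ) - s) + 1)) - monomial n (a * (50 * ((n : ℚ) - s))) := by
      have hX : X * derivative (monomial n a) = (n : ℚ[X]) * monomial n a := by
        rw [derivative_monomial]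
        cases n with
        | zero => simp
        | succ n =>
          rw [X_mul_monomial, ← C_eq_natCast, C_mul_monomial]
          simp [mul_comm]
      have e1 : (monomial (n + 1) (a * (2 * ((n : ℚ) - s) + 1)) : ℚ[X]) =
          C (2 * ((n : ℚ) - s) + 1) * (X * monomial n a) := by
        rw [X_mul_monomial, C_mul_monomial, mul_comm]
      have e2 : (monomial n (a * (50 * ((n : ℚ) - s))) : ℚ[X]) =
          C (50 * ((n : ℚ) - s)) * monomial n a := by
        rw [C_mul_monomial, mul_comm]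
      rw [e1, e2]
      calc X * monomial n a - 2 * wp * X * derivative (monomial n a) +
          C (2 * (s : ℚ)) * wp * monomial n a
          = X * monomial n a - 2 * wp * (X * derivative (monomial n a)) +
          C (2 * (s : ℚ)) * wp * monomial n a := by ring
        _ = _ := by
          rw [hX]
          simp only [wp, map_mul, map_add, map_sub, map_ofNat, map_natCast, map_one]
          ring
    rw [h1, map_sub, lam_monomial, lam_monomial, bd_monomial, ← Lam_rec x y]
    have e3 : (((n + 1 : ℕ) : ℤ) - ((s + 1 : ℕ) : ℤ)) = (n : ℤ) - s := by push_cast; ring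
    have e4 : ((n : ℤ) - ((s + 1 : ℕ) : ℤ)) = (n : ℤ) - s - 1 := by push_cast; ring
    rw [e3, e4]
    push_cast
    ring

lemma bz_rec (k : ℤ) : bz (k + 2) = 56 * bz (k + 1) - 800 * bz k := by
  rcases k with k | k
  · show bz (((k + 2 : ℕ) : ℤ)) = 56 * bz (((k + 1 : ℕ) : ℤ)) - 800 * bz ((k : ℕ) : ℤ)
    have h1 : ∀ j : ℕ, bz (j : ℤ) = (bp j : ℚ) := fun j => rfl
    rw [h1, h1, h1]
    have : bp (k + 2) = 56 * bp (k + 1) - 800 * bp k := rfl
    rw [this]
    push_cast
    ring
  · have h2 : ∀ j : ℕ, bz (Int.negSucc j) = (bn (j + 1) : ℚ) / 800 ^ (j + 1) := fun j => rfl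
    match k with
    | 0 =>
      have e1 : (Int.negSucc 0 + 2 : ℤ) = ((1 : ℕ) : ℤ) := by decide
      have e2 : (Int.negSucc 0 + 1 : ℤ) = ((0 : ℕ) : ℤ) := by decide
      rw [e1, e2, h2]
      show ((26 : ℤ) : ℚ) = 56 * ((1 : ℤ) : ℚ) - 800 * (((30 : ℤ) : ℚ) / 800 ^ (0 + 1))
      norm_num
    | 1 =>
      have e1 : (Int.negSucc 1 + 2 : ℤ) = ((0 : ℕ) : ℤ) := by decide
      have e2 : (Int.negSucc 1 + 1 : ℤ) = Int.negSucc 0 := by decide
      rw [e1, e2, h2, h2]
      have e3 : bn (1 + 1) = 880 := by decide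
      have e4 : bn (0 + 1) = 30 := by decide
      rw [e3, e4]
      show ((1 : ℤ) : ℚ) = _
      norm_num
    | (j + 2) =>
      have e1 : (Int.negSucc (j + 2) + 2 : ℤ) = Int.negSucc j := by
        simp only [Int.negSucc_eq]; push_cast; ring
      have e2 : (Int.negSucc (j + 2) + 1 : ℤ) = Int.negSucc (j + 1) := by
        simp only [Int.negSucc_eq]; push_cast; ring
      rw [e1, e2, h2, h2, h2]
      have e3 : bn (j + 2 + 1) = 56 * bn (j + 1 + 1) - 800 * bn (j + 1) := rfl
      rw [e3]
      push_cast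
      have h8 : (800 : ℚ) ^ (j + 1) ≠ 0 := by positivity
      rw [pow_succ (800 : ℚ) (j + 2), pow_succ (800 : ℚ) (j + 1)]
      field_simp
      ring

lemma bd_qp (x : ℚ) (s : ℕ) (P : ℚ[X]) : bd x s (qp * P) = 0 := by
  induction P using Polynomial.induction_on' with
  | add p q hp hq => rw [mul_add, map_add, hp, hq, add_zero]
  | monomial n a =>
    have h1 : qp * monomial n a =
        monomial (n + 2) a - monomial (n + 1) (56 * a) + monomial n (800 * a) := by
      have e1 : (monomial (n + 2) a : ℚ[X]) = X * (X * monomial n a) := by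
        rw [X_mul_monomial, X_mul_monomial]
      have e2 : (monomial (n + 1) (56 * a) : ℚ[X]) = C 56 * (X * monomial n a) := by
        rw [X_mul_monomial, C_mul_monomial]
      have e3 : (monomial n (800 * a) : ℚ[X]) = C 800 * monomial n a := by
        rw [C_mul_monomial]
      rw [e1, e2, e3, qp]
      ring
    rw [h1, map_add, map_sub, bd_monomial, bd_monomial, bd_monomial]
    have e1 : (((n + 2 : ℕ) : ℤ) - (s : ℤ)) = ((n : ℤ) - s) + 2 := by push_cast; ring
    have e2 : (((n + 1 : ℕ) : ℤ) - (s : ℤ)) = ((n : ℤ) - s) + 1 := by push_cast; ring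
    rw [e1, e2, bz_rec]
    ring

/-! ### polynomials with `p`-integral coefficients -/

section
set_option linter.unusedSectionVars false
variable {p : ℕ} [hp : Fact p.Prime]

lemma padicNorm_intCast_le (z : ℤ) : padicNorm p (z : ℚ) ≤ 1 := padicNorm.of_int z

lemma PInt.zero : PInt p 0 := by intro i; simp

lemma PInt.add {P Q : ℚ[X]} (hP : PInt p P) (hQ : PInt p Q) : PInt p (P + Q) := by
  intro i
  rw [coeff_add]
  exact (padicNorm.nonarchimedean).trans (max_le (hP i) (hQ i))

lemma PInt.neg {P : ℚ[X]} (hP : PInt p P) : PInt p (-P) := by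
  intro i
  rw [coeff_neg, padicNorm.neg]
  exact hP i

lemma PInt.sub {P Q : ℚ[X]} (hP : PInt p P) (hQ : PInt p Q) : PInt p (P - Q) := by
  rw [sub_eq_add_neg]
  exact hP.add hQ.neg

lemma PInt.mul {P Q : ℚ[X]} (hP : PInt p P) (hQ : PInt p Q) : PInt p (P * Q) := by
  intro i
  rw [coeff_mul]
  apply padicNorm.sum_le' _ zero_le_one
  intro j _
  rw [padicNorm.mul]
  exact mul_le_one₀ (hP _) (padicNorm.nonneg _) (hQ _)

lemma PInt.C {a : ℚ} (ha : padicNorm p a ≤ 1) : PInt p (C a) := by
  intro i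
  rw [coeff_C]
  split_ifs
  · exact ha
  · simp

lemma PInt.ofInt (z : ℤ) : PInt p (Polynomial.C (z : ℚ)) := PInt.C (padicNorm_intCast_le z)

lemma PInt.X : PInt p (X : ℚ[X]) := by
  intro i
  rw [coeff_X]
  split_ifs <;> simp

lemma PInt.one : PInt p (1 : ℚ[X]) := by
  have := PInt.ofInt (p := p) 1
  simpa using this

lemma PInt.pow {P : ℚ[X]} (hP : PInt p P) (k : ℕ) : PInt p (P ^ k) := by
  induction k with
  | zero => simpa using PInt.one
  | succ k ih => rw [pow_succ]; exact ih.mul hP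

lemma PInt.sum {ι : Type*} {s : Finset ι} {f : ι → ℚ[X]} (h : ∀ i ∈ s, PInt p (f i)) :
    PInt p (∑ i ∈ s, f i) := by
  classical
  induction s using Finset.induction_on with
  | empty => simpa using PInt.zero
  | insert a s ha ih =>
    rw [Finset.sum_insert ha]
    exact (h a (Finset.mem_insert_self _ _)).add
      (ih fun i hi => h i (Finset.mem_insert_of_mem hi))

lemma PInt.comp {P Q : ℚ[X]} (hP : PInt p P) (hQ : PInt p Q) : PInt p (P.comp Q) := by
  rw [comp_eq_sum_left, Polynomial.sum_def]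
  exact PInt.sum fun i _ => (PInt.C (hP i)).mul (hQ.pow i)

lemma PInt.wp : PInt p wp := by
  have := PInt.ofInt (p := p) 25
  exact (by simpa using this : PInt p (Polynomial.C (25 : ℚ))).sub PInt.X

lemma PInt.qp : PInt p qp := by
  have h1 := PInt.ofInt (p := p) 56
  have h2 := PInt.ofInt (p := p) 800
  simp only [Int.cast_ofNat] at h1 h2
  exact ((PInt.X.pow 2).sub (h1.mul PInt.X)).add h2

lemma lam_norm_le {P : ℚ[X]} (hP : PInt p P) (x y : ℚ) (s D : ℕ) (B : ℚ) (hB : 0 ≤ B)
    (hD : P.natDegree ≤ D) (h : ∀ i ≤ D, padicNorm p (Lam x y ((i : ℤ) - s)) ≤ B) :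
    padicNorm p (lam x y s P) ≤ B := by
  rw [lam_eq_sum]
  apply padicNorm.sum_le' _ hB
  intro i hi
  rw [padicNorm.mul]
  calc padicNorm p (P.coeff i) * padicNorm p (Lam x y ((i : ℤ) - s))
      ≤ 1 * B := mul_le_mul (hP i) (h i ((le_natDegree_of_mem_supp i hi).trans hD))
        (padicNorm.nonneg _) zero_le_one
    _ = B := one_mul B

end

/-! ### the resonance -/

theorem resonance {p : ℕ} [hp : Fact p.Prime] (h2 : p ≠ 2) (h5 : p ≠ 5) (x y : ℤ) (G : ℚ[X])
    (hG : PInt p G) (h25 : G.eval 25 = 0) (hdeg : G.natDegree ≤ p - 1) :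
    padicNorm p (lam x y (2 * p) (wp ^ ((p - 1) / 2) * qp ^ p * G)) ≤ 1 := by
  have hp2 : 3 ≤ p := by
    have := hp.out.two_le
    omega
  have hodd : p % 2 = 1 := by
    rcases hp.out.eq_two_or_odd with h | h
    · exact absurd h h2
    · exact h
  obtain ⟨h, hh⟩ : ∃ h, p = 2 * h + 1 := ⟨p / 2, by omega⟩
  have hh2 : (p - 1) / 2 = h := by omega
  rw [hh2]
  -- the expansion in powers of `w`
  set G1 : ℚ[X] := G.comp wp with hG1
  have hww : wp.comp wp = X := by simp [wp]
  have hG1c : G1.comp wp = G := by rw [hG1, comp_assoc, hww, comp_X]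
  have hG1i : PInt p G1 := hG.comp PInt.wp
  have hwdeg : wp.natDegree = 1 := by
    unfold wp
    compute_degree!
  have hG1d : G1.natDegree ≤ p - 1 := by
    rw [hG1]
    refine natDegree_comp_le.trans ?_
    rw [hwdeg, mul_one]
    exact hdeg
  have hG10 : G1.coeff 0 = 0 := by
    rw [coeff_zero_eq_eval_zero, hG1, eval_comp]
    simpa [wp] using h25
  set Y1 : ℚ[X] := ∑ l ∈ Finset.Icc 1 (p - 1), C (G1.coeff l / (2 * l)) * X ^ l with hY1
  have hY1i : PInt p Y1 := by
    rw [hY1]
    refine PInt.sum fun l hl => (PInt.C ?_).mul (PInt.X.pow l)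
    rw [Finset.mem_Icc] at hl
    rw [padicNorm.div]
    have h3 : padicNorm p (2 * (l : ℚ)) = 1 := by
      rw [padicNorm.mul]
      have e1 : padicNorm p (2 : ℚ) = 1 := by
        have : padicNorm p ((2 : ℕ) : ℚ) = 1 := by
          rw [padicNorm.nat_eq_one_iff]
          intro hd
          exact h2 ((Nat.prime_dvd_prime_iff_eq hp.out Nat.prime_two).mp hd)
        simpa using this
      have e2 : padicNorm p (l : ℚ) = 1 := by
        rw [padicNorm.nat_eq_one_iff]
        intro hd
        exact absurd (Nat.le_of_dvd (by omega) hd) (by omega)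
      rw [e1, e2, one_mul]
    rw [h3, div_one]
    exact hG1i l
  have hYd : 2 * X * derivative Y1 = G1 := by
    have e1 : G1 = ∑ l ∈ Finset.Icc 1 (p - 1), C (G1.coeff l) * X ^ l := by
      conv_lhs => rw [G1.as_sum_range' p (by omega)]
      rw [Finset.range_eq_Ico, ← Finset.sum_Ioo_add_eq_sum_Ico (by omega : 0 < p)]
      simp only [hG10, map_zero, add_zero]
      refine Finset.sum_congr ?_ fun l _ => ?_
      · ext l; simp; omega
      · rw [C_mul_X_pow_eq_monomial]
    rw [hY1, derivative_sum, Finset.mul_sum]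
    conv_rhs => rw [e1]
    refine Finset.sum_congr rfl fun l hl => ?_
    rw [Finset.mem_Icc] at hl
    rw [derivative_C_mul_X_pow]
    obtain ⟨m, rfl⟩ : ∃ m, l = m + 1 := ⟨l - 1, by omega⟩
    have e2 : (2 : ℚ[X]) = C 2 := (map_ofNat C 2).symm
    rw [e2, Nat.add_sub_cancel]
    have hm : ((m : ℚ) + 1) ≠ 0 := by positivity
    calc C 2 * X * (C (G1.coeff (m + 1) / (2 * ((m + 1 : ℕ) : ℚ)) * ((m + 1 : ℕ) : ℚ)) * X ^ m)
        = C (2 * (G1.coeff (m + 1) / (2 * ((m + 1 : ℕ) : ℚ)) * ((m + 1 : ℕ) : ℚ))) * X ^ (m + 1) := by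
          rw [map_mul C 2]
          ring
      _ = _ := by
          congr 2
          push_cast
          field_simp
  set Y : ℚ[X] := Y1.comp wp with hY
  have hYi : PInt p Y := hY1i.comp PInt.wp
  have hYdeg : Y.natDegree ≤ p - 1 := by
    rw [hY]
    refine natDegree_comp_le.trans ?_
    rw [hwdeg, mul_one, hY1]
    refine natDegree_sum_le_of_forall_le _ _ fun l hl => ?_
    rw [Finset.mem_Icc] at hl
    exact (natDegree_C_mul_X_pow_le _ _).trans hl.2
  have hY' : 2 * wp * derivative Y = - G := by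
    rw [hY, derivative_comp]
    have e1 : derivative wp = -1 := by simp [wp]
    rw [e1, ← hG1c, ← hYd]
    simp only [mul_comp, X_comp, ofNat_comp]
    ring
  -- the primitive
  set P : ℚ[X] := Y * wp ^ h * qp ^ p with hP
  set H : ℚ[X] := X * Y * wp ^ h * qp ^ p - 2 * X * Y * wp ^ (h + 1) * qp ^ (p - 1) * derivative qp
    + 4 * Y * wp ^ (h + 1) * qp ^ p with hH
  have hkey : X * P - 2 * wp * X * derivative P + C (2 * ((2 * p : ℕ) : ℚ)) * wp * P =
      X * (wp ^ h * qp ^ p * G) + C (p : ℚ) * H := by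
    obtain ⟨p', hp'⟩ : ∃ p', p = p' + 1 := ⟨p - 1, by omega⟩
    have hdw : derivative wp = -1 := by simp [wp]
    have hdP : derivative P = derivative Y * wp ^ h * qp ^ p
        + Y * (derivative (wp ^ h)) * qp ^ p + Y * wp ^ h * (derivative (qp ^ p)) := by
      rw [hP, derivative_mul, derivative_mul]
      ring
    have hdwh : wp * derivative (wp ^ h) = - C (h : ℚ) * wp ^ h := by
      rw [derivative_pow, hdw]
      cases h with
      | zero => simp
      | succ h => rw [Nat.add_sub_cancel]; ring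
    have hdqp : derivative (qp ^ p) = C (p : ℚ) * qp ^ (p - 1) * derivative qp := by
      rw [derivative_pow]
    have hph : (C (p : ℚ) : ℚ[X]) = 2 * C (h : ℚ) + 1 := by
      conv_lhs => rw [hh]
      push_cast
      rw [map_add, map_mul, map_one, map_ofNat]
    calc X * P - 2 * wp * X * derivative P + C (2 * ((2 * p : ℕ) : ℚ)) * wp * P
        = X * P - (2 * wp * derivative Y) * X * wp ^ h * qp ^ p
          - 2 * X * Y * (wp * derivative (wp ^ h)) * qp ^ p
          - 2 * X * Y * wp ^ (h + 1) * (derivative (qp ^ p))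
          + 4 * C (p : ℚ) * wp * P := by
          rw [hdP]
          have : (C (2 * ((2 * p : ℕ) : ℚ)) : ℚ[X]) = 4 * C (p : ℚ) := by
            push_cast
            rw [map_mul, map_mul]
            simp only [map_ofNat]
            ring
          rw [this]
          ring
      _ = X * (wp ^ h * qp ^ p * G) + C (p : ℚ) * H := by
          rw [hY', hdwh, hdqp, hH, hP, hph]
          ring
  have hbd : bd x (2 * p) P = 0 := by
    have : P = qp * (Y * wp ^ h * qp ^ (p - 1)) := by
      rw [hP]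
      obtain ⟨p', hp'⟩ : ∃ p', p = p' + 1 := ⟨p - 1, by omega⟩
      rw [hp', Nat.add_sub_cancel]
      ring
    rw [this, bd_qp]
  have hlam := lam_theta (x : ℚ) (y : ℚ) (2 * p) P
  rw [hkey, hbd, map_add, lam_X_mul, ← smul_eq_C_mul, map_smul, smul_eq_mul] at hlam
  have h6 : lam x y (2 * p) (wp ^ h * qp ^ p * G) = - ((p : ℚ) * lam x y (2 * p + 1) H) := by
    linarith
  rw [h6, padicNorm.neg, padicNorm.mul, padicNorm.padicNorm_p_of_prime]
  have hqi : PInt p (derivative qp) := by
    have : derivative qp = C ((2 : ℤ) : ℚ) * X - C ((56 : ℤ) : ℚ) := by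
      rw [qp, derivative_add, derivative_sub, derivative_X_pow, derivative_C_mul, derivative_X,
        derivative_C]
      push_cast
      ring
    rw [this]
    exact ((PInt.ofInt 2).mul PInt.X).sub (PInt.ofInt 56)
  have hHi : PInt p H := by
    have e2 : (2 : ℚ[X]) = C ((2 : ℤ) : ℚ) := by push_cast; exact (map_ofNat C 2).symm
    have e4 : (4 : ℚ[X]) = C ((4 : ℤ) : ℚ) := by push_cast; exact (map_ofNat C 4).symm
    rw [hH, e2, e4]
    exact ((((PInt.X.mul hYi).mul (PInt.wp.pow h)).mul (PInt.qp.pow p)).sub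
      (((((PInt.ofInt 2).mul PInt.X).mul hYi).mul (PInt.wp.pow (h + 1))).mul
        (PInt.qp.pow (p - 1)) |>.mul hqi)).add
      ((((PInt.ofInt 4).mul hYi).mul (PInt.wp.pow (h + 1))).mul (PInt.qp.pow p))
  have hqdeg : qp.natDegree = 2 := by
    unfold qp
    compute_degree!
  have hdqdeg : (derivative qp).natDegree ≤ 1 := by
    refine (natDegree_derivative_le _).trans ?_
    rw [hqdeg]
  have hpw : ∀ (A : ℚ[X]) (k d : ℕ), A.natDegree ≤ d → (A ^ k).natDegree ≤ k * d := by
    intro A k d hA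
    refine natDegree_pow_le.trans ?_
    exact Nat.mul_le_mul_left k hA
  have hXd : (X : ℚ[X]).natDegree ≤ 1 := natDegree_X_le
  have h2d : (2 : ℚ[X]).natDegree ≤ 0 := by simp
  have h4d : (4 : ℚ[X]).natDegree ≤ 0 := by simp
  have hHd : H.natDegree ≤ 3 * p + h := by
    rw [hH]
    refine natDegree_add_le_of_degree_le ((natDegree_sub_le _ _).trans (max_le ?_ ?_)) ?_
    · have : 3 * p + h ≥ ((1 + (p - 1)) + h * 1) + p * 2 := by omega
      refine le_trans (natDegree_mul_le_of_le (natDegree_mul_le_of_le (natDegree_mul_le_of_le hXd hYdeg)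
        (hpw wp h 1 hwdeg.le)) (hpw qp p 2 hqdeg.le)) this
    · have : 3 * p + h ≥ ((((0 + 1) + (p - 1)) + (h + 1) * 1) + (p - 1) * 2) + 1 := by omega
      refine le_trans (natDegree_mul_le_of_le (natDegree_mul_le_of_le (natDegree_mul_le_of_le
        (natDegree_mul_le_of_le (natDegree_mul_le_of_le h2d hXd) hYdeg)
        (hpw wp (h + 1) 1 hwdeg.le)) (hpw qp (p - 1) 2 hqdeg.le)) hdqdeg) this
    · have : 3 * p + h ≥ ((0 + (p - 1)) + (h + 1) * 1) + p * 2 := by omega
      refine le_trans (natDegree_mul_le_of_le (natDegree_mul_le_of_le (natDegree_mul_le_of_le h4d hYdeg)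
        (hpw wp (h + 1) 1 hwdeg.le)) (hpw qp p 2 hqdeg.le)) this
  have hlamH : padicNorm p (lam x y (2 * p + 1) H) ≤ p := by
    refine lam_norm_le hHi x y (2 * p + 1) (3 * p + h) p (by positivity) hHd fun i hi => ?_
    refine Lam_norm_p h2 h5 x y _ ?_ ?_
    · have h7 : (i : ℤ) ≤ 3 * p + h := by exact_mod_cast hi
      have h8 : (p : ℤ) = 2 * h + 1 := by exact_mod_cast hh
      have h9 : (3 : ℤ) ≤ p := by exact_mod_cast hp2
      push_cast
      nlinarith
    · have h9 : (3 : ℤ) ≤ p := by exact_mod_cast hp2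
      push_cast
      nlinarith
  have hp0 : (0 : ℚ) < p := by exact_mod_cast hp.out.pos
  calc (p : ℚ)⁻¹ * padicNorm p (lam x y (2 * p + 1) H) ≤ (p : ℚ)⁻¹ * p :=
        mul_le_mul_of_nonneg_left hlamH (by positivity)
    _ = 1 := inv_mul_cancel₀ hp0.ne'

end Pool.Agent.Lib.PiMu
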